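import Mathlib
import Pool.Agent.Lib.P9700a.Rank
import Pool.Agent.Lib.P9700a.Cover
import Pool.Agent.Lib.P9700b.MainV
import Pool.Agent.Lib.P9700r.Defs

/-!
# Definitions: MP_9700b3_al for virtually residually (finite soluble) groups (T6)

`FR`, `VS` (finite special rank, soluble-by-finite), `HH A B N` (the pairs `(a, b)` with `a b⁻¹ ∈ N`), `NP p K N`, `EB p K c`
come from the libraries `P9700a`, `P9700b`, `P9700r`.

* `FRs X Y`, `VSs X Y`: the section `X Y / Y` (`Y` normal in `G`) has finite special rank, is soluble-by-finite.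
* `Rp p K`: the intersection of all normal subgroups `N` of `G` in `K` with `|K : N|` a power of `p`.
* `PC C C'`: every element of `C` has a positive power in `C'`.
* `CHB h Γ`: in a descending chain of subgroups at most `h` steps fail to be `PC`.
* `LinStep P Q`: `P / Q` embeds `G`-equivariantly in a finite dimensional linear `G`-space of characteristic `0`.
* `RG r X`: all finitely generated subgroups of `X` are generated by `r` elements.
-/

set_option autoImplicit false

namespace P9700t

open P9700a P9700r

variable {G : Type*} [Group G]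

/-- `X Y / Y` has finite special rank -/
def FRs (X Y : Subgroup G) [Y.Normal] : Prop := FR (X.map (QuotientGroup.mk' Y))

/-- `X Y / Y` is soluble-by-finite -/
def VSs (X Y : Subgroup G) [Y.Normal] : Prop := VS (X.map (QuotientGroup.mk' Y))

/-- the intersection of all normal subgroups of `G` contained in `K` whose index in `K` is a power of `p` -/
def Rp (p : ℕ) (K : Subgroup G) : Subgroup G := sInf {N | NP p K N}

instance Rp_normal (p : ℕ) (K : Subgroup G) : (Rp p K).Normal := by
  refine ⟨fun n hn g => ?_⟩
  unfold Rp at hn ⊢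
  rw [Subgroup.mem_sInf] at hn ⊢
  intro N hN
  exact hN.1.conj_mem n (hn N hN) g

theorem Rp_le {p : ℕ} {K N : Subgroup G} (h : NP p K N) : Rp p K ≤ N := sInf_le h

/-- every element of `C` has a positive power in `C'` -/
def PC {Γ : Type*} [Group Γ] (C C' : Subgroup Γ) : Prop := ∀ x ∈ C, ∃ n : ℕ, 0 < n ∧ x ^ n ∈ C'

/-- in every descending chain of subgroups of `Γ` at most `h` steps are not `PC` -/
def CHB (h : ℕ) (Γ : Type*) [Group Γ] : Prop :=
  ∀ C : ℕ → Subgroup Γ, Antitone C → ∀ I : Finset ℕ, (∀ i ∈ I, ¬ PC (C i) (C (i + 1))) → I.card ≤ h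

/-- `P / Q` embeds `G`-equivariantly in a finite dimensional linear `G`-space over a field of characteristic `0` -/
def LinStep (P Q : Subgroup G) : Prop :=
  ∃ (F : Type) (_ : Field F) (_ : CharZero F) (n : ℕ) (σ : G →* Matrix (Fin n) (Fin n) F)
    (φ : G → Fin n → F), (∀ x ∈ P, ∀ y ∈ P, φ (x * y) = φ x + φ y) ∧ (∀ x ∈ P, φ x = 0 ↔ x ∈ Q) ∧
      ∀ g : G, ∀ x ∈ P, φ (g * x * g⁻¹) = (σ g).mulVec (φ x)

/-- all finitely generated subgroups of `X` are generated by at most `r` elements -/
def RG (r : ℕ) (X : Subgroup G) : Prop :=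
  ∀ L : Subgroup G, L ≤ X → L.FG → ∃ s : Finset G, s.card ≤ r ∧ Subgroup.closure (s : Set G) = L

end P9700t
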