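import Mathlib
import Pool.Agent.Lib.P9700a.Rank
import Pool.Agent.Lib.P9700t.Defs

/-!
# Chains of subgroups: elementary facts, commutative groups, subgroups of finite index

* `CHB.of_injective`: take the images of the members of the chain; `PC (C.map f) (C'.map f) ↔ PC C C'` for injective `f`.
* `CHB.fin_index`: `Y` of finite index in `Γ`; restrict the chain to `Y` (`C i ⊓ Y`, `Subgroup.subgroupOf`). If `PC (C i ⊓ Y) (C (i+1) ⊓ Y)` then `PC (C i) (C (i+1))`: for `x ∈ C i` some positive power lies in `Y` (`Subgroup.exists_pow_mem_of_index_ne_zero`).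
* `chb_comm`: let `I` be given, for `i ∈ I` choose `x i ∈ C i` without positive power in `C (i + 1)`. The family `x i`, `i ∈ I`, is linearly independent over `ℤ` (in `Additive M`): in a relation let `i` be the smallest index with non-zero coefficient `a`; the other `x j` lie in `C (i + 1)`, so `x i ^ a ∈ C (i + 1)`, and so `x i ^ |a|`: contradiction.
  The subgroup generated by the `x i` is generated by at most `r` elements (`RG r`), so `I.card ≤ r` (a linearly independent family in a `ℤ`-module spanned by `r` elements has at most `r` members: `linearIndependent_le_span_finset`, or work in the submodule with `StrongRankCondition ℤ`).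
-/

set_option autoImplicit false

namespace P9700t

open P9700a

theorem CHB.mono {h h' : ℕ} (hh : h ≤ h') {Γ : Type*} [Group Γ] (H : CHB h Γ) : CHB h' Γ :=
  fun C hC I hI => (H C hC I hI).trans hh

theorem CHB.of_injective {Γ Δ : Type*} [Group Γ] [Group Δ] (f : Γ →* Δ)
    (hf : Function.Injective f) {h : ℕ} (H : CHB h Δ) : CHB h Γ := by
  intro C hC I hI
  refine H (fun i => (C i).map f) (fun i j hij => Subgroup.map_mono (hC hij)) I ?_
  intro i hi hPC
  apply hI i hi
  intro x hx
  obtain ⟨n, hn, y, hy, hyx⟩ := hPC (f x) ⟨x, hx, rfl⟩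
  refine ⟨n, hn, ?_⟩
  have h1 : y = x ^ n := hf (by rw [hyx, map_pow])
  rw [← h1]
  exact hy

theorem CHB.fin_index {Γ : Type*} [Group Γ] (Y : Subgroup Γ) (hY : Y.FiniteIndex) {h : ℕ}
    (H : CHB h Y) : CHB h Γ := by
  intro C hC I hI
  refine H (fun i => (C i).subgroupOf Y) (fun i j hij x hx => hC hij hx) I ?_
  intro i hi hPC
  apply hI i hi
  intro x hx
  obtain ⟨n, hn, _, hxn⟩ := Subgroup.exists_pow_mem_of_index_ne_zero hY.index_ne_zero x
  obtain ⟨m, hm, hxm⟩ := hPC ⟨x ^ n, hxn⟩ ((C i).pow_mem hx n)
  refine ⟨n * m, Nat.mul_pos hn hm, ?_⟩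
  rw [pow_mul]
  exact hxm

theorem chb_comm (M : Type*) [CommGroup M] (r : ℕ) (hr : RG r (⊤ : Subgroup M)) : CHB r M := by
  classical
  intro C hC I hI
  have hch : ∀ i : I, ∃ x : M, x ∈ C i ∧ ∀ n : ℕ, 0 < n → x ^ n ∉ C (i + 1) := by
    intro i
    have h1 := hI i i.2
    unfold PC at h1
    push Not at h1
    exact h1
  choose x hxC hxn using hch
  have hli : LinearIndependent ℤ (fun i : I => Additive.ofMul (x i)) := by
    rw [Fintype.linearIndependent_iff]
    intro g hg
    by_contra hne
    push Not at hne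
    obtain ⟨j, hj⟩ := hne
    have hS : (Finset.univ.filter (fun i : I => g i ≠ 0)).Nonempty :=
      ⟨j, Finset.mem_filter.2 ⟨Finset.mem_univ _, hj⟩⟩
    obtain ⟨i0, hi0, hmin⟩ := Finset.exists_min_image _ (fun i : I => (i : ℕ)) hS
    have hg0 : g i0 ≠ 0 := (Finset.mem_filter.1 hi0).2
    have h1 : g i0 • Additive.ofMul (x i0) ∈ Subgroup.toAddSubgroup (C ((i0 : ℕ) + 1)) := by
      rw [← Finset.add_sum_erase _ _ (Finset.mem_univ i0)] at hg
      rw [eq_neg_of_add_eq_zero_left hg]
      refine AddSubgroup.neg_mem _ (AddSubgroup.sum_mem _ (fun i hi => ?_))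
      by_cases hgi : g i = 0
      · rw [hgi, zero_smul]
        exact AddSubgroup.zero_mem _
      · have h2 : (i0 : ℕ) ≤ i := hmin i (Finset.mem_filter.2 ⟨Finset.mem_univ _, hgi⟩)
        have h3 : (i : ℕ) ≠ i0 := fun h => (Finset.mem_erase.1 hi).1 (Subtype.ext h)
        refine AddSubgroup.zsmul_mem _ ?_ _
        exact hC (show (i0 : ℕ) + 1 ≤ i by omega) (hxC i)
    have h4 : x i0 ^ (g i0) ∈ C ((i0 : ℕ) + 1) := h1
    refine hxn i0 (g i0).natAbs (Int.natAbs_pos.2 hg0) ?_
    rcases Int.natAbs_eq (g i0) with h5 | h5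
    · rw [h5, zpow_natCast] at h4
      exact h4
    · rw [h5, zpow_neg, zpow_natCast] at h4
      exact (Subgroup.inv_mem_iff _).1 h4
  obtain ⟨s, hs, hcl⟩ := hr (Subgroup.closure (Set.range x)) le_top
    ⟨Finset.univ.image x, by rw [Finset.coe_image, Finset.coe_univ, Set.image_univ]⟩
  have hspan : ∀ y ∈ Subgroup.closure (s : Set M),
      Additive.ofMul y ∈ Submodule.span ℤ ((s.image Additive.ofMul : Finset (Additive M)) :
        Set (Additive M)) := by
    intro y hy
    induction hy using Subgroup.closure_induction with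
    | mem a ha => exact Submodule.subset_span (Finset.mem_image_of_mem _ ha)
    | one => exact Submodule.zero_mem _
    | mul a b _ _ ha hb => exact Submodule.add_mem _ ha hb
    | inv a _ ha => exact Submodule.neg_mem _ ha
  have hcard := linearIndependent_le_span_aux' (fun i : I => Additive.ofMul (x i)) hli
    ((s.image Additive.ofMul : Finset (Additive M)) : Set (Additive M)) (by
      rintro _ ⟨i, rfl⟩
      apply hspan
      rw [hcl]
      exact Subgroup.subset_closure ⟨i, rfl⟩)
  rw [Fintype.card_coe] at hcard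
  have h9 : ∀ (t : Finset (Additive M)) (inst : Fintype ↑(t : Set (Additive M))),
      @Fintype.card ↑(t : Set (Additive M)) inst = t.card := by
    intro t inst
    rw [← Fintype.card_coe t]
    exact Fintype.card_congr (Equiv.refl _)
  refine hcard.trans (le_trans ?_ hs)
  rw [h9]
  exact Finset.card_image_le

/-- the same for a group whose multiplication happens to be commutative -/
theorem chb_comm' (M : Type*) [Group M] (hc : ∀ x y : M, x * y = y * x) (r : ℕ)
    (hr : RG r (⊤ : Subgroup M)) : CHB r M := by
  exact @chb_comm M { (inferInstance : Group M) with mul_comm := hc } r hr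

end P9700t
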