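import Mathlib
import Pool.Agent.Lib.P9700a.Rank
import Pool.Agent.Lib.P9700t.Defs

/-!
# Chains of subgroups: extension by a commutative normal subgroup of finite special rank

`pc_of_two`: `C' ≤ C`, `N` commutative, normal, `FR N`, `PC (C.subgroupOf N) (C'.subgroupOf N)` and `PC (C.map π) (C'.map π)` (`π = QuotientGroup.mk' N`) imply `PC C C'`. Proof: `x ∈ C`; `π x ^ n ∈ C'.map π`, so `x ^ n = y z` with `y ∈ C'`, `z ∈ N`, and `z = y⁻¹ x ^ n ∈ C`: `z ∈ Z0 = C ⊓ N`.
Let `m > 0` with `z ^ m ∈ C'`. The elements `u i = y ^ (-i) (y z) ^ i` lie in `C ⊓ N` and have their `m`-th powers in `C'`; two of them, `i < i'`, agree modulo `C' ⊓ N` (`pig`: a finitely generated subgroup of `N / (C' ⊓ N)` of exponent dividing `m` has at most `m ^ r` elements), and `(y z) ^ (i' - i) = y ^ i' (u i)⁻¹ (u i') y ^ (-i) ∈ C'`.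
`chb_ext`: given a chain `C` and `I`, let `I1 ⊆ I` be the set of `i` with `¬ PC` for the intersections with `N` (`(C i).subgroupOf N`), `I2 ⊆ I` for the images in `Γ ⧸ N`. `I ⊆ I1 ∪ I2` by `pc_of_two`.
-/

set_option autoImplicit false

namespace P9700t

open P9700a

/-- pigeonhole in a commutative group of finite special rank -/
theorem ChbE_pig {A : Type*} [CommGroup A] (hA : FR A) (B : Subgroup A) {m : ℕ} (hm : 0 < m)
    (u : ℕ → A) (hu : ∀ i, u i ^ m ∈ B) : ∃ i i' : ℕ, i < i' ∧ (u i)⁻¹ * u i' ∈ B := by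
  classical
  obtain ⟨r, hr⟩ := FR.of_surjective (QuotientGroup.mk' B) (QuotientGroup.mk'_surjective B) hA
  by_contra hcon
  push Not at hcon
  set q : ℕ → A ⧸ B := fun i => QuotientGroup.mk' B (u i) with hq
  have hinj : Function.Injective q := by
    intro i j hij
    by_contra hne
    have h1 : (u i)⁻¹ * u j ∈ B := by
      have := hij
      simp only [hq, QuotientGroup.mk'_apply] at this
      exact QuotientGroup.eq.1 this
    have h2 : (u j)⁻¹ * u i ∈ B := by
      have := B.inv_mem h1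
      rwa [mul_inv_rev, inv_inv] at this
    rcases lt_or_gt_of_ne hne with h | h
    · exact hcon i j h h1
    · exact hcon j i h h2
  set T : Finset (A ⧸ B) := (Finset.range (m ^ r + 1)).image q with hT
  obtain ⟨s, hs1, hs2⟩ := hr (Subgroup.closure (T : Set (A ⧸ B))) ⟨T, rfl⟩
  set L : Subgroup (A ⧸ B) := Subgroup.closure (T : Set (A ⧸ B)) with hL
  have hexp : ∀ l ∈ L, l ^ m = 1 := by
    have : L ≤ (powMonoidHom m : (A ⧸ B) →* (A ⧸ B)).ker := by
      rw [hL, Subgroup.closure_le]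
      intro x hx
      rw [hT, Finset.coe_image] at hx
      obtain ⟨i, -, rfl⟩ := hx
      rw [SetLike.mem_coe, MonoidHom.mem_ker, powMonoidHom_apply, hq]
      change (QuotientGroup.mk' B (u i)) ^ m = 1
      rw [← map_pow, QuotientGroup.mk'_apply, QuotientGroup.eq_one_iff]
      exact hu i
    intro l hl
    have h1 := this hl
    rwa [MonoidHom.mem_ker, powMonoidHom_apply] at h1
  have hFG : L.FG := ⟨s, hs2⟩
  have : Group.FG L := (Group.fg_iff_subgroup_fg L).2 hFG
  have hrank : Group.rank L ≤ r := by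
    have h1 : Subgroup.closure ((Subtype.val : L → A ⧸ B) ⁻¹' (s : Set (A ⧸ B))) = ⊤ := by
      apply Subgroup.map_injective (Subgroup.subtype_injective L)
      rw [MonoidHom.map_closure]
      have h2 : (L.subtype : L → A ⧸ B) '' (Subtype.val ⁻¹' (s : Set (A ⧸ B))) = (s : Set (A ⧸ B)) := by
        ext x
        constructor
        · rintro ⟨y, hy, rfl⟩
          exact hy
        · intro hx
          have hxL : x ∈ L := by
            rw [← hs2]
            exact Subgroup.subset_closure hx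
          exact ⟨⟨x, hxL⟩, hx, rfl⟩
      rw [h2, hs2]
      rw [← MonoidHom.range_eq_map, Subgroup.range_subtype]
    set s' : Finset L := s.preimage (Subtype.val : L → A ⧸ B) Subtype.val_injective.injOn with hs'
    have h3 : Subgroup.closure (s' : Set L) = ⊤ := by
      rw [hs', Finset.coe_preimage]
      exact h1
    have h4 : s'.card ≤ s.card := by
      rw [hs']
      refine Finset.card_le_card_of_injOn (Subtype.val : L → A ⧸ B) ?_ Subtype.val_injective.injOn
      intro x hx
      exact Finset.mem_preimage.1 hx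
    exact (Group.rank_le h3).trans (h4.trans hs1)
  have hcard : Nat.card L ∣ m ^ Group.rank L :=
    card_dvd_exponent_pow_rank' L (fun g => by
      apply Subtype.ext
      exact hexp g.1 g.2)
  have hpos : 0 < m ^ Group.rank L := Nat.pow_pos hm
  have hle : Nat.card L ≤ m ^ r :=
    (Nat.le_of_dvd hpos hcard).trans (Nat.pow_le_pow_right hm hrank)
  have hfin : Finite L := Nat.finite_of_card_ne_zero (by
    intro h0
    rw [h0] at hcard
    exact hpos.ne' (Nat.eq_zero_of_zero_dvd hcard))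
  have hmem : ∀ i : Fin (m ^ r + 1), q i ∈ L := fun i => Subgroup.subset_closure (by
    rw [hT, Finset.coe_image]
    exact ⟨i, Finset.mem_coe.2 (Finset.mem_range.2 i.2), rfl⟩)
  have h5 : Nat.card (Fin (m ^ r + 1)) ≤ Nat.card L :=
    Nat.card_le_card_of_injective (fun i : Fin (m ^ r + 1) => (⟨q i, hmem i⟩ : L)) (by
      intro i j hij
      exact Fin.ext (hinj (congrArg Subtype.val hij)))
  rw [Nat.card_eq_fintype_card, Fintype.card_fin] at h5
  omega

theorem pc_of_two {Γ : Type*} [Group Γ] (N : Subgroup Γ) [N.Normal]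
    (hab : ∀ x ∈ N, ∀ y ∈ N, x * y = y * x) (hN : FR N) (C C' : Subgroup Γ) (hC : C' ≤ C)
    (h1 : PC (C.subgroupOf N) (C'.subgroupOf N))
    (h2 : PC (C.map (QuotientGroup.mk' N)) (C'.map (QuotientGroup.mk' N))) : PC C C' := by
  intro x hx
  obtain ⟨n, hn, hxn⟩ := h2 (QuotientGroup.mk' N x) (Subgroup.mem_map_of_mem _ hx)
  rw [← map_pow] at hxn
  obtain ⟨y, hy, hyx⟩ := Subgroup.mem_map.1 hxn
  have hz : y⁻¹ * x ^ n ∈ N := by
    rw [QuotientGroup.mk'_apply, QuotientGroup.mk'_apply] at hyx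
    exact QuotientGroup.eq.1 hyx
  obtain ⟨z, hzdef⟩ : ∃ z : Γ, z = y⁻¹ * x ^ n := ⟨_, rfl⟩
  rw [← hzdef] at hz
  have hxyz : x ^ n = y * z := by rw [hzdef, mul_inv_cancel_left]
  have hzC : z ∈ C := by
    rw [hzdef]
    exact C.mul_mem (C.inv_mem (hC hy)) (C.pow_mem hx n)
  obtain ⟨m, hm, hzm⟩ := h1 ⟨z, hz⟩ (Subgroup.mem_subgroupOf.2 hzC)
  have hzm' : z ^ m ∈ C' := Subgroup.mem_subgroupOf.1 hzm
  -- the elements `u i`
  set u : ℕ → Γ := fun i => (y ^ i)⁻¹ * (y * z) ^ i with hu
  have hu0 : u 0 = 1 := by rw [hu]; simp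
  have hus : ∀ i, u (i + 1) = (y⁻¹ * u i * y) * z := by
    intro i
    simp only [hu]
    rw [pow_succ (y * z) i, pow_succ y i]
    group
  have huN : ∀ i, u i ∈ N := by
    intro i
    induction i with
    | zero => rw [hu0]; exact N.one_mem
    | succ i ih =>
      rw [hus]
      refine N.mul_mem ?_ hz
      have := (inferInstance : N.Normal).conj_mem (u i) ih y⁻¹
      rwa [inv_inv] at this
  have hum : ∀ i, u i ^ m ∈ C' := by
    intro i
    induction i with
    | zero => rw [hu0, one_pow]; exact C'.one_mem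
    | succ i ih =>
      rw [hus]
      have hc : Commute (y⁻¹ * u i * y) z := by
        refine hab _ ?_ _ hz
        have := (inferInstance : N.Normal).conj_mem (u i) (huN i) y⁻¹
        rwa [inv_inv] at this
      rw [hc.mul_pow]
      refine C'.mul_mem ?_ hzm'
      have h3 : (y⁻¹ * u i * y) ^ m = y⁻¹ * u i ^ m * y := by
        have := conj_pow (i := m) (a := y⁻¹) (b := u i)
        rwa [inv_inv] at this
      rw [h3]
      exact C'.mul_mem (C'.mul_mem (C'.inv_mem hy) ih) hy
  let inst0 : CommGroup N := { (inferInstance : Group N) with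
    mul_comm := fun a b => Subtype.ext (hab a.1 a.2 b.1 b.2) }
  obtain ⟨i, i', hii, hw⟩ := ChbE_pig (A := N) hN (C'.subgroupOf N) hm (fun i => ⟨u i, huN i⟩)
    (fun i => Subgroup.mem_subgroupOf.2 (hum i))
  have hw' : (u i)⁻¹ * u i' ∈ C' := Subgroup.mem_subgroupOf.1 hw
  have hwN : (u i)⁻¹ * u i' ∈ N := N.mul_mem (N.inv_mem (huN i)) (huN i')
  refine ⟨n * (i' - i), Nat.mul_pos hn (Nat.sub_pos_of_lt hii), ?_⟩
  rw [pow_mul, hxyz]
  have h4 : (y * z) ^ (i' - i) = (y * z) ^ i' * ((y * z) ^ i)⁻¹ := by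
    rw [pow_sub _ hii.le]
  have h5 : ∀ j, (y * z) ^ j = y ^ j * u j := by
    intro j
    simp only [hu]
    exact (mul_inv_cancel_left _ _).symm
  have h6 : u i' = ((u i)⁻¹ * u i') * u i := by
    rw [hab _ hwN _ (huN i), mul_inv_cancel_left]
  rw [h4, h5 i', h5 i, h6]
  have h7 : y ^ i' * ((u i)⁻¹ * u i' * u i) * (y ^ i * u i)⁻¹ =
      y ^ i' * ((u i)⁻¹ * u i') * (y ^ i)⁻¹ := by
    group
  rw [h7]
  exact C'.mul_mem (C'.mul_mem (C'.pow_mem hy _) hw') (C'.inv_mem (C'.pow_mem hy _))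

theorem chb_ext {Γ : Type*} [Group Γ] (N : Subgroup Γ) [N.Normal]
    (hab : ∀ x ∈ N, ∀ y ∈ N, x * y = y * x) (hN : FR N) {h1 h2 : ℕ} (H1 : CHB h1 N)
    (H2 : CHB h2 (Γ ⧸ N)) : CHB (h1 + h2) Γ := by
  classical
  intro C hC I hI
  set I1 : Finset ℕ := I.filter (fun i => ¬ PC ((C i).subgroupOf N) ((C (i + 1)).subgroupOf N))
    with hI1
  set I2 : Finset ℕ := I.filter (fun i => ¬ PC ((C i).map (QuotientGroup.mk' N))
    ((C (i + 1)).map (QuotientGroup.mk' N))) with hI2
  have hsub : I ⊆ I1 ∪ I2 := by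
    intro i hi
    by_contra hnot
    rw [Finset.mem_union, not_or, hI1, hI2, Finset.mem_filter, Finset.mem_filter] at hnot
    obtain ⟨ha, hb⟩ := hnot
    have ha' : PC ((C i).subgroupOf N) ((C (i + 1)).subgroupOf N) := by
      by_contra h
      exact ha ⟨hi, h⟩
    have hb' : PC ((C i).map (QuotientGroup.mk' N)) ((C (i + 1)).map (QuotientGroup.mk' N)) := by
      by_contra h
      exact hb ⟨hi, h⟩
    exact hI i hi (pc_of_two N hab hN (C i) (C (i + 1)) (hC (Nat.le_succ i)) ha' hb')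
  have hc1 : I1.card ≤ h1 := by
    refine H1 (fun i => (C i).subgroupOf N) ?_ I1 ?_
    · intro a b hab' x hx
      exact Subgroup.mem_subgroupOf.2 (hC hab' (Subgroup.mem_subgroupOf.1 hx))
    · intro i hi
      rw [hI1] at hi
      exact (Finset.mem_filter.1 hi).2
  have hc2 : I2.card ≤ h2 := by
    refine H2 (fun i => (C i).map (QuotientGroup.mk' N)) ?_ I2 ?_
    · intro a b hab'
      exact Subgroup.map_mono (hC hab')
    · intro i hi
      rw [hI2] at hi
      exact (Finset.mem_filter.1 hi).2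
  calc I.card ≤ (I1 ∪ I2).card := Finset.card_le_card hsub
    _ ≤ I1.card + I2.card := Finset.card_union_le _ _
    _ ≤ h1 + h2 := Nat.add_le_add hc1 hc2

end P9700t
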