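import Mathlib
import Pool.Agent.Lib.P9700t.Defs

/-!
# Chains of subgroups: extension by a union of finite normal subgroups

Let `C' ≤ C` and suppose `PC (C.map π) (C'.map π)`, `π = QuotientGroup.mk' T`. Then `PC C C'`: for `x ∈ C` write `x ^ n = y t`, `n > 0`, `y ∈ C'`, `t ∈ T`; `t` lies in a finite normal subgroup `Φ` of `Γ`. Conjugation by `y` is an automorphism of `Φ`; some power `y ^ j`, `j > 0`, centralises `Φ`. `(y t) ^ j = y ^ j t'` with `t' ∈ Φ` (`y t` and `y` agree modulo the normal subgroup `Φ`),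
and `(y ^ j t') ^ k = y ^ (j k) t' ^ k = y ^ (j k)` for `k = Nat.card Φ`. So `x ^ (n j k) ∈ C'`. Hence a step which is not `PC` in `Γ` is not `PC` in `Γ ⧸ T`: use the chain `(C i).map π`.
(Elementary variant: `(y t) ^ i ∈ y ^ i Φ` for all `i`; the elements `y ^ (-i) (y t) ^ i ∈ Φ` take a value twice, `y ^ (-i) (y t) ^ i = y ^ (-i') (y t) ^ i'`, so `(y t) ^ (i' - i) = y ^ (i' - i)` up to conjugation: `(y t) ^ i' (y t) ^ (-i) = y ^ i' y ^ (-i)`.)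
-/

set_option autoImplicit false

namespace P9700t

namespace ChbLAux

theorem pow_eq {Γ : Type*} [Group Γ] (Φ : Subgroup Γ) [Φ.Normal] [Finite Φ] (y t : Γ)
    (ht : t ∈ Φ) : ∃ k : ℕ, 0 < k ∧ (y * t) ^ k = y ^ k := by
  have hmem : ∀ i : ℕ, (y ^ i)⁻¹ * (y * t) ^ i ∈ Φ := by
    intro i
    rw [← QuotientGroup.eq_one_iff, QuotientGroup.mk_mul, QuotientGroup.mk_inv,
      QuotientGroup.mk_pow, QuotientGroup.mk_pow, QuotientGroup.mk_mul,
      (QuotientGroup.eq_one_iff t).2 ht, mul_one, inv_mul_cancel]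
  obtain ⟨i, j, hij, hf⟩ := Finite.exists_ne_map_eq_of_infinite
    (fun i : ℕ => (⟨(y ^ i)⁻¹ * (y * t) ^ i, hmem i⟩ : Φ))
  have key : ∀ i j : ℕ, i < j → (y ^ i)⁻¹ * (y * t) ^ i = (y ^ j)⁻¹ * (y * t) ^ j →
      ∃ k : ℕ, 0 < k ∧ (y * t) ^ k = y ^ k := by
    intro i j hij h
    obtain ⟨k, rfl⟩ := Nat.exists_eq_add_of_lt hij
    refine ⟨k + 1, Nat.succ_pos k, ?_⟩
    rw [show i + k + 1 = (k + 1) + i by ring] at h
    rw [pow_add y, pow_add (y * t), mul_inv_rev] at h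
    have h1 : (y ^ (k + 1))⁻¹ * (y * t) ^ (k + 1) = 1 := by
      have h2 : (y ^ i)⁻¹ * ((y * t) ^ i) = (y ^ i)⁻¹ * ((y ^ (k + 1))⁻¹ * (y * t) ^ (k + 1)) *
          (y * t) ^ i := by
        rw [h]
        group
      have h3 : (y * t) ^ i = ((y ^ (k + 1))⁻¹ * (y * t) ^ (k + 1)) * (y * t) ^ i := by
        rw [mul_assoc] at h2
        exact mul_left_cancel h2
      exact (mul_eq_right.1 h3.symm)
    exact (inv_mul_eq_one.1 h1).symm
  have hf' : (y ^ i)⁻¹ * (y * t) ^ i = (y ^ j)⁻¹ * (y * t) ^ j := congrArg Subtype.val hf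
  rcases lt_or_gt_of_ne hij with h | h
  · exact key i j h hf'
  · exact key j i h hf'.symm

theorem pc_of_map {Γ : Type*} [Group Γ] (T : Subgroup Γ) [T.Normal]
    (hT : ∀ t ∈ T, ∃ Φ : Subgroup Γ, Φ.Normal ∧ Finite Φ ∧ t ∈ Φ) {C C' : Subgroup Γ}
    (h : PC (C.map (QuotientGroup.mk' T)) (C'.map (QuotientGroup.mk' T))) : PC C C' := by
  intro x hx
  obtain ⟨n, hn, y, hy, hyx⟩ := h _ (Subgroup.mem_map_of_mem _ hx)
  rw [← map_pow] at hyx
  have ht : y⁻¹ * x ^ n ∈ T := QuotientGroup.eq.1 hyx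
  obtain ⟨Φ, hΦ, hΦf, htΦ⟩ := hT _ ht
  obtain ⟨k, hk, hk'⟩ := pow_eq Φ y _ htΦ
  rw [mul_inv_cancel_left, ← pow_mul] at hk'
  refine ⟨n * k, Nat.mul_pos hn hk, ?_⟩
  rw [hk']
  exact C'.pow_mem hy k

end ChbLAux

theorem chb_lf {Γ : Type*} [Group Γ] (T : Subgroup Γ) [T.Normal]
    (hT : ∀ t ∈ T, ∃ Φ : Subgroup Γ, Φ.Normal ∧ Finite Φ ∧ t ∈ Φ) {h : ℕ}
    (H : CHB h (Γ ⧸ T)) : CHB h Γ := by
  intro C hC I hI
  refine H (fun i => (C i).map (QuotientGroup.mk' T)) (fun i j hij => Subgroup.map_mono (hC hij))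
    I fun i hi hp => hI i hi (ChbLAux.pc_of_map T hT hp)

end P9700t
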