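import Mathlib
import Pool.Agent.Lib.P9700a.Rank
import Pool.Agent.Lib.P9700b.MainV
import Pool.Agent.Lib.P9700t.Defs
import Pool.Agent.Lib.P9700t.ChbA
import Pool.Agent.Lib.P9700t.ChbE
import Pool.Agent.Lib.P9700t.ChbL

/-!
# Chains of subgroups in soluble-by-finite groups of finite special rank, and products

* `chb_solv`: induction on `k` with `derivedSeries Γ k = ⊥`, for all groups: `k = 0` trivial group (`CHB 0`). `k + 1`: `N = derivedSeries Γ k` is commutative, normal; `FR N` gives `RG r (⊤ : Subgroup N)` for some `r` and `chb_comm'`; `Γ ⧸ N` has `derivedSeries _ k = ⊥` (`map_derivedSeries_eq`), `FR (Γ ⧸ N)`; `chb_ext`.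
* `chb_fr_vs`: `CHB.fin_index`.
* `exists_chb_prod`: `T = (TA.prod TB)` is normal in `A' × B'`, every element lies in a finite normal subgroup `ΦA.prod ΦB`; `(A' × B') ⧸ T` embeds in `(A' ⧸ TA) × (B' ⧸ TB)` (kernel of the surjective homomorphism), which is `FR` and `VS` (product of two `VS` groups: `VS_of_two` in `P9700b/MainV.lean`). `chb_fr_vs`, `CHB.of_injective`, `chb_lf`.
-/

set_option autoImplicit false

namespace P9700t

open P9700a

/-- `Γ` has a normal subgroup `T`, a union of finite normal subgroups of `Γ`, with `Γ ⧸ T` soluble-by-finite -/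
def LFV (Γ : Type*) [Group Γ] : Prop :=
  ∃ (T : Subgroup Γ) (_ : T.Normal),
    (∀ t ∈ T, ∃ Φ : Subgroup Γ, Φ.Normal ∧ Finite Φ ∧ t ∈ Φ) ∧ VS (Γ ⧸ T)

theorem chb_solv (k : ℕ) : ∀ (Γ : Type*) [Group Γ], FR Γ → derivedSeries Γ k = ⊥ →
    ∃ h : ℕ, CHB h Γ := by
  induction k with
  | zero =>
    intro Γ _ hF h0
    rw [derivedSeries_zero] at h0
    have hsub : ∀ x : Γ, x = 1 := by
      intro x
      have hx : x ∈ (⊤ : Subgroup Γ) := Subgroup.mem_top x
      rw [h0] at hx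
      exact Subgroup.mem_bot.1 hx
    refine ⟨0, fun C hC I hI => ?_⟩
    rw [Nat.le_zero, Finset.card_eq_zero, Finset.eq_empty_iff_forall_notMem]
    intro i hi
    apply hI i hi
    intro x hx
    refine ⟨1, Nat.one_pos, ?_⟩
    rw [hsub (x ^ 1)]
    exact Subgroup.one_mem _
  | succ k ih =>
    intro Γ _ hF h0
    have hab : ∀ x ∈ derivedSeries Γ k, ∀ y ∈ derivedSeries Γ k, x * y = y * x := by
      rw [derivedSeries_succ, Subgroup.commutator_eq_bot_iff_le_centralizer] at h0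
      intro x hx y hy
      have := Subgroup.mem_centralizer_iff.1 (h0 hx) y hy
      exact this.symm
    have hN : FR (derivedSeries Γ k) := hF.subgroup _
    obtain ⟨r, hr⟩ := hN
    have H1 : CHB r (derivedSeries Γ k) := by
      refine chb_comm' _ ?_ r (fun L _ hL => hr L hL)
      intro x y
      exact Subtype.ext (hab x x.2 y y.2)
    have hq : derivedSeries (Γ ⧸ derivedSeries Γ k) k = ⊥ := by
      rw [← map_derivedSeries_eq (QuotientGroup.mk'_surjective (derivedSeries Γ k)) k,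
        eq_bot_iff]
      rintro _ ⟨x, hx, rfl⟩
      rw [Subgroup.mem_bot]
      exact (QuotientGroup.eq_one_iff x).2 hx
    obtain ⟨h2, H2⟩ := ih (Γ ⧸ derivedSeries Γ k)
      (hF.of_surjective (QuotientGroup.mk' _) (QuotientGroup.mk'_surjective _)) hq
    exact ⟨r + h2, chb_ext _ hab (hF.subgroup _) H1 H2⟩

theorem chb_fr_vs {Γ : Type*} [Group Γ] (hF : FR Γ) (hV : VS Γ) : ∃ h : ℕ, CHB h Γ := by
  obtain ⟨Y, hY, hs⟩ := hV
  obtain ⟨k, hk⟩ := hs.solvable
  obtain ⟨h, H⟩ := chb_solv k Y (hF.subgroup Y) hk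
  exact ⟨h, CHB.fin_index Y hY H⟩

theorem exists_chb_prod {A' B' : Type*} [Group A'] [Group B'] (hA : FR A') (hA' : LFV A')
    (hB : FR B') (hB' : LFV B') : ∃ h : ℕ, CHB h (A' × B') := by
  obtain ⟨TA, nA, hTA, vA⟩ := hA'
  obtain ⟨TB, nB, hTB, vB⟩ := hB'
  have nT : (TA.prod TB).Normal := inferInstance
  have hT : ∀ t ∈ TA.prod TB, ∃ Φ : Subgroup (A' × B'), Φ.Normal ∧ Finite Φ ∧ t ∈ Φ := by
    rintro ⟨a, b⟩ hab
    rw [Subgroup.mem_prod] at hab
    obtain ⟨Φ1, n1, f1, h1⟩ := hTA a hab.1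
    obtain ⟨Φ2, n2, f2, h2⟩ := hTB b hab.2
    refine ⟨Φ1.prod Φ2, inferInstance, ?_, ?_⟩
    · exact Finite.of_equiv _ (Φ1.prodEquiv Φ2).symm.toEquiv
    · rw [Subgroup.mem_prod]
      exact ⟨h1, h2⟩
  have hFQ : FR ((A' × B') ⧸ TA.prod TB) :=
    (hA.prod hB).of_surjective (QuotientGroup.mk' _) (QuotientGroup.mk'_surjective _)
  let f0 : (A' × B') ⧸ TA.prod TB →* A' ⧸ TA :=
    QuotientGroup.map (TA.prod TB) TA (MonoidHom.fst A' B') (by
      intro x hx
      exact (Subgroup.mem_prod.1 hx).1)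
  let f1 : (A' × B') ⧸ TA.prod TB →* B' ⧸ TB :=
    QuotientGroup.map (TA.prod TB) TB (MonoidHom.snd A' B') (by
      intro x hx
      exact (Subgroup.mem_prod.1 hx).2)
  have hVQ : VS ((A' × B') ⧸ TA.prod TB) := by
    refine MainVAux.VS_of_two f0 f1 ⊥ ?_ inferInstance vA vB
    intro g h0 h1
    obtain ⟨⟨a, b⟩, rfl⟩ := QuotientGroup.mk'_surjective _ g
    have e0 : (QuotientGroup.mk' TA) a = 1 := h0
    have e1 : (QuotientGroup.mk' TB) b = 1 := h1
    rw [Subgroup.mem_bot]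
    refine (QuotientGroup.eq_one_iff _).2 ?_
    rw [Subgroup.mem_prod]
    exact ⟨(QuotientGroup.eq_one_iff a).1 e0, (QuotientGroup.eq_one_iff b).1 e1⟩
  obtain ⟨h, H⟩ := chb_fr_vs hFQ hVQ
  exact ⟨h, chb_lf _ hT H⟩

end P9700t
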