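import Mathlib
import Pool.Agent.Lib.P9700r.Defs
import Pool.Agent.Lib.P9700r.RankElem
import Pool.Agent.Lib.P9700r.Count

/-!
# Surjective crossed homomorphisms onto elementary abelian groups, without a finiteness assumption

`H` acts on the finite set `M` by `h • v = φ h v * δ h` (an action because `δ (h h') = φ h (δ h') * δ h`; homomorphism `Ψ : H → Equiv.Perm M`), and this action is transitive: the orbit of `1` is `δ H = M`. `M` is a finite group of exponent dividing `p`, so `Nat.card M = p ^ m`.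
Let `X = Ψ.range` (finite) and `P` a Sylow `p`-subgroup of `X`. `P` is transitive on `M`: `|X| = |M| |stab|`, so `p ^ m` divides `X : stab_P(1)`, `|X : stab_P(1)| = |X : P| |P : stab_P(1)|` and `|X : P|` is prime to `p`; so `p ^ m` divides the size `|P : stab_P(1)|` of the orbit of `1` under `P`.
`H' = P.comap Ψ` (as a subgroup of `H`): `δ (H') = M` (orbit of `1`). For `h ∈ H'` some `h ^ (p ^ j)` acts trivially: `φ (h ^ (p ^ j)) v * δ (h ^ (p ^ j)) = v` for all `v`; `v = 1` gives `δ (..) = 1`, so `φ (h ^ (p ^ j)) = 1`, i.e. `(φ h) ^ (p ^ j) = 1`.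
Apply `P9700r.count` to `H'` (`RB.subgroup`), `K = ⊤`, `q = 1`, `φ.comp H'.subtype`, `δ` restricted to `H'`.
-/

set_option autoImplicit false

namespace P9700t

open P9700r

namespace CntTAux

/-- the affine action -/
def act {H M : Type*} [Group H] [CommGroup M] (φ : H →* MulAut M) (δ : H → M)
    (hδ : ∀ h h' : H, δ (h * h') = φ h (δ h') * δ h) : MulAction H M where
  smul h v := φ h v * δ h
  one_smul v := by
    have h1 : δ 1 = 1 := by
      have h2 := hδ 1 1
      rw [mul_one, map_one, MulAut.one_apply] at h2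
      exact (mul_eq_left.1 h2.symm)
    show φ 1 v * δ 1 = v
    rw [h1, map_one, MulAut.one_apply, mul_one]
  mul_smul h h' v := by
    show φ (h * h') v * δ (h * h') = φ h (φ h' v * δ h') * δ h
    rw [hδ, map_mul, MulAut.mul_apply, map_mul, mul_assoc]

end CntTAux

open CntTAux

theorem count_trans {H M : Type*} [Group H] [CommGroup M] [Finite M] {p : ℕ} (hp : p.Prime)
    (hM : ∀ x : M, x ^ p = 1) (r : ℕ) (hH : RB r H) (φ : H →* MulAut M)
    (δ : H → M) (hδ : ∀ h h' : H, δ (h * h') = φ h (δ h') * δ h) (hs : Function.Surjective δ)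
    (t : ℕ) (ht : Nat.card M ≤ p ^ (2 ^ t)) :
    Nat.card M ≤ p ^ (r * (t + 1)) := by
  classical
  have hfp : Fact p.Prime := ⟨hp⟩
  letI : MulAction H M := act φ δ hδ
  have hsm : ∀ (h : H) (v : M), h • v = φ h v * δ h := fun _ _ => rfl
  have hsm1 : ∀ h : H, h • (1 : M) = δ h := by
    intro h
    rw [hsm, map_one, one_mul]
  let Ψ : H →* Equiv.Perm M := MulAction.toPermHom H M
  have hΨ : ∀ (h : H) (v : M), Ψ h v = h • v := fun _ _ => rfl
  have hX : Finite Ψ.range := inferInstance
  let P : Sylow p Ψ.range := default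
  let H' : Subgroup H := (P : Subgroup Ψ.range).comap Ψ.rangeRestrict
  have hH'i : ¬ p ∣ H'.index := by
    have h1 : H'.index = (P : Subgroup Ψ.range).index :=
      Subgroup.index_comap_of_surjective _ Ψ.rangeRestrict_surjective
    rw [h1]
    exact P.not_dvd_index
  have hMp : IsPGroup p M := fun x => ⟨1, by rw [pow_one]; exact hM x⟩
  obtain ⟨m, hm⟩ := IsPGroup.iff_card.1 hMp
  -- the stabiliser
  have hT : (MulAction.stabilizer H (1 : M)).index = Nat.card M := by
    rw [MulAction.index_stabilizer]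
    have h1 : MulAction.orbit H (1 : M) = Set.univ := by
      refine Set.eq_univ_of_forall fun v => ?_
      obtain ⟨h, hh⟩ := hs v
      exact ⟨h, by rw [← hh]; exact hsm1 h⟩
    rw [h1, Set.ncard_univ]
  have hT' : (MulAction.stabilizer H (1 : M)).relIndex H' = (MulAction.orbit H' (1 : M)).ncard := by
    rw [← MulAction.index_stabilizer]
    rfl
  have hmul1 := Subgroup.relIndex_mul_index
    (inf_le_right : MulAction.stabilizer H (1 : M) ⊓ H' ≤ H')
  have hmul2 := Subgroup.relIndex_mul_index
    (inf_le_left : MulAction.stabilizer H (1 : M) ⊓ H' ≤ MulAction.stabilizer H (1 : M))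
  rw [Subgroup.inf_relIndex_right] at hmul1
  have hdvd : Nat.card M ∣ (MulAction.stabilizer H (1 : M)).relIndex H' := by
    have h1 : Nat.card M ∣ (MulAction.stabilizer H (1 : M)).relIndex H' * H'.index := by
      rw [hmul1, ← hmul2, hT]
      exact dvd_mul_left _ _
    refine Nat.Coprime.dvd_of_dvd_mul_right ?_ h1
    rw [hm]
    exact Nat.Coprime.pow_left _ ((Nat.Prime.coprime_iff_not_dvd hp).2 hH'i)
  have hne : (MulAction.stabilizer H (1 : M)).relIndex H' ≠ 0 := by
    intro h0
    have h1 := Subgroup.index_ne_zero_of_finite (H := (P : Subgroup Ψ.range))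
    have h2 : H'.index = (P : Subgroup Ψ.range).index :=
      Subgroup.index_comap_of_surjective _ Ψ.rangeRestrict_surjective
    have h3 : (MulAction.orbit H' (1 : M)).ncard = 0 := by rw [← hT', h0]
    rw [Set.ncard_eq_zero (Set.toFinite _)] at h3
    have h4 : (1 : M) ∈ MulAction.orbit H' (1 : M) := MulAction.mem_orbit_self 1
    rw [h3] at h4
    exact h4
  have hsurj : ∀ v : M, ∃ h : H', δ (h : H) = v := by
    have h1 : Nat.card M ≤ (MulAction.orbit H' (1 : M)).ncard := by
      rw [← hT']
      exact Nat.le_of_dvd (Nat.pos_of_ne_zero hne) hdvd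
    have h2 : MulAction.orbit H' (1 : M) = Set.univ := by
      refine Set.eq_of_subset_of_ncard_le (Set.subset_univ _) ?_ (Set.toFinite _)
      rw [Set.ncard_univ]
      exact h1
    intro v
    have h3 : v ∈ MulAction.orbit H' (1 : M) := by rw [h2]; exact Set.mem_univ v
    obtain ⟨h, hh⟩ := h3
    refine ⟨h, ?_⟩
    rw [← hsm1]
    exact hh
  have hφ : ∀ k ∈ (⊤ : Subgroup H'), ∃ j : ℕ, ((φ.comp H'.subtype) k) ^ (p ^ j) = 1 := by
    rintro ⟨k, hk⟩ -
    obtain ⟨j, hj⟩ := P.isPGroup' ⟨Ψ.rangeRestrict k, hk⟩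
    refine ⟨j, ?_⟩
    have h1 : Ψ (k ^ p ^ j) = 1 := by
      rw [map_pow]
      have h2 := congrArg (fun z : (P : Subgroup Ψ.range) => ((z : Ψ.range) : Equiv.Perm M)) hj
      exact h2
    have h2 : ∀ v : M, φ (k ^ p ^ j) v * δ (k ^ p ^ j) = v := by
      intro v
      have h3 := congrArg (fun e : Equiv.Perm M => e v) h1
      exact h3
    have h3 : δ (k ^ p ^ j) = 1 := by
      have h4 := h2 1
      rw [map_one, one_mul] at h4
      exact h4
    show (φ k) ^ p ^ j = 1
    rw [← map_pow]
    refine MulEquiv.ext fun v => ?_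
    have h4 := h2 v
    rw [h3, mul_one] at h4
    rw [h4]
    rfl
  have hfin := count (H := H') hp hM r (hH.subgroup H') (φ.comp H'.subtype) ⊤ 1
    (by rw [Subgroup.index_top]; exact one_ne_zero) (by rw [Subgroup.index_top]) hφ
    (fun h => δ (h : H)) (fun h h' => hδ h h') hsurj t ht
  rw [one_mul] at hfin
  exact hfin

end P9700t
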