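import Mathlib
import Pool.Agent.Lib.P9700a.Rank
import Pool.Agent.Lib.P9700t.Defs

/-!
# Torsion-free commutative sections of finite special rank are linear

`E = P ⧸ Q.subgroupOf P` is a commutative group, torsion-free; write it additively. It has finite special rank (`E ≅ P.map (mk' Q)`), so at most `r` independent elements (a f.g. torsion-free commutative group generated by `r` elements is free of rank `≤ r`): `V = ℚ ⊗[ℤ] E` is a `ℚ`-vector space of finite dimension (a basis can be chosen among the `1 ⊗ x`; `r + 1` elements of `E` are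
linearly dependent over `ℤ`), and `E → V`, `x ↦ 1 ⊗ x`, is injective as `E` is torsion-free (or use the localization of the `ℤ`-module `E` at the non-zero integers, `LocalizedModule` / `IsLocalizedModule`). `G` acts on `E` by conjugation (`P`, `Q` normal), so on `V` (`LinearMap.baseChange`). Choose a basis of `V`, `n = finrank`, `F = ℚ`, `σ g` = the matrix of the action, `φ x` = the coordinates of `1 ⊗ x̄` for `x ∈ P` (and `0` otherwise).
-/

set_option autoImplicit false

namespace P9700t

open P9700a

namespace DvAAux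

open scoped TensorProduct nonZeroDivisors

/-- the `ℤ`-rank is at most `r` if every f.g. subgroup is generated by `r` elements -/
theorem rank_le_of_gen {M : Type*} [CommGroup M] {r : ℕ}
    (hr : ∀ K : Subgroup M, K.FG → ∃ s : Finset M, s.card ≤ r ∧ Subgroup.closure (s : Set M) = K) :
    Module.rank ℤ (Additive M) ≤ r := by
  classical
  refine rank_le ?_
  intro s hs
  obtain ⟨t, ht1, ht2⟩ := hr (Subgroup.closure ((s.image Additive.toMul : Finset M) : Set M))
    ⟨s.image Additive.toMul, rfl⟩
  let t' : Finset (Additive M) := t.image Additive.ofMul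
  have hin : ∀ y ∈ Subgroup.closure (t : Set M),
      Additive.ofMul y ∈ Submodule.span ℤ (t' : Set (Additive M)) := by
    intro y hy
    induction hy using Subgroup.closure_induction with
    | mem x hx =>
      apply Submodule.subset_span
      exact Finset.mem_coe.2 (Finset.mem_image_of_mem _ (Finset.mem_coe.1 hx))
    | one => exact Submodule.zero_mem _
    | mul x y _ _ h1 h2 =>
      rw [ofMul_mul]
      exact Submodule.add_mem _ h1 h2
    | inv x _ h1 =>
      rw [ofMul_inv]
      exact Submodule.neg_mem _ h1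
  have h3 := linearIndependent_le_span' (fun i : s => (i : Additive M)) hs
    (t' : Set (Additive M)) (by
      rintro _ ⟨⟨x, hx⟩, rfl⟩
      have h4 : Additive.toMul x ∈ Subgroup.closure (t : Set M) := by
        rw [ht2]
        apply Subgroup.subset_closure
        exact Finset.mem_coe.2 (Finset.mem_image_of_mem _ hx)
      exact hin _ h4)
  rw [Cardinal.mk_coe_finset] at h3
  have h5 : s.card ≤ t'.card := by
    have h6 : Fintype.card (t' : Set (Additive M)) = t'.card := by
      simp
    rw [h6] at h3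
    exact_mod_cast h3
  exact h5.trans (Finset.card_image_le.trans ht1)

/-- the conjugation action on a commutative normal subgroup, as `ℤ`-linear maps -/
noncomputable def act {G M : Type*} [Group G] [CommGroup M] (c : G →* MulAut M) :
    G →* Module.End ℤ (Additive M) where
  toFun g := (MonoidHom.toAdditive ((c g : MulAut M) : M →* M)).toIntLinearMap
  map_one' := by
    ext x
    simp
  map_mul' g h := by
    ext x
    simp

theorem act_apply {G M : Type*} [Group G] [CommGroup M] (c : G →* MulAut M) (g : G) (x : M) :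
    act c g (Additive.ofMul x) = Additive.ofMul (c g x) := rfl

/-- a torsion-free commutative group of finite rank with an action of `G` is linear -/
theorem exists_lin {G M : Type*} [Group G] [CommGroup M] (c : G →* MulAut M) {r : ℕ}
    (hr : ∀ K : Subgroup M, K.FG → ∃ s : Finset M, s.card ≤ r ∧ Subgroup.closure (s : Set M) = K)
    (ht : ∀ (x : M) (n : ℕ), 0 < n → x ^ n = 1 → x = 1) :
    ∃ (n : ℕ) (σ : G →* Matrix (Fin n) (Fin n) ℚ) (ψ : M → Fin n → ℚ),
      (∀ x y, ψ (x * y) = ψ x + ψ y) ∧ (∀ x, ψ x = 0 ↔ x = 1) ∧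
        ∀ g x, ψ (c g x) = (σ g).mulVec (ψ x) := by
  classical
  let E := Additive M
  let V := ℚ ⊗[ℤ] E
  let ι : E →ₗ[ℤ] V := TensorProduct.mk ℤ ℚ E 1
  have hloc : IsLocalizedModule (ℤ⁰) ι :=
    (isLocalizedModule_iff_isBaseChange (ℤ⁰) ℚ ι).mpr (TensorProduct.isBaseChange ℤ E ℚ)
  have hrk : Module.rank ℚ V ≤ r := by
    rw [IsLocalization.rank_eq ℚ (ℤ⁰) (N := V) le_rfl]
    rw [IsLocalizedModule.rank_eq (ℤ⁰) le_rfl ι]
    exact rank_le_of_gen hr
  have : Module.Finite ℚ V := by
    rw [← Module.rank_lt_aleph0_iff]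
    exact lt_of_le_of_lt hrk (Cardinal.natCast_lt_aleph0)
  let b := Module.finBasis ℚ V
  have hinj : ∀ e : E, ι e = 0 → e = 0 := by
    intro e he
    rw [IsLocalizedModule.eq_zero_iff (ℤ⁰) ι] at he
    obtain ⟨⟨z, hz⟩, he⟩ := he
    have hz0 : z ≠ 0 := nonZeroDivisors.ne_zero hz
    have he' : z • e = 0 := he
    have h1 : (z.natAbs : ℤ) • e = 0 := by
      rcases Int.natAbs_eq z with h | h
      · rw [← h]; exact he'
      · have h2 : (z.natAbs : ℤ) = - z := by omega
        rw [h2, neg_smul, he', neg_zero]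
    rw [natCast_zsmul] at h1
    have h2 : Additive.toMul e ^ z.natAbs = 1 := h1
    exact ht (Additive.toMul e) z.natAbs (Int.natAbs_pos.2 hz0) h2
  refine ⟨Module.finrank ℚ V,
    ((LinearMap.toMatrixAlgEquiv b : Module.End ℚ V ≃ₐ[ℚ] _) : Module.End ℚ V →* _).comp
      (((Module.End.baseChangeHom ℤ ℚ E : Module.End ℤ E →ₐ[ℤ] _) : Module.End ℤ E →* _).comp
        (act c)),
    fun x => b.equivFun (ι (Additive.ofMul x)), ?_, ?_, ?_⟩
  · intro x y
    show b.equivFun (ι (Additive.ofMul (x * y))) =
      b.equivFun (ι (Additive.ofMul x)) + b.equivFun (ι (Additive.ofMul y))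
    rw [ofMul_mul, map_add, map_add]
  · intro x
    show b.equivFun (ι (Additive.ofMul x)) = 0 ↔ x = 1
    constructor
    · intro h
      have h1 : ι (Additive.ofMul x) = 0 := by
        apply b.equivFun.injective
        rw [h, map_zero]
      have h2 := hinj _ h1
      exact h2
    · intro h
      rw [h, ofMul_one, map_zero, map_zero]
  · intro g x
    show b.equivFun (ι (Additive.ofMul (c g x))) =
      (LinearMap.toMatrixAlgEquiv b (Module.End.baseChangeHom ℤ ℚ E (act c g))).mulVec
        (b.equivFun (ι (Additive.ofMul x)))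
    have h1 : ι (Additive.ofMul (c g x)) =
        (Module.End.baseChangeHom ℤ ℚ E (act c g)) (ι (Additive.ofMul x)) := by
      rfl
    rw [h1]
    exact (LinearMap.toMatrix_mulVec_repr b b (Module.End.baseChangeHom ℤ ℚ E (act c g))
      (ι (Additive.ofMul x))).symm

end DvAAux

open DvAAux

theorem linstep_of_tf {G : Type*} [Group G] (P Q : Subgroup G) [P.Normal] [Q.Normal] (hQP : Q ≤ P)
    (hc : ∀ x ∈ P, ∀ y ∈ P, x * y * x⁻¹ * y⁻¹ ∈ Q)
    (ht : ∀ x ∈ P, ∀ n : ℕ, 0 < n → x ^ n ∈ Q → x ∈ Q) (hf : FRs P Q) : LinStep P Q := by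
  classical
  let M : Subgroup (G ⧸ Q) := P.map (QuotientGroup.mk' Q)
  have : M.Normal := Subgroup.Normal.map inferInstance _ (QuotientGroup.mk'_surjective Q)
  have hcomm : ∀ x y : M, x * y = y * x := by
    rintro ⟨_, x, hx, rfl⟩ ⟨_, y, hy, rfl⟩
    apply Subtype.ext
    have h1 : QuotientGroup.mk' Q (x * y * x⁻¹ * y⁻¹) = 1 :=
      (QuotientGroup.eq_one_iff _).2 (hc x hx y hy)
    simp only [map_mul, map_inv] at h1
    have h2 : QuotientGroup.mk' Q x * QuotientGroup.mk' Q y =
        QuotientGroup.mk' Q y * QuotientGroup.mk' Q x := by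
      have := h1
      rw [mul_inv_eq_one, mul_inv_eq_iff_eq_mul] at this
      exact this
    exact h2
  let _ : CommGroup M := { (inferInstance : Group M) with mul_comm := hcomm }
  have htM : ∀ (x : M) (n : ℕ), 0 < n → x ^ n = 1 → x = 1 := by
    rintro ⟨_, x, hx, rfl⟩ n hn h
    have h1 : QuotientGroup.mk' Q x ^ n = 1 := congrArg Subtype.val h
    rw [← map_pow] at h1
    have h2 : x ^ n ∈ Q := (QuotientGroup.eq_one_iff _).1 h1
    have h3 := ht x hx n hn h2
    apply Subtype.ext
    exact (QuotientGroup.eq_one_iff _).2 h3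
  obtain ⟨r, hr⟩ := hf
  obtain ⟨n, σ, ψ, h1, h2, h3⟩ := exists_lin
    ((MulAut.conjNormal (H := M)).comp (QuotientGroup.mk' Q)) hr htM
  have hm : ∀ x ∈ P, QuotientGroup.mk' Q x ∈ M := fun x hx => ⟨x, hx, rfl⟩
  refine ⟨ℚ, inferInstance, inferInstance, n, σ,
    fun x => if hx : x ∈ P then ψ ⟨QuotientGroup.mk' Q x, hm x hx⟩ else 0, ?_, ?_, ?_⟩
  · intro x hx y hy
    simp only [dif_pos hx, dif_pos hy, dif_pos (P.mul_mem hx hy)]
    rw [← h1]
    rfl
  · intro x hx
    simp only [dif_pos hx]
    rw [h2]
    constructor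
    · intro h
      exact (QuotientGroup.eq_one_iff _).1 (congrArg Subtype.val h)
    · intro h
      apply Subtype.ext
      exact (QuotientGroup.eq_one_iff _).2 h
  · intro g x hx
    have hx' : g * x * g⁻¹ ∈ P := (inferInstance : P.Normal).conj_mem x hx g
    simp only [dif_pos hx, dif_pos hx']
    rw [← h3]
    congr 1

end P9700t
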