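import Mathlib
import Pool.Agent.Lib.P9700a.Rank
import Pool.Agent.Lib.P9700b.MainV
import Pool.Agent.Lib.P9700t.Defs

/-!
# A non-periodic soluble-by-finite normal section contains a torsion-free commutative normal section

`π = QuotientGroup.mk' Y`, `X' = X.map π` normal in `G ⧸ Y`, `VS X'`: there is a soluble subgroup of finite index in `X'`; its normal core `S` in `X'` is soluble, normal in `X'`, of finite index `k`. We need one that is normal in `G ⧸ Y`: the subgroup `S'` generated by the elements `x ^ (k!)`, `x ∈ X'`, is normal in `G ⧸ Y`, contained in `S` (every `x ^ k ∈ S`), so soluble, and every element of `X'` has a positive power in it. (Its index need not be finite, this does not matter.)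
`D_j` = the preimage in `G` of the (image of the) `j`-th derived subgroup of `S'`: normal in `G` (characteristic subgroups of the normal subgroup `S'`), `D_0 ≥ D_1 ≥ ... ≥ D_l = Y`, `D_j ≤ X` (note `Y ≤ X`), commutators of elements of `D_j` lie in `D_(j+1)`. If for every `j < l` every element of `D_j` had a positive power in `D_(j+1)`, then every `x ∈ X` would have a positive power in `Y`, a contradiction. Choose `j` such that some `z ∈ D_j` has no positive power in `D_(j+1)`.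
`D = D_j`, `E = {x ∈ D_j : ∃ n > 0, x ^ n ∈ D_(j+1)}`: a subgroup because `D_j / D_(j+1)` is commutative, normal in `G`, contains `D_(j+1) ≥ Y`, isolated in `D`, `z ∉ E`.
-/

set_option autoImplicit false

namespace P9700t

open P9700a

namespace DvBAux

theorem mem_iff {G : Type*} [Group G] (Q : Subgroup G) [Q.Normal] (x : G) :
    x ∈ Q ↔ QuotientGroup.mk' Q x = 1 := by
  rw [← MonoidHom.mem_ker, QuotientGroup.ker_mk']

/-- the elements of `P` with a positive power in `Q` -/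
def E {G : Type*} [Group G] (P Q : Subgroup G) [Q.Normal]
    (hc : ∀ x ∈ P, ∀ y ∈ P, x * y * x⁻¹ * y⁻¹ ∈ Q) : Subgroup G where
  carrier := {x | x ∈ P ∧ ∃ n : ℕ, 0 < n ∧ x ^ n ∈ Q}
  one_mem' := ⟨P.one_mem, 1, Nat.one_pos, by rw [one_pow]; exact Q.one_mem⟩
  mul_mem' := by
    rintro x y ⟨hx, n, hn, hxn⟩ ⟨hy, m, hm, hym⟩
    refine ⟨P.mul_mem hx hy, n * m, Nat.mul_pos hn hm, ?_⟩
    rw [mem_iff] at hxn hym ⊢
    have hcomm : Commute (QuotientGroup.mk' Q x) (QuotientGroup.mk' Q y) := by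
      have h := hc x hx y hy
      rw [mem_iff, map_mul, map_mul, map_mul, map_inv, map_inv, mul_inv_eq_one,
        mul_inv_eq_iff_eq_mul] at h
      exact h
    rw [map_pow] at hxn hym
    rw [map_pow, map_mul, hcomm.mul_pow, pow_mul, hxn, one_pow, mul_comm n m, pow_mul, hym,
      one_pow, one_mul]
  inv_mem' := by
    rintro x ⟨hx, n, hn, hxn⟩
    exact ⟨P.inv_mem hx, n, hn, by rw [inv_pow]; exact Q.inv_mem hxn⟩

theorem aux {G : Type*} [Group G] (P Q : Subgroup G) [P.Normal] [Q.Normal] (hQP : Q ≤ P)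
    (hc : ∀ x ∈ P, ∀ y ∈ P, x * y * x⁻¹ * y⁻¹ ∈ Q) (z : G) (hz : z ∈ P)
    (hz' : ∀ n : ℕ, 0 < n → z ^ n ∉ Q) :
    ∃ E : Subgroup G, E.Normal ∧ Q ≤ E ∧ E ≤ P ∧
      (∀ x ∈ P, ∀ n : ℕ, 0 < n → x ^ n ∈ E → x ∈ E) ∧ ¬ P ≤ E := by
  refine ⟨E P Q hc, ?_, ?_, ?_, ?_, ?_⟩
  · refine ⟨?_⟩
    rintro x ⟨hx, n, hn, hxn⟩ g
    refine ⟨Subgroup.Normal.conj_mem inferInstance x hx g, n, hn, ?_⟩
    rw [conj_pow]
    exact Subgroup.Normal.conj_mem inferInstance _ hxn g
  · intro x hx
    exact ⟨hQP hx, 1, Nat.one_pos, by rwa [pow_one]⟩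
  · rintro x ⟨hx, -⟩
    exact hx
  · rintro x hx n hn ⟨-, m, hm, h⟩
    exact ⟨hx, n * m, Nat.mul_pos hn hm, by rwa [pow_mul]⟩
  · intro h
    obtain ⟨-, n, hn, h'⟩ := h hz
    exact hz' n hn h'

/-- the terms of the derived series of `Y`, as subgroups of `G` -/
def R {G : Type*} [Group G] (Y : Subgroup G) (i : ℕ) : Subgroup G :=
  (derivedSeries Y i).map Y.subtype

theorem R_zero {G : Type*} [Group G] (Y : Subgroup G) : R Y 0 = Y := by
  simp only [R, derivedSeries_zero]
  rw [← MonoidHom.range_eq_map, Subgroup.range_subtype]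

theorem R_succ {G : Type*} [Group G] (Y : Subgroup G) (i : ℕ) :
    R Y (i + 1) = ⁅R Y i, R Y i⁆ := by
  simp only [R, derivedSeries_succ]
  exact Subgroup.map_commutator _ _ _

theorem R_normal {G : Type*} [Group G] (Y : Subgroup G) [hY : Y.Normal] (i : ℕ) :
    (R Y i).Normal := by
  induction i with
  | zero => rw [R_zero]; exact hY
  | succ n ih =>
    rw [R_succ]
    exact Subgroup.commutator_normal _ _

theorem R_le {G : Type*} [Group G] (Y : Subgroup G) (i : ℕ) : R Y i ≤ Y :=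
  Subgroup.map_subtype_le _

theorem R_succ_le {G : Type*} [Group G] (Y : Subgroup G) (i : ℕ) : R Y (i + 1) ≤ R Y i :=
  Subgroup.map_mono (derivedSeries_antitone Y (Nat.le_succ i))

/-- a normal soluble subgroup containing a positive power of every element of `X` -/
theorem exists_soluble {Q : Type*} [Group Q] (X : Subgroup Q) [X.Normal] (h : VS X) :
    ∃ (S : Subgroup Q) (l : ℕ), S.Normal ∧ S ≤ X ∧ R S l = ⊥ ∧
      ∀ x ∈ X, ∃ n : ℕ, 0 < n ∧ x ^ n ∈ S := by
  obtain ⟨S0, h0, hs⟩ := h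
  have hf : S0.normalCore.FiniteIndex := inferInstance
  set k := S0.normalCore.index with hk
  have hk0 : 0 < k := Nat.pos_of_ne_zero hf.index_ne_zero
  set S : Subgroup Q := Subgroup.closure {y | ∃ x ∈ X, x ^ k = y} with hS
  have hle : S ≤ S0.map X.subtype := by
    rw [hS, Subgroup.closure_le]
    rintro y ⟨x, hx, rfl⟩
    refine ⟨(⟨x, hx⟩ : X) ^ k, ?_, by simp⟩
    exact S0.normalCore_le (Subgroup.pow_index_mem S0.normalCore _)
  have hsol : Group.IsSolvable S := by
    have h1 : Group.IsSolvable (S0.map X.subtype) :=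
      Group.isSolvable_of_surjective (f := X.subtype.subgroupMap S0)
        (MonoidHom.subgroupMap_surjective X.subtype S0)
    exact Group.isSolvable_of_isSolvable_injective (f := Subgroup.inclusion hle)
      (Subgroup.inclusion_injective hle)
  obtain ⟨l, hl⟩ := hsol.solvable
  refine ⟨S, l, ?_, ?_, ?_, ?_⟩
  · refine ⟨?_⟩
    intro n hn g
    have h1 : S ≤ S.comap (MulAut.conj g).toMonoidHom := by
      conv_lhs => rw [hS]
      rw [Subgroup.closure_le]
      rintro y ⟨x, hx, rfl⟩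
      change g * x ^ k * g⁻¹ ∈ S
      rw [← conj_pow]
      exact Subgroup.subset_closure ⟨g * x * g⁻¹, Subgroup.Normal.conj_mem inferInstance x hx g,
        rfl⟩
    exact h1 hn
  · refine hle.trans (Subgroup.map_subtype_le _)
  · rw [R, hl, Subgroup.map_bot]
  · intro x hx
    exact ⟨k, hk0, Subgroup.subset_closure ⟨x, hx, rfl⟩⟩

end DvBAux

open DvBAux

theorem exists_section {G : Type*} [Group G] (X Y : Subgroup G) [X.Normal] [Y.Normal] (hYX : Y ≤ X)
    (hV : VSs X Y) (x : G) (hx : x ∈ X) (hxn : ∀ n : ℕ, 0 < n → x ^ n ∉ Y) :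
    ∃ D E : Subgroup G, D.Normal ∧ E.Normal ∧ Y ≤ E ∧ E ≤ D ∧ D ≤ X ∧
      (∀ x ∈ D, ∀ y ∈ D, x * y * x⁻¹ * y⁻¹ ∈ E) ∧
      (∀ x ∈ D, ∀ n : ℕ, 0 < n → x ^ n ∈ E → x ∈ E) ∧ ¬ D ≤ E := by
  have hXn : (X.map (QuotientGroup.mk' Y)).Normal :=
    Subgroup.Normal.map inferInstance _ (QuotientGroup.mk'_surjective Y)
  obtain ⟨S, l, hSn, hSX, hl, hpow⟩ := exists_soluble (X.map (QuotientGroup.mk' Y)) hV
  set D : ℕ → Subgroup G := fun j => (R S j).comap (QuotientGroup.mk' Y) with hD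
  have hDn : ∀ j, (D j).Normal := fun j => by
    have := R_normal S j
    exact Subgroup.Normal.comap this _
  have hDl : D l = Y := by
    simp only [hD, hl]
    rw [MonoidHom.comap_bot, QuotientGroup.ker_mk']
  have hDs : ∀ j, D (j + 1) ≤ D j := fun j => Subgroup.comap_mono (R_succ_le S j)
  have hYD : ∀ j, Y ≤ D j := by
    intro j y hy
    change QuotientGroup.mk' Y y ∈ R S j
    rw [(mem_iff Y y).1 hy]
    exact Subgroup.one_mem _
  have hDX : ∀ j, D j ≤ X := by
    intro j y hy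
    have h1 : QuotientGroup.mk' Y y ∈ X.map (QuotientGroup.mk' Y) := hSX (R_le S j hy)
    obtain ⟨w, hw, hwy⟩ := h1
    have h2 : w⁻¹ * y ∈ Y := by
      rw [mem_iff, map_mul, map_inv, hwy, inv_mul_cancel]
    have h3 : y = w * (w⁻¹ * y) := by group
    rw [h3]
    exact X.mul_mem hw (hYX h2)
  have hDc : ∀ j, ∀ x ∈ D j, ∀ y ∈ D j, x * y * x⁻¹ * y⁻¹ ∈ D (j + 1) := by
    intro j x hx y hy
    change QuotientGroup.mk' Y (x * y * x⁻¹ * y⁻¹) ∈ R S (j + 1)
    rw [R_succ, map_mul, map_mul, map_mul, map_inv, map_inv]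
    exact Subgroup.commutator_mem_commutator hx hy
  have hex : ∃ j, ∃ z ∈ D j, ∀ n : ℕ, 0 < n → z ^ n ∉ D (j + 1) := by
    by_contra hcon
    push Not at hcon
    have key : ∀ j, ∃ n : ℕ, 0 < n ∧ x ^ n ∈ D j := by
      intro j
      induction j with
      | zero =>
        obtain ⟨n, hn, h⟩ := hpow (QuotientGroup.mk' Y x) ⟨x, hx, rfl⟩
        refine ⟨n, hn, ?_⟩
        change QuotientGroup.mk' Y (x ^ n) ∈ R S 0
        rw [R_zero, map_pow]
        exact h
      | succ j ih =>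
        obtain ⟨n, hn, h⟩ := ih
        obtain ⟨m, hm, h'⟩ := hcon j _ h
        exact ⟨n * m, Nat.mul_pos hn hm, by rwa [pow_mul]⟩
    obtain ⟨n, hn, h⟩ := key l
    rw [hDl] at h
    exact hxn n hn h
  obtain ⟨j, z, hz, hz'⟩ := hex
  have hn1 := hDn j
  have hn2 := hDn (j + 1)
  obtain ⟨E, e1, e2, e3, e4, e5⟩ := aux (D j) (D (j + 1)) (hDs j) (hDc j) z hz hz'
  exact ⟨D j, E, hn1, e1, (hYD (j + 1)).trans e2, e3, hDX j,
    fun x hx y hy => e2 (hDc j x hx y hy), e4, e5⟩

end P9700t
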