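import Mathlib
import Pool.Agent.Lib.P9700a.Rank
import Pool.Agent.Lib.P9700a.Cover
import Pool.Agent.Lib.P9700b.CrossV
import Pool.Agent.Lib.P9700c.Plat
import Pool.Agent.Lib.P9700r.FinZ
import Pool.Agent.Lib.P9700t.Defs

/-!
# Linear sections of a product of two groups of finite special rank

* `linstep_closed`: base change of a `LinStep` to an algebraically closed field `E` (`AlgebraicClosure F`, entries of the matrices mapped by `algebraMap`): `σ' : G →* Module.End E (Fin n → E)`, `φ' x = algebraMap ∘ φ x`.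
* `lin_fr`: `HH A B P` (`P9700a/Cover.lean`, `dl`, `dl_mul`, `dl_surj`), `FR (HH A B P)`; `α h = σ' (a)`, `δ h = φ' (a b⁻¹)`; `δ (h h') = α h (δ h') + δ h` (`dl_mul`, `P` normal). `U` = the additive subgroup `φ' (P)`, the image of `δ`. `platonov` for `σ'` restricted to `A` gives `A1` of finite index in `A` with `TF (σ' '' A1)`; `H0` = its preimage. `cross_v` gives `FR (Multiplicative U)`,
 and `P.map (QuotientGroup.mk' Q)` embeds in `Multiplicative U` (`φ'` is additive on `P` and vanishes exactly on `Q`). Copy from `P9700r/FinZ.lean`.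
-/

set_option autoImplicit false

namespace P9700t

open P9700a P9700a.CoverAux

theorem linstep_closed {G : Type*} [Group G] {P Q : Subgroup G} (h : LinStep P Q) :
    ∃ (E : Type) (_ : Field E) (_ : IsAlgClosed E) (_ : CharZero E) (n : ℕ)
      (σ : G →* Module.End E (Fin n → E)) (φ : G → Fin n → E),
      (∀ x ∈ P, ∀ y ∈ P, φ (x * y) = φ x + φ y) ∧ (∀ x ∈ P, φ x = 0 ↔ x ∈ Q) ∧
        ∀ g : G, ∀ x ∈ P, φ (g * x * g⁻¹) = σ g (φ x) := by
  obtain ⟨F, hF, hF0, n, σ, φ, h1, h2, h3⟩ := h
  have hinj : Function.Injective (algebraMap F (AlgebraicClosure F)) :=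
    (algebraMap F (AlgebraicClosure F)).injective
  refine ⟨AlgebraicClosure F, inferInstance, inferInstance, charZero_of_injective_algebraMap hinj,
    n, (Matrix.toLinAlgEquiv' : Matrix (Fin n) (Fin n) (AlgebraicClosure F) ≃ₐ[AlgebraicClosure F]
      Module.End (AlgebraicClosure F) (Fin n → AlgebraicClosure F)).toRingEquiv.toMonoidHom.comp
      ((RingHom.mapMatrix (algebraMap F (AlgebraicClosure F))).toMonoidHom.comp σ),
    fun x i => algebraMap F (AlgebraicClosure F) (φ x i), ?_, ?_, ?_⟩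
  · intro x hx y hy
    funext i
    show algebraMap F (AlgebraicClosure F) (φ (x * y) i) = algebraMap F (AlgebraicClosure F) (φ x i)
      + algebraMap F (AlgebraicClosure F) (φ y i)
    rw [h1 x hx y hy, Pi.add_apply, map_add]
  · intro x hx
    rw [← h2 x hx]
    constructor
    · intro h
      funext i
      have hi := congrFun h i
      exact (map_eq_zero_iff _ hinj).1 hi
    · intro h
      funext i
      show algebraMap F (AlgebraicClosure F) (φ x i) = 0
      rw [h, Pi.zero_apply, map_zero]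
  · intro g x hx
    funext i
    show algebraMap F (AlgebraicClosure F) (φ (g * x * g⁻¹) i) =
      ((σ g).map (algebraMap F (AlgebraicClosure F))).mulVec
        (fun i => algebraMap F (AlgebraicClosure F) (φ x i)) i
    rw [h3 g x hx, RingHom.map_mulVec]
    rfl

theorem lin_fr {G : Type*} [Group G] (A B P Q : Subgroup G) [P.Normal] [Q.Normal] (hA : FR A)
    (hB : FR B) (hAB : ∀ g : G, ∃ a ∈ A, ∃ b ∈ B, g = a * b) (h : LinStep P Q) : FRs P Q := by
  obtain ⟨K, hK, hK1, hK2, n, σ, ι, h1, h2, h3⟩ := linstep_closed h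
  have hZ : P.Normal := inferInstance
  classical
  -- the triangularizable subgroup of finite index
  obtain ⟨A0, hA0, hfA, hTA⟩ : ∃ A0 : Subgroup G, A0 ≤ A ∧ A0.relIndex A ≠ 0 ∧
      TF (σ '' (A0 : Set G)) := by
    obtain ⟨Y, hY, hT⟩ := platonov hA (σ.comp A.subtype)
    refine ⟨Y.map A.subtype, ?_, ?_, ?_⟩
    · rintro _ ⟨z, hz, rfl⟩
      exact z.2
    · have e2 : (Y.map A.subtype).subgroupOf A = Y :=
        Subgroup.comap_map_eq_self_of_injective A.subtype_injective _
      show ((Y.map A.subtype).subgroupOf A).index ≠ 0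
      rw [e2]; exact hY.index_ne_zero
    · have e3 : σ '' ((Y.map A.subtype : Subgroup G) : Set G) =
          (σ.comp A.subtype) '' (Y : Set A) := by
        rw [Subgroup.coe_map, ← Set.image_comp]
        rfl
      rw [e3]; exact hT
  have hone : ι (1 : G) = 0 := by
    have := h1 1 P.one_mem 1 P.one_mem
    rw [mul_one] at this
    exact left_eq_add.mp this
  have hinv : ∀ u ∈ P, ι u⁻¹ = -(ι u) := by
    intro u hu
    have := h1 u hu u⁻¹ (P.inv_mem hu)
    rw [mul_inv_cancel, hone] at this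
    exact (neg_eq_of_add_eq_zero_right this.symm).symm
  let U' : AddSubgroup (Fin n → K) :=
    { carrier := {φ | ∃ u ∈ P, ι u = φ}
      zero_mem' := ⟨1, P.one_mem, hone⟩
      add_mem' := by
        rintro _ _ ⟨u, hu, rfl⟩ ⟨u', hu', rfl⟩
        exact ⟨u * u', P.mul_mem hu hu', h1 u hu u' hu'⟩
      neg_mem' := by
        rintro _ ⟨u, hu, rfl⟩
        exact ⟨u⁻¹, P.inv_mem hu, hinv u hu⟩ }
  let H : Subgroup (A × B) :=
    { carrier := {p | (p.1 : G) * (p.2 : G)⁻¹ ∈ P}
      one_mem' := by simp [P.one_mem]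
      mul_mem' := by
        rintro ⟨a, b⟩ ⟨a', b'⟩ h h'
        simp only [Set.mem_ofPred_eq, Prod.fst_mul, Prod.snd_mul, Subgroup.coe_mul, mul_inv_rev] at *
        have : (a : G) * a' * ((b' : G)⁻¹ * (b : G)⁻¹) =
            ((a : G) * (a' * (b' : G)⁻¹) * (a : G)⁻¹) * (a * (b : G)⁻¹) := by group
        rw [this]
        exact P.mul_mem (hZ.conj_mem _ h' _) h
      inv_mem' := by
        rintro ⟨a, b⟩ h
        simp only [Set.mem_ofPred_eq, Prod.fst_inv, Prod.snd_inv, Subgroup.coe_inv, inv_inv] at *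
        have : (a : G)⁻¹ * b = (a : G)⁻¹ * ((a : G) * (b : G)⁻¹)⁻¹ * ((a : G)⁻¹)⁻¹ := by group
        rw [this]
        exact hZ.conj_mem _ (P.inv_mem h) _ }
  have hHmem : ∀ p : H, ((p : A × B).1 : G) * ((p : A × B).2 : G)⁻¹ ∈ P := fun p => p.2
  have hFH : FR H := FR.subgroup H (FR.prod hA hB)
  let pA : H →* G := A.subtype.comp ((MonoidHom.fst A B).comp H.subtype)
  let H0 : Subgroup H := A0.comap pA
  have hH0 : H0.FiniteIndex := by
    refine ⟨?_⟩
    show (A0.comap pA).index ≠ 0
    rw [Subgroup.index_comap]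
    intro h
    refine hfA (Subgroup.relIndex_eq_zero_of_le_right ?_ h)
    rintro _ ⟨h, rfl⟩
    exact ((h : A × B).1).2
  let α : H →* Module.End K (Fin n → K) := σ.comp pA
  have hα : ∀ h ∈ H0, α h ∈ σ '' (A0 : Set G) := by
    intro h hh
    exact ⟨pA h, hh, rfl⟩
  let δ : H → (Fin n → K) := fun h => ι (((h : A × B).1 : G) * ((h : A × B).2 : G)⁻¹)
  have hδ : ∀ h h' : H, δ (h * h') = α h (δ h') + δ h := by
    intro h h'
    have e1 : (((h * h' : H) : A × B).1 : G) * (((h * h' : H) : A × B).2 : G)⁻¹ =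
        (((h : A × B).1 : G) * (((h' : A × B).1 : G) * ((h' : A × B).2 : G)⁻¹) *
          ((h : A × B).1 : G)⁻¹) * (((h : A × B).1 : G) * ((h : A × B).2 : G)⁻¹) := by
      simp only [Subgroup.coe_mul, Prod.fst_mul, Prod.snd_mul]
      group
    show ι _ = _
    rw [e1, h1 _ (hZ.conj_mem _ (hHmem h') _) _ (hHmem h), h3 _ _ (hHmem h')]
    rfl
  have hU' : ∀ w, w ∈ U' ↔ ∃ h, δ h = w := by
    intro w
    constructor
    · rintro ⟨u, hu, rfl⟩
      obtain ⟨a, ha, b, hb, rfl⟩ := hAB u
      refine ⟨⟨⟨⟨a, ha⟩, ⟨b⁻¹, B.inv_mem hb⟩⟩, ?_⟩, ?_⟩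
      · show a * (b⁻¹)⁻¹ ∈ P
        rwa [inv_inv]
      · show ι (a * (b⁻¹)⁻¹) = _
        rw [inv_inv]
    · rintro ⟨h, rfl⟩
      exact ⟨_, hHmem h, rfl⟩
  have hF := cross_v hFH α H0 _ hTA hα δ hδ U' hU'
  let τ : P →* Multiplicative U' :=
    { toFun := fun u => Multiplicative.ofAdd ⟨ι (u : G), u, u.2, rfl⟩
      map_one' := by
        rw [← ofAdd_zero]
        congr 1
        exact Subtype.ext hone
      map_mul' := by
        intro u u'
        rw [← ofAdd_add]
        congr 1
        exact Subtype.ext (h1 u u.2 u' u'.2) }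
  have hker : ∀ x : P, τ x = 1 → (QuotientGroup.mk' Q).subgroupMap P x = 1 := by
    intro x hx
    have h' : ι (x : G) = 0 :=
      congrArg (fun z => ((Multiplicative.toAdd z : U') : Fin n → K)) hx
    apply Subtype.ext
    show QuotientGroup.mk' Q (x : G) = 1
    rw [QuotientGroup.mk'_apply, QuotientGroup.eq_one_iff]
    exact (h2 x x.2).1 h'
  have hsurj : Function.Surjective (QuotientGroup.lift τ.ker
      ((QuotientGroup.mk' Q).subgroupMap P) hker) := by
    intro y
    obtain ⟨x, rfl⟩ := MonoidHom.subgroupMap_surjective (QuotientGroup.mk' Q) P y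
    exact ⟨QuotientGroup.mk x, rfl⟩
  exact FR.of_surjective _ hsurj
    (FR.of_injective (QuotientGroup.kerLift τ) (QuotientGroup.kerLift_injective τ) hF)

end P9700t
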