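import Mathlib
import Pool.Agent.Lib.P9700a.Rank
import Pool.Agent.Lib.P9700a.Cover
import Pool.Agent.Lib.P9700b.PolyZ
import Pool.Agent.Lib.P9700b.CrossV
import Pool.Agent.Lib.P9700c.Plat
import Pool.Agent.Lib.P9700t.Defs
import Pool.Agent.Lib.P9700t.LinA

/-!
# A non-trivial linear section is a proper step for the chain `HH A B`

`linstep_closed` gives `E`, `σ`, `φ`. `W = span_E (φ P)`, not `⊥` (there is `x ∈ P`, `x ∉ Q`), invariant under all `σ g` (`P` normal). `platonov` for `A → End`: `A1` of finite index in `A`, `TF (σ '' A1)`. So there is a submodule `W' < W`, invariant under `σ a`, `a ∈ A1`, with `W / W'` one-dimensional, equivalently: a linear functional `f` on `W` (or on the whole space, restricted), `f ≠ 0` on `W`,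
and `χ : A1 → E` with `f (σ a w) = χ a * f w` for `w ∈ W` (take the first step `X → Y` of the chain `TF`... more precisely intersect the chain with `W`: the last step `X ⊓ W < Y ⊓ W = W`; the elements of `A1` act on `W / (X ⊓ W)` by scalars, take any functional `f` on `W` vanishing on `X ⊓ W`, `f ≠ 0`). `χ` is a homomorphism to `E^*`, its image `T` has finite rank (`FR`).
Suppose `PC (HH A B P) (HH A B Q)`. `δ h = φ (a b⁻¹)`, `δ (h h') = σ a (δ h') + δ h`, `δ h = 0` iff `h ∈ HH A B Q`. `H1 = {h : a ∈ A1}`, of finite index; on `H1` put `d h = f (δ h)`, `d (h h') = χ a * d h' + d h`.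
 If `h ∈ H1`, `χ a = 1`: `d (h ^ n) = n d h`, and `h ^ n ∈ HH A B Q` for some `n > 0`: `d h = 0`. If `χ` is trivial on the first components of `H1` then `d = 0` on `H1`, put `c = 0`. Otherwise choose `h0 ∈ H1` with `χ a0 ≠ 1`, `c = d h0 / (χ a0 - 1)`: the commutator of `h` and `h0` has `χ = 1`, so `d = 0` there, which gives `(χ a - 1) d h0 = (χ a0 - 1) d h`: `d h = (χ a - 1) c` for all `h ∈ H1`.
 `HH A B P` is a finite union of right cosets `H1 h_i`: `f (δ (h' h_i)) = χ a' * f (δ h_i) + d h' = χ a' (f (δ h_i) + c) - c`. As `δ` is onto `φ P` (`dl_surj`), for every `x ∈ P`: `f (φ x) + c = χ (a') * c_i` with `c_i` from a finite set. Choose `x ∈ P` with `f (φ x) ≠ 0` (exists since `φ P` spans `W`); `f (φ (x ^ n)) = n f (φ x)`. So the polynomial `f (φ x) X + c` takes at all natural numbers values in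
 finitely many cosets `c_i T`: `poly_const_fin` says it is constant: contradiction.
-/

set_option autoImplicit false

namespace P9700t

open P9700a P9700a.CoverAux

theorem lin_drop {G : Type*} [Group G] (A B P Q : Subgroup G) [P.Normal] [Q.Normal] (hA : FR A)
    (hB : FR B) (hAB : ∀ g : G, ∃ a ∈ A, ∃ b ∈ B, g = a * b) (h : LinStep P Q)
    (hPQ : ¬ P ≤ Q) : ¬ PC (HH A B P) (HH A B Q) := by
  classical
  intro hPC
  obtain ⟨E, _, _, _, n, σ, φ, h1, h2, h3⟩ := linstep_closed h
  obtain ⟨Y, hY, hT⟩ := platonov hA (σ.comp A.subtype)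
  obtain ⟨y0, hy0P, hy0Q⟩ := SetLike.not_le_iff_exists.1 hPQ
  have hy0 : φ y0 ≠ 0 := fun e => hy0Q ((h2 y0 hy0P).1 e)
  set S : Set (Module.End E (Fin n → E)) := (σ.comp A.subtype) '' (Y : Set A) with hS
  set W : Submodule E (Fin n → E) := Submodule.span E (φ '' (P : Set G)) with hW
  have hφW : ∀ x ∈ P, φ x ∈ W := fun x hx => Submodule.subset_span ⟨x, hx, rfl⟩
  have hWne : W ≠ ⊥ := by
    intro e
    apply hy0
    have := hφW y0 hy0P
    rw [e, Submodule.mem_bot] at this
    exact this
  have hchain : ∀ Z : Submodule E (Fin n → E), Relation.ReflTransGen (Stp S) ⊥ Z → W ≤ Z →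
      ∃ X Y' : Submodule E (Fin n → E), Stp S X Y' ∧ W ≤ Y' ∧ ¬ W ≤ X := by
    intro Z hZ
    induction hZ with
    | refl => exact fun hle => absurd (le_bot_iff.1 hle) hWne
    | @tail b c hb hbc ih =>
      intro hle
      by_cases hb' : W ≤ b
      · exact ih hb'
      · exact ⟨b, c, hbc, hle, hb'⟩
  obtain ⟨X, Y', hst, hWY, hWX⟩ := hchain ⊤ hT le_top
  obtain ⟨x0, hx0P, hx0X⟩ : ∃ x0 ∈ P, φ x0 ∉ X := by
    by_contra hcon
    push Not at hcon
    apply hWX
    rw [hW, Submodule.span_le]
    rintro _ ⟨x, hx, rfl⟩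
    exact hcon x hx
  obtain ⟨f, hf0, hfX⟩ := Submodule.exists_dual_map_eq_bot_of_notMem hx0X inferInstance
  have hfX' : ∀ w ∈ X, f w = 0 := by
    intro w hw
    have : f w ∈ X.map f := Submodule.mem_map_of_mem hw
    rw [hfX, Submodule.mem_bot] at this
    exact this
  -- the scalars
  have hsc : ∀ a : A, a ∈ Y → ∃ c : E, ∀ w ∈ W, f (σ (a : G) w) = c * f w := by
    intro a ha
    obtain ⟨c, hc⟩ := hst.2 (σ (a : G)) ⟨a, ha, rfl⟩
    refine ⟨c, fun w hw => ?_⟩
    have := hfX' _ (hc w (hWY hw))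
    rw [map_sub, map_smul, smul_eq_mul, sub_eq_zero] at this
    exact this
  let χ0 : Y → E := fun a => f (σ ((a : A) : G) (φ x0)) / f (φ x0)
  have hχ0 : ∀ (a : Y) (w : Fin n → E), w ∈ W → f (σ ((a : A) : G) w) = χ0 a * f w := by
    intro a w hw
    obtain ⟨c, hc⟩ := hsc a a.2
    have e : χ0 a = c := by
      show f (σ ((a : A) : G) (φ x0)) / f (φ x0) = c
      rw [hc _ (hφW x0 hx0P), mul_div_assoc, div_self hf0, mul_one]
    rw [e]
    exact hc w hw
  have hσW : ∀ (g : G) (w : Fin n → E), w ∈ W → σ g w ∈ W := by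
    intro g w hw
    have hle : W ≤ W.comap (σ g) := by
      rw [hW, Submodule.span_le]
      rintro _ ⟨x, hx, rfl⟩
      show σ g (φ x) ∈ W
      rw [← h3 g x hx]
      exact hφW _ ((inferInstance : P.Normal).conj_mem x hx g)
    exact hle hw
  let χ : Y →* E :=
    { toFun := χ0
      map_one' := by
        show f (σ ((1 : A) : G) (φ x0)) / f (φ x0) = 1
        have e : σ ((1 : A) : G) = 1 := by
          have : ((1 : A) : G) = 1 := rfl
          rw [this, map_one]
        rw [e]
        exact div_self hf0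
      map_mul' := by
        intro a b
        show f (σ (((a * b : Y) : A) : G) (φ x0)) / f (φ x0) = _
        have e : σ (((a * b : Y) : A) : G) = σ ((a : A) : G) * σ ((b : A) : G) := by
          rw [← map_mul]
          rfl
        rw [e]
        show f (σ ((a : A) : G) (σ ((b : A) : G) (φ x0))) / f (φ x0) = _
        rw [hχ0 a _ (hσW _ _ (hφW x0 hx0P)), hχ0 b _ (hφW x0 hx0P), mul_div_assoc,
          mul_div_assoc, div_self hf0, mul_one] }
  have hχ : ∀ (a : Y) (w : Fin n → E), w ∈ W → f (σ ((a : A) : G) w) = χ a * f w := hχ0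
  -- the crossed homomorphism
  let δ : HH A B P → (Fin n → E) := fun h => φ (dl A B P h : G)
  have hδW : ∀ h, δ h ∈ W := fun h => hφW _ (dl A B P h).2
  have hδ : ∀ h h' : HH A B P, δ (h * h') = σ ((h.1.1 : A) : G) (δ h') + δ h := by
    intro h h'
    show φ (dl A B P (h * h') : G) = _
    rw [dl_mul, h1 _ ((inferInstance : P.Normal).conj_mem _ (dl A B P h').2 _) _ (dl A B P h).2,
      h3 _ _ (dl A B P h').2]
  have hδQ : ∀ h : HH A B P, (h : A × B) ∈ HH A B Q → δ h = 0 := by
    intro h hh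
    exact (h2 _ (dl A B P h).2).2 ((mem_HH A B Q _).1 hh)
  let prA : HH A B P →* A := (MonoidHom.fst A B).comp (HH A B P).subtype
  let H1 : Subgroup (HH A B P) := Y.comap prA
  have hH1 : H1.FiniteIndex := by
    refine ⟨?_⟩
    show (Y.comap prA).index ≠ 0
    rw [Subgroup.index_comap]
    exact (inferInstance : (Y.subgroupOf prA.range).FiniteIndex).index_ne_zero
  let yy : H1 → Y := fun h => ⟨prA h.1, h.2⟩
  have hyy : ∀ a b : H1, yy (a * b) = yy a * yy b := fun a b => rfl
  let d : HH A B P → E := fun h => f (δ h)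
  have hd : ∀ (h : H1) (h' : HH A B P), d (h.1 * h') = χ (yy h) * d h' + d h.1 := by
    intro h h'
    show f (δ (h.1 * h')) = _
    rw [hδ, map_add]
    congr 1
    exact hχ (yy h) _ (hδW h')
  have hd1 : ∀ h : H1, χ (yy h) = 1 → d h.1 = 0 := by
    intro h hh
    obtain ⟨m, hm, hmem⟩ := hPC (h.1 : A × B) h.1.2
    have hpow : ∀ k : ℕ, d ((h ^ k : H1).1) = k * d h.1 ∧ χ (yy (h ^ k)) = 1 := by
      intro k
      induction k with
      | zero =>
        constructor
        · have e := hd (1 : H1) (1 : HH A B P)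
          have e1 : χ (yy (1 : H1)) = 1 := map_one χ
          rw [e1, one_mul] at e
          have e2 : d ((1 : H1).1 * 1) = d (1 : HH A B P) := by
            rw [mul_one]
            rfl
          rw [e2] at e
          have e3 : d ((1 : H1).1) = 0 := by
            have e4 : d ((1 : H1).1) = d (1 : HH A B P) := rfl
            rw [e4] at e ⊢
            exact left_eq_add.mp e
          rw [pow_zero, Nat.cast_zero, zero_mul]
          exact e3
        · rw [pow_zero]
          exact map_one χ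
      | succ k ih =>
        constructor
        · have e : (h ^ (k + 1) : H1).1 = (h ^ k : H1).1 * h.1 := by
            rw [pow_succ]
            rfl
          rw [e, hd, ih.2, one_mul, ih.1, Nat.cast_succ]
          ring
        · rw [pow_succ, hyy, map_mul, ih.2, hh, one_mul]
    have e1 : (h ^ m : H1).1 = h.1 ^ m := rfl
    have e2 : d (h.1 ^ m) = 0 := by
      show f (δ (h.1 ^ m)) = 0
      rw [hδQ (h.1 ^ m) hmem, map_zero]
    have e3 := (hpow m).1
    rw [e1, e2] at e3
    rcases mul_eq_zero.1 e3.symm with h0 | h0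
    · exact absurd (Nat.cast_eq_zero.1 h0) (by omega)
    · exact h0
  obtain ⟨c, hc⟩ : ∃ c : E, ∀ h : H1, d h.1 = (χ (yy h) - 1) * c := by
    by_cases hall : ∀ h : H1, χ (yy h) = 1
    · refine ⟨0, fun h => ?_⟩
      rw [hd1 h (hall h), mul_zero]
    · push Not at hall
      obtain ⟨h0, hh0⟩ := hall
      have hne : χ (yy h0) - 1 ≠ 0 := sub_ne_zero.2 hh0
      refine ⟨d h0.1 / (χ (yy h0) - 1), fun h => ?_⟩
      -- the commutator
      have hk : χ (yy (h * h0 * (h0 * h)⁻¹)) = 1 := by
        have e1 : χ (yy (h * h0 * (h0 * h)⁻¹)) * χ (yy (h0 * h)) = χ (yy (h * h0)) := by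
          rw [← map_mul, ← hyy]
          congr 2
          group
        have e2 : χ (yy (h * h0)) = χ (yy (h0 * h)) := by
          rw [hyy, hyy, map_mul, map_mul, mul_comm]
        have e3 : χ (yy (h0 * h)) ≠ 0 := by
          intro e0
          have e4 : χ (yy (h0 * h)) * χ (yy (h0 * h)⁻¹) = 1 := by
            rw [← map_mul, ← hyy, mul_inv_cancel]
            exact map_one χ
          rw [e0, zero_mul] at e4
          exact zero_ne_one e4
        rw [e2] at e1
        exact mul_right_cancel₀ e3 (by rw [e1, one_mul])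
      have e5 := hd1 _ hk
      have e6 : (h * h0).1 = (h * h0 * (h0 * h)⁻¹).1 * (h0 * h).1 := by
        have : h * h0 = (h * h0 * (h0 * h)⁻¹) * (h0 * h) := by group
        conv_lhs => rw [this]
        rfl
      have e7 : d (h * h0).1 = d (h0 * h).1 := by
        rw [e6, hd, hk, one_mul, e5, add_zero]
      have e8 : d (h * h0).1 = χ (yy h) * d h0.1 + d h.1 := hd h h0.1
      have e9 : d (h0 * h).1 = χ (yy h0) * d h.1 + d h0.1 := hd h0 h.1
      rw [e8, e9] at e7
      field_simp
      linear_combination -e7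
  -- finitely many cosets
  obtain ⟨R, -, hR⟩ := exists_reps_right (⊤ : Subgroup (HH A B P)) H1 (by
    rw [Subgroup.relIndex_top_right]
    exact hH1.index_ne_zero)
  let T : Subgroup Eˣ := χ.toHomUnits.range
  have hTF : FR T := FR.of_surjective χ.toHomUnits.rangeRestrict
    (MonoidHom.rangeRestrict_surjective _) (FR.subgroup _ hA)
  have hval : ∀ x ∈ P, ∃ e ∈ R.image (fun r => d r + c), ∃ t ∈ T,
      f (φ x) + c = e * ((t : Eˣ) : E) := by
    intro x hx
    obtain ⟨h, hh⟩ := dl_surj A B P hAB ⟨x, hx⟩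
    obtain ⟨r, hr, a, ha, har⟩ := hR h (Subgroup.mem_top _)
    refine ⟨d r + c, Finset.mem_image_of_mem _ hr, χ.toHomUnits (yy ⟨a, ha⟩), ⟨_, rfl⟩, ?_⟩
    have e1 : f (φ x) = d h := by
      show f (φ x) = f (φ (dl A B P h : G))
      rw [hh]
    have e2 := hd ⟨a, ha⟩ r
    have e3 := hc ⟨a, ha⟩
    rw [e1, har]
    have e4 : ((χ.toHomUnits (yy ⟨a, ha⟩) : Eˣ) : E) = χ (yy ⟨a, ha⟩) := rfl
    rw [e4]
    change d (a * r) = _ at e2
    change d a = _ at e3
    rw [e2, e3]
    ring
  have hpoly := poly_const_fin T hTF (R.image (fun r => d r + c))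
    (Polynomial.C (f (φ x0)) * Polynomial.X + Polynomial.C c) (by
      intro m
      have hxm : x0 ^ m ∈ P := P.pow_mem hx0P m
      have hφm : φ (x0 ^ m) = (m : E) • φ x0 := by
        induction m with
        | zero =>
          have e := h1 1 P.one_mem 1 P.one_mem
          rw [mul_one] at e
          rw [pow_zero, Nat.cast_zero, zero_smul]
          exact left_eq_add.mp e
        | succ m ih =>
          rw [pow_succ, h1 _ (P.pow_mem hx0P m) _ hx0P, ih (P.pow_mem hx0P m), Nat.cast_succ,
            add_smul, one_smul]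
      obtain ⟨e, he, t, ht, het⟩ := hval (x0 ^ m) hxm
      refine ⟨e, he, t, ht, ?_⟩
      rw [← het, hφm, map_smul, smul_eq_mul]
      simp only [Polynomial.eval_add, Polynomial.eval_mul, Polynomial.eval_C, Polynomial.eval_X]
      ring)
  have hdeg : (Polynomial.C (f (φ x0)) * Polynomial.X + Polynomial.C c).natDegree = 1 :=
    Polynomial.natDegree_linear hf0
  rw [hdeg] at hpoly
  exact one_ne_zero hpoly

theorem lin_step {G : Type*} [Group G] (A B P Q : Subgroup G) [P.Normal] [Q.Normal] (hA : FR A)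
    (hB : FR B) (hAB : ∀ g : G, ∃ a ∈ A, ∃ b ∈ B, g = a * b) (h : LinStep P Q) :
    FRs P Q ∧ (¬ P ≤ Q → ¬ PC (HH A B P) (HH A B Q)) :=
  ⟨lin_fr A B P Q hA hB hAB h, lin_drop A B P Q hA hB hAB h⟩

end P9700t
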