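import Mathlib
import Pool.Agent.Lib.P9700a.Rank
import Pool.Agent.Lib.P9700a.Cover
import Pool.Agent.Lib.P9700b.MainV
import Pool.Agent.Lib.P9700t.Defs
import Pool.Agent.Lib.P9700t.LinB
import Pool.Agent.Lib.P9700t.DvA
import Pool.Agent.Lib.P9700t.DvB

/-!
# A non-periodic soluble-by-finite normal section is a proper step for the chain `HH A B`

`exists_section` gives `D`, `E`. `FRs D E`: `D.map (mk' E)` is an image of `D.map (mk' Y) ≤ X.map (mk' Y)` (`Y ≤ E`; `QuotientGroup.map`), `FR.subgroup`, `FR.of_surjective`. `linstep_of_tf` and `lin_drop`: `¬ PC (HH A B D) (HH A B E)`. But `HH A B D ≤ HH A B X` and `HH A B Y ≤ HH A B E` (`mem_HH`), so `PC (HH A B X) (HH A B Y)` would imply `PC (HH A B D) (HH A B E)`.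
-/

set_option autoImplicit false

namespace P9700t

open P9700a P9700a.CoverAux

theorem drop_vs {G : Type*} [Group G] (A B X Y : Subgroup G) [X.Normal] [Y.Normal] (hA : FR A)
    (hB : FR B) (hAB : ∀ g : G, ∃ a ∈ A, ∃ b ∈ B, g = a * b) (hYX : Y ≤ X) (hF : FRs X Y)
    (hV : VSs X Y) (x : G) (hx : x ∈ X) (hxn : ∀ n : ℕ, 0 < n → x ^ n ∉ Y) :
    ¬ PC (HH A B X) (HH A B Y) := by
  obtain ⟨D, E, hDn, hEn, hYE, hED, hDX, hc, ht, hne⟩ := exists_section X Y hYX hV x hx hxn
  have hFDY : FR (D.map (QuotientGroup.mk' Y)) :=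
    FR.of_injective (Subgroup.inclusion (Subgroup.map_mono hDX))
      (Subgroup.inclusion_injective _) hF
  have hFDE : FRs D E := by
    let f : G ⧸ Y →* G ⧸ E := QuotientGroup.map Y E (MonoidHom.id G) hYE
    have he : (D.map (QuotientGroup.mk' Y)).map f = D.map (QuotientGroup.mk' E) := by
      rw [Subgroup.map_map]
      rfl
    have h1 : FR ((D.map (QuotientGroup.mk' Y)).map f) :=
      FR.of_surjective (f.subgroupMap (D.map (QuotientGroup.mk' Y)))
        (MonoidHom.subgroupMap_surjective f _) hFDY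
    unfold FRs
    rw [← he]
    exact h1
  intro hPC
  refine lin_drop A B D E hA hB hAB (linstep_of_tf D E hED hc ht hFDE) hne ?_
  intro z hz
  obtain ⟨n, hn, hzn⟩ := hPC z ((mem_HH A B X z).2 (hDX ((mem_HH A B D z).1 hz)))
  exact ⟨n, hn, (mem_HH A B E _).2 (hYE ((mem_HH A B Y _).1 hzn))⟩

end P9700t
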