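import Mathlib
import Pool.Agent.Lib.P9700a.Rank
import Pool.Agent.Lib.P9700r.Defs
import Pool.Agent.Lib.P9700r.Expo
import Pool.Agent.Lib.P9700r.Elem
import Pool.Agent.Lib.P9700t.Defs
import Pool.Agent.Lib.P9700t.CntT

/-!
# The bound for elementary abelian sections, uniform in the prime and in the normal subgroup

`FR (A × B)` (`FR.prod`), `r` a bound (`FR` and `∃ r, RB r` are definitionally equal). Choose `e` such that `m ≤ r * (Nat.clog 2 m + 1)` implies `m ≤ e` (elementary: `Nat.clog` grows slower than any linear function; see `P9700d/Num.lean` or `num_bound` in `P9700r/Expo.lean`).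
`sec_le`: `M1 ≤ M` normal in `G`, `M / M1` elementary abelian with nonzero `M1.relIndex M`. The group `Mb = M ⧸ M1.subgroupOf M` is finite, commutative, of exponent dividing `p`: `Nat.card Mb = M1.relIndex M = p ^ m`. `H = {(a, b) ∈ A × B : a b⁻¹ ∈ M}`, `φ h` = conjugation by `a` on `Mb`, `δ h` = the class of `a b⁻¹`: copy from the proof of `elem_bound` in
`P9700r/Elem.lean` (`ElemAux.cjH` etc. can be used). `count_trans` with `t = Nat.clog 2 m` (`m ≤ 2 ^ t`: `Nat.le_pow_clog`) gives `p ^ m ≤ p ^ (r (t + 1))`, so `m ≤ r (t + 1)` and `m ≤ e`.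
`eb_gen`: `M1.relIndex M` is a power of `p` (`NP.relIndex`), so nonzero.
-/

set_option autoImplicit false

namespace P9700t

open P9700a P9700r

namespace EBgAux

theorem num (c : ℕ) : ∃ e : ℕ, ∀ n : ℕ, n ≤ c * (Nat.clog 2 n + 1) → n ≤ e := by
  refine ⟨c * (6 * c + 3) + 1, fun n h => ?_⟩
  rcases Nat.lt_or_ge n 2 with hn | hn
  · omega
  generalize ht : Nat.clog 2 n = t at h
  have h5 : 2 ^ (t - 1) < n := by
    have := Nat.pow_pred_clog_lt_self (b := 2) (by norm_num) (show 1 < n by omega)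
    rwa [ht] at this
  have h6 : t ≤ 6 * c + 2 := by
    obtain ⟨u, hu⟩ : ∃ u, u = (t - 1) / 2 := ⟨_, rfl⟩
    have h7 : (u + 1) * (u + 1) ≤ 2 ^ (t - 1) := by
      have h8 : u + 1 ≤ 2 ^ u := Nat.lt_two_pow_self
      calc (u + 1) * (u + 1) ≤ 2 ^ u * 2 ^ u := Nat.mul_le_mul h8 h8
        _ = 2 ^ (u + u) := (pow_add 2 u u).symm
        _ ≤ 2 ^ (t - 1) := Nat.pow_le_pow_right (by norm_num) (by omega)
    have h9 : (u + 1) * (u + 1) < 3 * c * (u + 1) := by
      calc (u + 1) * (u + 1) ≤ 2 ^ (t - 1) := h7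
        _ < n := h5
        _ ≤ c * (t + 1) := h
        _ ≤ c * (3 * (u + 1)) := Nat.mul_le_mul_left _ (by omega)
        _ = 3 * c * (u + 1) := by ring
    have h10 : u + 1 < 3 * c := Nat.lt_of_mul_lt_mul_right h9
    omega
  calc n ≤ c * (t + 1) := h
    _ ≤ c * (6 * c + 3) := Nat.mul_le_mul_left _ (by omega)
    _ ≤ c * (6 * c + 3) + 1 := Nat.le_succ _

end EBgAux

open ElemAux in
theorem sec_le {G : Type*} [Group G] (A B : Subgroup G) (hA : FR A) (hB : FR B)
    (hAB : ∀ g : G, ∃ a ∈ A, ∃ b ∈ B, g = a * b) :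
    ∃ e : ℕ, ∀ p : ℕ, p.Prime → ∀ M M1 : Subgroup G, M.Normal → M1.Normal → M1 ≤ M →
      (∀ x ∈ M, ∀ y ∈ M, x * y * x⁻¹ * y⁻¹ ∈ M1) → (∀ x ∈ M, x ^ p ∈ M1) →
      M1.relIndex M ≠ 0 → M1.relIndex M ≤ p ^ e := by
  obtain ⟨r, hr⟩ : ∃ r, RB r (A × B) := FR.prod hA hB
  obtain ⟨e, he⟩ := EBgAux.num r
  refine ⟨e, ?_⟩
  intro p hp M M1 hM hM1 h2 h4 h5 h0
  have : Fact p.Prime := ⟨hp⟩
  have hfin : Finite (M ⧸ M1.subgroupOf M) := by
    apply Nat.finite_of_card_ne_zero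
    exact h0
  have hexp : ∀ x : M ⧸ M1.subgroupOf M, x ^ p = 1 := by
    intro x
    induction x using QuotientGroup.induction_on with
    | H x =>
      change (QuotientGroup.mk (x ^ p) : M ⧸ M1.subgroupOf M) = 1
      rw [QuotientGroup.eq_one_iff, Subgroup.mem_subgroupOf]
      exact h5 _ x.2
  obtain ⟨m, hm⟩ : ∃ m, Nat.card (M ⧸ M1.subgroupOf M) = p ^ m := by
    refine IsPGroup.iff_card.1 ?_
    intro x
    exact ⟨1, by rw [pow_one]; exact hexp x⟩
  have hcard : M1.relIndex M = p ^ m := hm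
  let cg : CommGroup (M ⧸ M1.subgroupOf M) :=
    { (inferInstance : Group (M ⧸ M1.subgroupOf M)) with
      mul_comm := by
        intro x y
        induction x using QuotientGroup.induction_on with
        | H x =>
          induction y using QuotientGroup.induction_on with
          | H y =>
            rw [← QuotientGroup.mk_mul, ← QuotientGroup.mk_mul, QuotientGroup.eq,
              Subgroup.mem_subgroupOf]
            have h6 := h4 _ (M.inv_mem y.2) _ (M.inv_mem x.2)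
            have e : (((x * y)⁻¹ * (y * x) : M) : G) =
                (y : G)⁻¹ * (x : G)⁻¹ * (y : G)⁻¹⁻¹ * (x : G)⁻¹⁻¹ := by
              simp only [Subgroup.coe_mul, Subgroup.coe_inv]
              group
            rw [e]
            exact h6 }
  let H : Subgroup (A × B) :=
    { carrier := {p | (p.1 : G) * (p.2 : G)⁻¹ ∈ M}
      one_mem' := by simp [M.one_mem]
      mul_mem' := by
        rintro ⟨a, b⟩ ⟨a', b'⟩ h h'
        simp only [Set.mem_ofPred_eq, Prod.fst_mul, Prod.snd_mul, Subgroup.coe_mul, mul_inv_rev] at *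
        have : (a : G) * a' * ((b' : G)⁻¹ * (b : G)⁻¹) =
            ((a : G) * (a' * (b' : G)⁻¹) * (a : G)⁻¹) * (a * (b : G)⁻¹) := by group
        rw [this]
        exact M.mul_mem (hM.conj_mem _ h' _) h
      inv_mem' := by
        rintro ⟨a, b⟩ h
        simp only [Set.mem_ofPred_eq, Prod.fst_inv, Prod.snd_inv, Subgroup.coe_inv, inv_inv] at *
        have : (a : G)⁻¹ * b = (a : G)⁻¹ * ((a : G) * (b : G)⁻¹)⁻¹ * ((a : G)⁻¹)⁻¹ := by group
        rw [this]
        exact hM.conj_mem _ (M.inv_mem h) _ }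
  have hHmem : ∀ p : H, ((p : A × B).1 : G) * ((p : A × B).2 : G)⁻¹ ∈ M := fun p => p.2
  let pA : H →* G := A.subtype.comp ((MonoidHom.fst A B).comp H.subtype)
  let φ : H →* MulAut (M ⧸ M1.subgroupOf M) := (cjH M M1).comp pA
  let δ : H → M ⧸ M1.subgroupOf M := fun h => QuotientGroup.mk ⟨_, hHmem h⟩
  have key := count_trans hp (M := M ⧸ M1.subgroupOf M) hexp r (hr.subgroup H) φ δ ?_ ?_
    (Nat.clog 2 m) (by
      rw [hm]
      exact Nat.pow_le_pow_right hp.pos (Nat.le_pow_clog (by norm_num) m))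
  · rw [hm] at key
    rw [hcard]
    exact Nat.pow_le_pow_right hp.pos (he m ((Nat.pow_le_pow_iff_right hp.one_lt).1 key))
  · intro h h'
    change (QuotientGroup.mk (⟨_, hHmem (h * h')⟩ : M) : M ⧸ M1.subgroupOf M) =
      QuotientGroup.mk (MulAut.conjNormal (pA h) (⟨_, hHmem h'⟩ : M)) *
        QuotientGroup.mk (⟨_, hHmem h⟩ : M)
    rw [← QuotientGroup.mk_mul]
    congr 1
    apply Subtype.ext
    have e1 := MulAut.conjNormal_apply (pA h) (⟨_, hHmem h'⟩ : M)
    change ((h : A × B).1 : G) * ((h' : A × B).1 : G) *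
      (((h : A × B).2 : G) * ((h' : A × B).2 : G))⁻¹ =
      ((MulAut.conjNormal (pA h) (⟨_, hHmem h'⟩ : M) : M) : G) *
        (((h : A × B).1 : G) * ((h : A × B).2 : G)⁻¹)
    rw [e1]
    change ((h : A × B).1 : G) * ((h' : A × B).1 : G) *
      (((h : A × B).2 : G) * ((h' : A × B).2 : G))⁻¹ =
      ((h : A × B).1 : G) * (((h' : A × B).1 : G) * ((h' : A × B).2 : G)⁻¹) *
        ((h : A × B).1 : G)⁻¹ * (((h : A × B).1 : G) * ((h : A × B).2 : G)⁻¹)
    group
  · intro x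
    induction x using QuotientGroup.induction_on with
    | H x =>
      obtain ⟨a, ha, b, hb, hab⟩ := hAB x
      have hmem : ((⟨a, ha⟩ : A) : G) * ((⟨b⁻¹, B.inv_mem hb⟩ : B) : G)⁻¹ ∈ M := by
        change a * b⁻¹⁻¹ ∈ M
        rw [inv_inv, ← hab]
        exact x.2
      refine ⟨⟨(⟨a, ha⟩, ⟨b⁻¹, B.inv_mem hb⟩), hmem⟩, ?_⟩
      change (QuotientGroup.mk (⟨a * b⁻¹⁻¹, hmem⟩ : M) : M ⧸ M1.subgroupOf M) = _
      congr 1
      apply Subtype.ext
      change a * b⁻¹⁻¹ = (x : G)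
      rw [inv_inv, hab]

theorem eb_gen {G : Type*} [Group G] (A B : Subgroup G) (hA : FR A) (hB : FR B)
    (hAB : ∀ g : G, ∃ a ∈ A, ∃ b ∈ B, g = a * b) :
    ∃ e : ℕ, ∀ p : ℕ, p.Prime → ∀ K : Subgroup G, K.Normal → EB p K e := by
  obtain ⟨e, he⟩ := sec_le A B hA hB hAB
  refine ⟨e, fun p hp K _ N M M1 hN hM hM1 h1 h2 h3 h4 h5 => ?_⟩
  obtain ⟨j, hj⟩ := hN.relIndex hp h1 h2 h3
  refine he p hp M M1 hM hM1 h2 h4 h5 ?_
  rw [hj]
  exact (pow_pos hp.pos j).ne'

end P9700t
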