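import Mathlib
import Pool.Agent.Lib.P9700d.Wiel
import Pool.Agent.Lib.P9700e.Defs

/-!
# Sylow subgroups of a product of two groups of rank r have few homomorphisms to Z/p

`P9700d.exists_sylow_prod A B hAB S hS hSi` gives `A' B' ≤ S`, `x` with `S = A' B'` and `x A' x⁻¹ ≤ A`, `x B' x⁻¹ ≤ B`. Conjugation by `x` embeds `A'` into `A`, so `RK r A'` (`RK.of_injective`), and `A'` is finitely generated (finite), so by `rk_iff` `A' = closure s`, `s.card ≤ r`; same for `B' = closure t`.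
A homomorphism `f : S →* Multiplicative (ZMod p)` is determined by its values on `s` and `t`, which lie in `S`: `Nat.card (S →* _) ≤ Nat.card ((s → ZMod p) × (t → ZMod p)) = p ^ s.card * p ^ t.card ≤ p ^ (2 * r)` (`Nat.card_le_card_of_injective`).
-/

set_option autoImplicit false

namespace P9700t

open P9700a P9700e

namespace HomCardAux

/-- a finite subgroup conjugate into a group of rank `r` is generated by `r` elements -/
theorem gen {Q : Type*} [Group Q] [Finite Q] {A A' : Subgroup Q} {r : ℕ} (hA : RK r A) (x : Q)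
    (h : ∀ a ∈ A', x * a * x⁻¹ ∈ A) : ∃ s : Finset Q, s.card ≤ r ∧
      Subgroup.closure (s : Set Q) = A' := by
  let f : A' →* A := ((MulAut.conj x).toMonoidHom.comp A'.subtype).codRestrict A
    (fun a => by
      have h1 := h a a.2
      simpa [MulAut.conj_apply] using h1)
  have hf : Function.Injective f := by
    intro a b hab
    have h1 : x * (a : Q) * x⁻¹ = x * (b : Q) * x⁻¹ := by
      have h2 := congrArg Subtype.val hab
      simpa [f, MulAut.conj_apply] using h2
    exact Subtype.ext (mul_left_cancel (mul_right_cancel h1))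
  have hr : RK r A' := RK.of_injective f hf hA
  refine (rk_iff A').mp hr A' le_rfl ⟨(Set.toFinite (A' : Set Q)).toFinset, ?_⟩
  rw [Set.Finite.coe_toFinset, Subgroup.closure_eq]

end HomCardAux

open HomCardAux

theorem hom_card {Q : Type*} [Group Q] [Finite Q] {p : ℕ} [Fact p.Prime] (A B : Subgroup Q) (r : ℕ)
    (hA : RK r A) (hB : RK r B) (hAB : ∀ g : Q, ∃ a ∈ A, ∃ b ∈ B, g = a * b) (S : Subgroup Q)
    (hS : IsPGroup p S) (hSi : ¬ p ∣ S.index) :
    Nat.card (S →* Multiplicative (ZMod p)) ≤ p ^ (2 * r) := by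
  classical
  obtain ⟨A', B', x, hA'S, hB'S, hS', hA', hB'⟩ := P9700d.exists_sylow_prod A B hAB S hS hSi
  obtain ⟨s, hs, hs'⟩ := gen hA x hA'
  obtain ⟨t, ht, ht'⟩ := gen hB x hB'
  have hsS : ∀ a ∈ s, a ∈ S := fun a ha => hA'S (hs' ▸ Subgroup.subset_closure ha)
  have htS : ∀ a ∈ t, a ∈ S := fun a ha => hB'S (ht' ▸ Subgroup.subset_closure ha)
  let Φ : (S →* Multiplicative (ZMod p)) → ((s → ZMod p) × (t → ZMod p)) := fun f =>
    (fun a => Multiplicative.toAdd (f ⟨a.1, hsS _ a.2⟩), fun a => Multiplicative.toAdd (f ⟨a.1, htS _ a.2⟩))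
  have hΦ : Function.Injective Φ := by
    intro f g hfg
    have h1 : ∀ a (ha : a ∈ s), f ⟨a, hsS _ ha⟩ = g ⟨a, hsS _ ha⟩ := fun a ha =>
      congrFun (congrArg Prod.fst hfg) ⟨a, ha⟩
    have h2 : ∀ a (ha : a ∈ t), f ⟨a, htS _ ha⟩ = g ⟨a, htS _ ha⟩ := fun a ha =>
      congrFun (congrArg Prod.snd hfg) ⟨a, ha⟩
    have h3 : A' ≤ (f.eqLocus g).map S.subtype := by
      rw [← hs', Subgroup.closure_le]
      intro a ha
      exact ⟨⟨a, hsS _ ha⟩, h1 a ha, rfl⟩
    have h4 : B' ≤ (f.eqLocus g).map S.subtype := by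
      rw [← ht', Subgroup.closure_le]
      intro a ha
      exact ⟨⟨a, htS _ ha⟩, h2 a ha, rfl⟩
    ext u
    obtain ⟨a, ha, b, hb, hu⟩ := hS' u.1 u.2
    have h5 : (u : Q) ∈ (f.eqLocus g).map S.subtype := by
      rw [hu]
      exact Subgroup.mul_mem _ (h3 ha) (h4 hb)
    obtain ⟨v, hv, hvu⟩ := h5
    have h6 : v = u := Subtype.ext hvu
    rw [← h6]
    exact hv
  have hp : 1 ≤ p := (Fact.out : p.Prime).one_le
  haveI : NeZero p := ⟨(Fact.out : p.Prime).ne_zero⟩
  have h1 := Nat.card_le_card_of_injective Φ hΦ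
  have h2 : Nat.card ((s → ZMod p) × (t → ZMod p)) = p ^ s.card * p ^ t.card := by
    rw [Nat.card_prod, Nat.card_fun, Nat.card_fun, Nat.card_zmod]
    simp
  calc Nat.card (S →* Multiplicative (ZMod p)) ≤ p ^ s.card * p ^ t.card := h2 ▸ h1
    _ ≤ p ^ r * p ^ r := Nat.mul_le_mul (Nat.pow_le_pow_right hp hs) (Nat.pow_le_pow_right hp ht)
    _ = p ^ (2 * r) := by rw [← pow_add, two_mul]

end P9700t
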