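import Mathlib
import Pool.Agent.Lib.P9700a.Rank
import Pool.Agent.Lib.P9700t.Defs
import Pool.Agent.Lib.P9700t.ChbA

/-!
# A series of bounded length in torsion-free nilpotent groups of rank `r`

`Γ` nilpotent, torsion-free, all f.g. subgroups `r`-generated.
(1) Zorn: let `M` be a maximal commutative normal subgroup of `Γ`. Then `C_Γ(M) = M`: otherwise `C/M`, `C = C_Γ(M)` normal, is a non-trivial normal subgroup of the nilpotent group `Γ / M`, so it contains a non-trivial central element: `x ∈ C`, `x ∉ M`, `⁅x, g⁆ ∈ M` for all `g`; then `M ⊔ zpowers x` is commutative and normal, a contradiction. (See `P9700d/MaxAb.lean` for the same argument in finite `p`-groups.)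
(2) Define `M_0 = M`, `M_(i+1) = {x ∈ M : some positive power of x lies in the subgroup generated by all ⁅m, g⁆, m ∈ M_i, g ∈ Γ, }` (the isolator in `M` of `⁅M_i, Γ⁆`): a normal subgroup of `Γ` contained in `M_i`, `⁅M_i, Γ⁆ ≤ M_(i+1)` and `x ^ n ∈ M_(i+1)`, `x ∈ M`, `n > 0` implies `x ∈ M_(i+1)`. If `M_(i+1) = M_i ≠ ⊥` then `⁅M_i, Γ, ..., Γ⁆` (any number of times) is power-dense in `M_i`:
 for `m ∈ M` one has `⁅m ^ n, g⁆ = ⁅m, g⁆ ^ n` (`M` commutative, normal); but this is trivial for large length by nilpotency and `M_i` is torsion-free: contradiction. So the chain decreases strictly until it reaches `⊥`, and by `chb_comm'` for `M` (each strict step is not `PC` because `M_(i+1)` is isolated) it does so after at most `r` steps: `M_r = ⊥`.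
(3) `D_k = {g : ∀ i, ∀ m ∈ M_i, ⁅g, m⁆ ∈ M_(i+k+1)}` for `0 ≤ k < r`: `D_0 = ⊤`, normal, decreasing, `⁅D_k, D_k⁆ ≤ D_(k+1)` (stability group: for `g, h ∈ D_k` the commutator acts trivially from `M_i` to `M_(i+2k+2)`-quotients; `2 k + 2 ≥ k + 2`), `D_(r-1) = C_Γ(M) = M`. Put `D_r = ⊥` and `D_k = ⊥` for `k ≥ r`. If `r = 0` then `Γ` is trivial.
 (Check of the commutator statement: write `g m g⁻¹ = m u`, `h m h⁻¹ = m v` with `u, v ∈ M_(i+k+1)`; `g h m h⁻¹ g⁻¹ = g m g⁻¹ g v g⁻¹ = m u v v'`, `v' = ⁅g, v⁆`-like in `M_(i+2k+2)`, similarly `h g m g⁻¹ h⁻¹ = m v u u'`; `M` is commutative.)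
-/

set_option autoImplicit false

namespace P9700t

open P9700a

open scoped commutatorElement

namespace NilSAux

variable {Γ : Type*} [Group Γ]

theorem deep {X : Type*} [Group X] (hX : Group.IsNilpotent X) (M C : Subgroup X) [C.Normal]
    (h : ∃ g ∈ C, g ∉ M) : ∃ x ∈ C, x ∉ M ∧ ∀ g : X, x * g * x⁻¹ * g⁻¹ ∈ M := by
  obtain ⟨c, hc⟩ := Subgroup.nilpotent_iff_lowerCentralSeries.1 hX
  classical
  by_contra hcon
  push Not at hcon
  have key : ∀ n, ∃ x ∈ C, x ∉ M ∧ x ∈ Subgroup.lowerCentralSeries (⊤ : Subgroup X) n := by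
    intro n
    induction n with
    | zero =>
      obtain ⟨g, hg, hgM⟩ := h
      exact ⟨g, hg, hgM, by simp⟩
    | succ n ih =>
      obtain ⟨x, hx, hxM, hxn⟩ := ih
      obtain ⟨g, hg⟩ := hcon x hx hxM
      refine ⟨x * g * x⁻¹ * g⁻¹, ?_, hg, ?_⟩
      · have h1 : g * x⁻¹ * g⁻¹ ∈ C := ‹C.Normal›.conj_mem _ (C.inv_mem hx) g
        have h2 := C.mul_mem hx h1
        have h3 : x * (g * x⁻¹ * g⁻¹) = x * g * x⁻¹ * g⁻¹ := by group
        rwa [h3] at h2
      · rw [Subgroup.lowerCentralSeries_succ]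
        exact Subgroup.commutator_mem_commutator hxn (Subgroup.mem_top g)
  obtain ⟨x, -, hxM, hx⟩ := key c
  rw [hc, Subgroup.mem_bot] at hx
  exact hxM (hx ▸ M.one_mem)

/-- a maximal commutative normal subgroup of a nilpotent group is its own centralizer -/
theorem exists_max_ab {X : Type*} [Group X] (hnil : Group.IsNilpotent X) :
    ∃ M : Subgroup X, M.Normal ∧ (∀ x ∈ M, ∀ y ∈ M, x * y = y * x) ∧
      ∀ g : X, (∀ x ∈ M, x * g = g * x) → g ∈ M := by
  classical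
  let S : Set (Subgroup X) := {M | M.Normal ∧ ∀ x ∈ M, ∀ y ∈ M, x * y = y * x}
  have hS : (⊥ : Subgroup X) ∈ S := ⟨inferInstance, fun x hx y hy => by
    rw [Subgroup.mem_bot.1 hx, Subgroup.mem_bot.1 hy]⟩
  obtain ⟨M, -, hM, hmax⟩ := zorn_le_nonempty₀ S (by
    intro c hcS hc y hy
    have hne : c.Nonempty := ⟨y, hy⟩
    have hmemc : ∀ x, x ∈ sSup c ↔ ∃ s ∈ c, x ∈ s := fun x =>
      Subgroup.mem_sSup_of_directedOn hne hc.directedOn
    refine ⟨sSup c, ⟨⟨fun n hn g => ?_⟩, fun a ha b hb => ?_⟩, fun z hz => le_sSup hz⟩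
    · obtain ⟨s, hs, hns⟩ := (hmemc n).1 hn
      exact (hmemc _).2 ⟨s, hs, (hcS hs).1.conj_mem n hns g⟩
    · obtain ⟨s, hs, has⟩ := (hmemc a).1 ha
      obtain ⟨t, ht, hbt⟩ := (hmemc b).1 hb
      rcases hc.total hs ht with h | h
      · exact (hcS ht).2 a (h has) b hbt
      · exact (hcS hs).2 a has b (h hbt)) ⊥ hS
  obtain ⟨hMn, hMc⟩ := hM
  refine ⟨M, hMn, hMc, fun g hg => ?_⟩
  by_contra hgM
  obtain ⟨x, hxC, hxM, hx⟩ := deep hnil M (Subgroup.centralizer (M : Set X))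
    ⟨g, Subgroup.mem_centralizer_iff.2 hg, hgM⟩
  rw [Subgroup.mem_centralizer_iff] at hxC
  have hmem : ∀ y, y ∈ M ⊔ Subgroup.zpowers x ↔ ∃ m ∈ M, ∃ k : ℤ, m * x ^ k = y := by
    intro y
    rw [← SetLike.mem_coe, Subgroup.normal_mul, Set.mem_mul]
    constructor
    · rintro ⟨m, hm, z, hz, rfl⟩
      obtain ⟨k, rfl⟩ := Subgroup.mem_zpowers_iff.1 hz
      exact ⟨m, hm, k, rfl⟩
    · rintro ⟨m, hm, k, rfl⟩
      exact ⟨m, hm, x ^ k, Subgroup.zpow_mem_zpowers x k, rfl⟩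
  have hxm : ∀ m ∈ M, ∀ k : ℤ, m * x ^ k = x ^ k * m := fun m hm k =>
    ((show Commute m x from hxC m hm).zpow_right k)
  have hle : M ≤ M ⊔ Subgroup.zpowers x := le_sup_left
  have hxin : x ∈ M ⊔ Subgroup.zpowers x := (hmem x).2 ⟨1, M.one_mem, 1, by simp⟩
  have hnorm : (M ⊔ Subgroup.zpowers x).Normal := by
    refine ⟨fun y hy g => ?_⟩
    obtain ⟨m, hm, k, rfl⟩ := (hmem y).1 hy
    have h1 : g * x * g⁻¹ ∈ M ⊔ Subgroup.zpowers x := by
      have h2 : x⁻¹ * (x * g * x⁻¹ * g⁻¹)⁻¹ * x ∈ M := by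
        have := hMn.conj_mem _ (M.inv_mem (hx g)) x⁻¹
        rwa [inv_inv] at this
      have h3 : g * x * g⁻¹ = x * (x⁻¹ * (x * g * x⁻¹ * g⁻¹)⁻¹ * x) := by group
      rw [h3]
      exact mul_mem hxin (hle h2)
    have h4 : g * (m * x ^ k) * g⁻¹ = (g * m * g⁻¹) * (g * x * g⁻¹) ^ k := by
      rw [conj_zpow]
      group
    rw [h4]
    exact mul_mem (hle (hMn.conj_mem m hm g)) (zpow_mem h1 k)
  have hcomm : ∀ a ∈ M ⊔ Subgroup.zpowers x, ∀ b ∈ M ⊔ Subgroup.zpowers x, a * b = b * a := by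
    intro a ha b hb
    obtain ⟨m, hm, k, rfl⟩ := (hmem a).1 ha
    obtain ⟨n, hn, l, rfl⟩ := (hmem b).1 hb
    have c1 : Commute m n := hMc m hm n hn
    have c2 : Commute m (x ^ l) := hxm m hm l
    have c3 : Commute (x ^ k) n := (hxm n hn k).symm
    have c4 : Commute (x ^ k) (x ^ l) := (Commute.refl x).zpow_zpow k l
    exact (c1.mul_right c2).mul_left (c3.mul_right c4)
  have := hmax (y := M ⊔ Subgroup.zpowers x) ⟨hnorm, hcomm⟩ hle
  exact hxM (this hxin)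

section chain

variable (M : Subgroup Γ) (hM : ∀ x ∈ M, ∀ y ∈ M, x * y = y * x)

/-- the elements of `M` with a positive power in `N` -/
def iso (N : Subgroup Γ) : Subgroup Γ where
  carrier := {x | x ∈ M ∧ ∃ n : ℕ, 0 < n ∧ x ^ n ∈ N}
  one_mem' := ⟨M.one_mem, 1, one_pos, by rw [one_pow]; exact N.one_mem⟩
  mul_mem' := by
    rintro x y ⟨hx, n, hn, hxn⟩ ⟨hy, k, hk, hyk⟩
    refine ⟨M.mul_mem hx hy, n * k, Nat.mul_pos hn hk, ?_⟩
    rw [(show Commute x y from hM x hx y hy).mul_pow, pow_mul, mul_comm n k, pow_mul y]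
    exact N.mul_mem (N.pow_mem hxn k) (N.pow_mem hyk n)
  inv_mem' := by
    rintro x ⟨hx, n, hn, hxn⟩
    refine ⟨M.inv_mem hx, n, hn, ?_⟩
    rw [inv_pow]
    exact N.inv_mem hxn

theorem mem_iso {N : Subgroup Γ} {x : Γ} :
    x ∈ iso M hM N ↔ x ∈ M ∧ ∃ n : ℕ, 0 < n ∧ x ^ n ∈ N := Iff.rfl

/-- the chain -/
def ch : ℕ → Subgroup Γ
  | 0 => M
  | i + 1 => iso M hM ⁅ch i, (⊤ : Subgroup Γ)⁆

theorem ch_le (i : ℕ) : ch M hM i ≤ M := by
  cases i with
  | zero => exact le_rfl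
  | succ i => exact fun x hx => hx.1

theorem iso_normal (hMn : M.Normal) {N : Subgroup Γ} (hN : N.Normal) : (iso M hM N).Normal := by
  refine ⟨?_⟩
  rintro x ⟨hx, n, hn, hxn⟩ g
  refine ⟨hMn.conj_mem x hx g, n, hn, ?_⟩
  rw [conj_pow]
  exact hN.conj_mem _ hxn g

theorem ch_normal (hMn : M.Normal) (i : ℕ) : (ch M hM i).Normal := by
  induction i with
  | zero => exact hMn
  | succ i ih =>
    have := ih
    exact iso_normal M hM hMn (Subgroup.commutator_normal _ _)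

theorem ch_iso (i : ℕ) {x : Γ} (hx : x ∈ M) {n : ℕ} (hn : 0 < n) (hxn : x ^ n ∈ ch M hM i) :
    x ∈ ch M hM i := by
  cases i with
  | zero => exact hx
  | succ i =>
    obtain ⟨-, k, hk, hk'⟩ := hxn
    exact ⟨hx, n * k, Nat.mul_pos hn hk, by rw [pow_mul]; exact hk'⟩

theorem comm_le (hMn : M.Normal) (i : ℕ) : ⁅ch M hM i, (⊤ : Subgroup Γ)⁆ ≤ ch M hM i := by
  have := ch_normal M hM hMn i
  exact Subgroup.commutator_le_left _ _

theorem ch_succ_le (hMn : M.Normal) (i : ℕ) : ch M hM (i + 1) ≤ ch M hM i := by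
  rintro x ⟨hx, n, hn, hxn⟩
  exact ch_iso M hM i hx hn (comm_le M hM hMn i hxn)

theorem comm_le_succ (hMn : M.Normal) (i : ℕ) :
    ⁅ch M hM i, (⊤ : Subgroup Γ)⁆ ≤ ch M hM (i + 1) := by
  intro x hx
  exact ⟨ch_le M hM i (comm_le M hM hMn i hx), 1, one_pos, by rw [pow_one]; exact hx⟩

theorem ch_anti (hMn : M.Normal) : Antitone (ch M hM) :=
  antitone_nat_of_succ_le (ch_succ_le M hM hMn)

theorem comm_mem (hMn : M.Normal) (i : ℕ) {m : Γ} (hm : m ∈ ch M hM i) (g : Γ) :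
    g * m * g⁻¹ * m⁻¹ ∈ ch M hM (i + 1) := by
  have h1 : ⁅m, g⁆ ∈ ch M hM (i + 1) := comm_le_succ M hM hMn i
    (Subgroup.commutator_mem_commutator hm (Subgroup.mem_top g))
  have h2 := (ch M hM (i + 1)).inv_mem h1
  rw [commutatorElement_inv, commutatorElement_def] at h2
  exact h2

/-- iterated commutators -/
def lc (N : Subgroup Γ) : ℕ → Subgroup Γ
  | 0 => N
  | k + 1 => ⁅lc N k, (⊤ : Subgroup Γ)⁆

theorem lc_le (N : Subgroup Γ) (k : ℕ) :
    lc N k ≤ Subgroup.lowerCentralSeries (⊤ : Subgroup Γ) k := by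
  induction k with
  | zero => simp
  | succ k ih =>
    rw [Subgroup.lowerCentralSeries_succ]
    exact Subgroup.commutator_mono ih le_rfl

theorem stable (hMn : M.Normal) (i : ℕ) (h : ch M hM (i + 1) = ch M hM i) (k : ℕ) :
    ∀ x ∈ ch M hM i, ∃ n : ℕ, 0 < n ∧ x ^ n ∈ lc (ch M hM i) k := by
  induction k with
  | zero => exact fun x hx => ⟨1, one_pos, by rw [pow_one]; exact hx⟩
  | succ k ih =>
    have key : ⁅ch M hM i, (⊤ : Subgroup Γ)⁆ ≤ iso M hM (lc (ch M hM i) (k + 1)) := by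
      rw [Subgroup.commutator_le]
      intro m hm g _
      have hmM := ch_le M hM i hm
      have hwM : g * m⁻¹ * g⁻¹ ∈ M := hMn.conj_mem _ (M.inv_mem hmM) g
      obtain ⟨n, hn, hn'⟩ := ih m hm
      refine ⟨?_, n, hn, ?_⟩
      · have h1 := M.mul_mem hmM hwM
        have h2 : m * (g * m⁻¹ * g⁻¹) = ⁅m, g⁆ := by
          rw [commutatorElement_def]
          group
        rwa [h2] at h1
      · have h2 : ⁅m, g⁆ ^ n = ⁅m ^ n, g⁆ := by
          have h3 : ⁅m, g⁆ = m * (g * m⁻¹ * g⁻¹) := by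
            rw [commutatorElement_def]
            group
          rw [h3, (show Commute m (g * m⁻¹ * g⁻¹) from hM _ hmM _ hwM).mul_pow, conj_pow,
            commutatorElement_def, inv_pow]
          group
        rw [h2]
        exact Subgroup.commutator_mem_commutator hn' (Subgroup.mem_top g)
    intro x hx
    rw [← h] at hx
    obtain ⟨hxM, n, hn, hxn⟩ := hx
    obtain ⟨-, l, hl, hl'⟩ := key hxn
    exact ⟨n * l, Nat.mul_pos hn hl, by rw [pow_mul]; exact hl'⟩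

theorem strict (hnil : Group.IsNilpotent Γ)
    (htf : ∀ x : Γ, ∀ n : ℕ, 0 < n → x ^ n = 1 → x = 1) (hMn : M.Normal) (i : ℕ)
    (h : ch M hM (i + 1) = ch M hM i) : ch M hM i = ⊥ := by
  obtain ⟨c, hc⟩ := Subgroup.nilpotent_iff_lowerCentralSeries.1 hnil
  rw [eq_bot_iff]
  intro x hx
  obtain ⟨n, hn, hxn⟩ := stable M hM hMn i h c x hx
  have h1 := lc_le _ c hxn
  rw [hc, Subgroup.mem_bot] at h1
  exact Subgroup.mem_bot.2 (htf x n hn h1)

theorem rg_sub {r : ℕ} (hr : RG r (⊤ : Subgroup Γ)) : RG r (⊤ : Subgroup M) := by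
  intro L _ hL
  obtain ⟨s, hs, hs'⟩ := hr (L.map M.subtype) le_top (RankAux.fg_map M.subtype hL)
  obtain ⟨s', h1, h2⟩ := RankAux.lift_inj M.subtype M.subtype_injective L s hs'
  exact ⟨s', h1.trans hs, h2⟩

theorem ch_bot (hnil : Group.IsNilpotent Γ)
    (htf : ∀ x : Γ, ∀ n : ℕ, 0 < n → x ^ n = 1 → x = 1) (hMn : M.Normal) (r : ℕ)
    (hr : RG r (⊤ : Subgroup Γ)) : ch M hM r = ⊥ := by
  by_contra hne
  have hchb : CHB r M := chb_comm' M (fun x y => Subtype.ext (hM x x.2 y y.2)) r (rg_sub M hr)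
  have hanti := ch_anti M hM hMn
  have h1 := hchb (fun i => (ch M hM i).subgroupOf M)
    (fun i j hij => Subgroup.comap_mono (hanti hij)) (Finset.range (r + 1)) (by
      intro i hi hPC
      rw [Finset.mem_range] at hi
      have hnei : ch M hM i ≠ ⊥ := by
        intro h0
        apply hne
        rw [eq_bot_iff]
        exact (hanti (by omega : i ≤ r)).trans h0.le
      apply hnei
      refine strict M hM hnil htf hMn i (le_antisymm (ch_succ_le M hM hMn i) ?_)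
      intro x hx
      have hxM := ch_le M hM i hx
      obtain ⟨n, hn, hxn⟩ := hPC ⟨x, hxM⟩ (by rw [Subgroup.mem_subgroupOf]; exact hx)
      rw [Subgroup.mem_subgroupOf] at hxn
      exact ch_iso M hM (i + 1) hxM hn hxn)
  rw [Finset.card_range] at h1
  omega

/-- the stability groups -/
def St (hMn : M.Normal) (k : ℕ) : Subgroup Γ where
  carrier := {g | ∀ i, ∀ m ∈ ch M hM i, g * m * g⁻¹ * m⁻¹ ∈ ch M hM (i + k + 1)}
  one_mem' := by
    intro i m _
    have : (1 : Γ) * m * 1⁻¹ * m⁻¹ = 1 := by group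
    rw [this]
    exact Subgroup.one_mem _
  mul_mem' := by
    intro g h hg hh i m hm
    have e : (g * h) * m * (g * h)⁻¹ * m⁻¹ =
        (g * (h * m * h⁻¹ * m⁻¹) * g⁻¹) * (g * m * g⁻¹ * m⁻¹) := by group
    rw [e]
    exact Subgroup.mul_mem _ ((ch_normal M hM hMn _).conj_mem _ (hh i m hm) g) (hg i m hm)
  inv_mem' := by
    intro g hg i m hm
    have e : g⁻¹ * m * g⁻¹⁻¹ * m⁻¹ = g⁻¹ * (g * m * g⁻¹ * m⁻¹)⁻¹ * g⁻¹⁻¹ := by group
    rw [e]
    exact (ch_normal M hM hMn _).conj_mem _ (Subgroup.inv_mem _ (hg i m hm)) g⁻¹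

theorem St_normal (hMn : M.Normal) (k : ℕ) : (St M hM hMn k).Normal := by
  refine ⟨fun g hg h i m hm => ?_⟩
  have h1 : h⁻¹ * m * h⁻¹⁻¹ ∈ ch M hM i := (ch_normal M hM hMn i).conj_mem m hm h⁻¹
  have h2 := (ch_normal M hM hMn (i + k + 1)).conj_mem _ (hg i _ h1) h
  have e : h * (g * (h⁻¹ * m * h⁻¹⁻¹) * g⁻¹ * (h⁻¹ * m * h⁻¹⁻¹)⁻¹) * h⁻¹ =
      (h * g * h⁻¹) * m * (h * g * h⁻¹)⁻¹ * m⁻¹ := by group
  rwa [e] at h2

theorem St_comm (hMn : M.Normal) (k : ℕ) (x : Γ) (hx : x ∈ St M hM hMn k) (y : Γ)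
    (hy : y ∈ St M hM hMn k) : x * y * x⁻¹ * y⁻¹ ∈ St M hM hMn (k + 1) := by
  intro i m' hm'
  have hanti := ch_anti M hM hMn
  obtain ⟨m, hm, rfl⟩ : ∃ m ∈ ch M hM i, y * (x * m * x⁻¹) * y⁻¹ = m' := by
    refine ⟨(y * x)⁻¹ * m' * (y * x)⁻¹⁻¹, (ch_normal M hM hMn i).conj_mem m' hm' _, ?_⟩
    group
  have hu : x * m * x⁻¹ * m⁻¹ ∈ ch M hM (i + k + 1) := hx i m hm
  have hv : y * m * y⁻¹ * m⁻¹ ∈ ch M hM (i + k + 1) := hy i m hm
  have ha := hx _ _ hv
  have hb := hy _ _ hu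
  set u := x * m * x⁻¹ * m⁻¹ with hu'
  set v := y * m * y⁻¹ * m⁻¹ with hv'
  have huv : u * v = v * u := hM u (ch_le M hM _ hu) v (ch_le M hM _ hv)
  have hle : ch M hM (i + k + 1 + k + 1) ≤ ch M hM (i + (k + 1) + 1) := hanti (by omega)
  have e1 : x * (y * m * y⁻¹) * x⁻¹ = (x * v * x⁻¹ * v⁻¹) * v * u * m := by
    rw [hu', hv']
    group
  have e2 : y * (x * m * x⁻¹) * y⁻¹ = (y * u * y⁻¹ * u⁻¹) * u * v * m := by
    rw [hu', hv']
    group
  have e3 : x * y * x⁻¹ * y⁻¹ * (y * (x * m * x⁻¹) * y⁻¹) * (x * y * x⁻¹ * y⁻¹)⁻¹ *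
      (y * (x * m * x⁻¹) * y⁻¹)⁻¹ =
      (x * (y * m * y⁻¹) * x⁻¹) * (y * (x * m * x⁻¹) * y⁻¹)⁻¹ := by
    group
  have e4 : (x * v * x⁻¹ * v⁻¹) * v * u * m * ((y * u * y⁻¹ * u⁻¹) * u * v * m)⁻¹ =
      (x * v * x⁻¹ * v⁻¹) * (y * u * y⁻¹ * u⁻¹)⁻¹ := by
    generalize x * v * x⁻¹ * v⁻¹ = a
    generalize y * u * y⁻¹ * u⁻¹ = b
    have h1 : a * v * u * m * (b * u * v * m)⁻¹ = a * ((v * u) * (u * v)⁻¹) * b⁻¹ := by group
    rw [h1, huv, mul_inv_cancel, mul_one]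
  rw [e3, e1, e2, e4]
  exact Subgroup.mul_mem _ (hle ha) (Subgroup.inv_mem _ (hle hb))

end chain

end NilSAux

open NilSAux in
theorem exists_nil_series {Γ : Type*} [Group Γ] [Group.IsNilpotent Γ]
    (htf : ∀ x : Γ, ∀ n : ℕ, 0 < n → x ^ n = 1 → x = 1) (r : ℕ) (hr : RG r (⊤ : Subgroup Γ)) :
    ∃ D : ℕ → Subgroup Γ, D 0 = ⊤ ∧ D r = ⊥ ∧ (∀ k, (D k).Normal) ∧ (∀ k, D (k + 1) ≤ D k) ∧
      ∀ k, ∀ x ∈ D k, ∀ y ∈ D k, x * y * x⁻¹ * y⁻¹ ∈ D (k + 1) := by
  classical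
  have hnil : Group.IsNilpotent Γ := inferInstance
  rcases Nat.eq_zero_or_pos r with h0 | hpos
  · subst h0
    have htriv : (⊤ : Subgroup Γ) = ⊥ := by
      rw [eq_bot_iff]
      intro x _
      obtain ⟨s, hs, hs'⟩ := hr (Subgroup.zpowers x) le_top
        ⟨{x}, by rw [Finset.coe_singleton, Subgroup.zpowers_eq_closure]⟩
      have h1 : s = ∅ := Finset.card_eq_zero.1 (Nat.le_zero.1 hs)
      rw [h1, Finset.coe_empty, Subgroup.closure_empty] at hs'
      have h2 : x ∈ Subgroup.zpowers x := Subgroup.mem_zpowers x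
      rw [← hs'] at h2
      exact h2
    refine ⟨fun _ => ⊥, htriv.symm, rfl, fun _ => inferInstance, fun _ => le_rfl, ?_⟩
    intro k x hx y hy
    rw [Subgroup.mem_bot] at hx hy ⊢
    rw [hx, hy]
    group
  · obtain ⟨M, hMn, hM, hMC⟩ := exists_max_ab hnil
    have hbot := ch_bot M hM hnil htf hMn r hr
    have hanti := ch_anti M hM hMn
    refine ⟨fun k => if k < r then St M hM hMn k else ⊥, ?_, ?_, ?_, ?_, ?_⟩
    · show (if 0 < r then St M hM hMn 0 else ⊥) = ⊤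
      rw [if_pos hpos, eq_top_iff]
      intro g _ i m hm
      exact comm_mem M hM hMn i hm g
    · show (if r < r then St M hM hMn r else ⊥) = ⊥
      rw [if_neg (lt_irrefl r)]
    · intro k
      show (if k < r then St M hM hMn k else ⊥).Normal
      split_ifs
      · exact St_normal M hM hMn k
      · infer_instance
    · intro k
      show (if k + 1 < r then St M hM hMn (k + 1) else ⊥) ≤ if k < r then St M hM hMn k else ⊥
      by_cases h1 : k + 1 < r
      · rw [if_pos h1, if_pos (by omega)]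
        intro g hg i m hm
        exact hanti (by omega : i + k + 1 ≤ i + (k + 1) + 1) (hg i m hm)
      · rw [if_neg h1]
        exact bot_le
    · intro k x hx y hy
      have hx' : x ∈ (if k < r then St M hM hMn k else ⊥) := hx
      have hy' : y ∈ (if k < r then St M hM hMn k else ⊥) := hy
      show x * y * x⁻¹ * y⁻¹ ∈ if k + 1 < r then St M hM hMn (k + 1) else ⊥
      by_cases h1 : k + 1 < r
      · rw [if_pos h1]
        rw [if_pos (by omega)] at hx' hy'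
        exact St_comm M hM hMn k x hx' y hy'
      · rw [if_neg h1, Subgroup.mem_bot]
        by_cases h2 : k < r
        · rw [if_pos h2] at hx' hy'
          have hcen : ∀ g ∈ St M hM hMn k, g ∈ M := by
            intro g hg
            apply hMC
            intro m hm
            have h3 := hg 0 m hm
            have h4 : 0 + k + 1 = r := by omega
            rw [h4, hbot, Subgroup.mem_bot] at h3
            have h5 : g * m * g⁻¹ = m := mul_inv_eq_one.1 h3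
            exact (mul_inv_eq_iff_eq_mul.1 h5).symm
          have h6 := hM x (hcen x hx') y (hcen y hy')
          rw [h6]
          group
        · rw [if_neg h2, Subgroup.mem_bot] at hx' hy'
          rw [hx', hy']
          group

end P9700t
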