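import Mathlib
import Pool.Agent.Lib.P9700a.Rank
import Pool.Agent.Lib.P9700t.Defs
import Pool.Agent.Lib.P9700t.ChbA
import Pool.Agent.Lib.P9700t.ChbE
import Pool.Agent.Lib.P9700t.NilS

/-!
# Chains of subgroups in torsion-free nilpotent groups of rank `r`

* `chb_series`: induction on `t` (for all groups): `t = 0`: `Γ` is trivial. `t + 1`: `N = D t` is normal and commutative (`D (t + 1) = ⊥`), `FR N`, `RG r (⊤ : Subgroup N)` (subgroup of `Γ`), `CHB r N` by `chb_comm'`; `Γ ⧸ N` with the images of the `D k` (`RG r` passes to quotients: lift generators) has `CHB (r * t)`; `chb_ext`.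
* `chb_nilp`: `exists_nil_series`, `r * r = r ^ 2`.
-/

set_option autoImplicit false

namespace P9700t

open P9700a

namespace NilCAux

theorem rg_subgroup {Γ : Type*} [Group Γ] {r : ℕ} (hr : RG r (⊤ : Subgroup Γ)) (N : Subgroup Γ) :
    RG r (⊤ : Subgroup N) := by
  intro L _ hL
  obtain ⟨s, hs1, hs2⟩ := hr (L.map N.subtype) le_top (RankAux.fg_map N.subtype hL)
  obtain ⟨s', h1, h2⟩ := RankAux.lift_inj N.subtype (Subgroup.subtype_injective N) L s hs2
  exact ⟨s', h1.trans hs1, h2⟩

theorem rg_surj {G H : Type*} [Group G] [Group H] {r : ℕ} (f : G →* H)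
    (hf : Function.Surjective f) (hr : RG r (⊤ : Subgroup G)) : RG r (⊤ : Subgroup H) := by
  classical
  intro K _ hK
  obtain ⟨t, ht⟩ := hK
  obtain ⟨g, hg⟩ := hf.hasRightInverse
  obtain ⟨s, hs1, hs2⟩ := hr (Subgroup.closure ((t.image g : Finset G) : Set G)) le_top
    ⟨t.image g, rfl⟩
  refine ⟨s.image f, Finset.card_image_le.trans hs1, ?_⟩
  rw [Finset.coe_image, ← MonoidHom.map_closure, hs2, MonoidHom.map_closure, Finset.coe_image,
    Set.image_image]
  have : (fun x => f (g x)) '' (t : Set H) = (t : Set H) := by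
    have h1 : (fun x => f (g x)) = id := funext hg
    rw [h1, Set.image_id]
  rw [this, ht]

end NilCAux

open NilCAux

theorem chb_series (r t : ℕ) : ∀ (Γ : Type*) [Group Γ], RG r (⊤ : Subgroup Γ) →
    (∃ D : ℕ → Subgroup Γ, D 0 = ⊤ ∧ D t = ⊥ ∧ (∀ k, (D k).Normal) ∧ (∀ k, D (k + 1) ≤ D k) ∧
      ∀ k, ∀ x ∈ D k, ∀ y ∈ D k, x * y * x⁻¹ * y⁻¹ ∈ D (k + 1)) → CHB (r * t) Γ := by
  induction t with
  | zero =>
    rintro Γ _ _ ⟨D, hD0, hDt, -⟩ C hC I hI
    have hI' : I = ∅ := by
      apply Finset.eq_empty_of_forall_notMem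
      intro i hi
      apply hI i hi
      intro x _
      refine ⟨1, one_pos, ?_⟩
      have hx : x ∈ (⊤ : Subgroup Γ) := Subgroup.mem_top x
      rw [← hD0, hDt, Subgroup.mem_bot] at hx
      rw [hx, one_pow]
      exact (C (i + 1)).one_mem
    rw [hI']
    simp
  | succ t ih =>
    rintro Γ _ hr ⟨D, hD0, hDt, hn, hle, hcom⟩
    haveI : (D t).Normal := hn t
    have hab : ∀ x ∈ D t, ∀ y ∈ D t, x * y = y * x := by
      intro x hx y hy
      have h1 := hcom t x hx y hy
      rw [hDt, Subgroup.mem_bot] at h1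
      rw [mul_inv_eq_one, mul_inv_eq_iff_eq_mul] at h1
      exact h1
    have hFR : FR (D t) := FR.subgroup (D t) ⟨r, fun K hK => hr K le_top hK⟩
    have H1 : CHB r (D t) := by
      apply chb_comm' _ _ r (rg_subgroup hr (D t))
      intro x y
      exact Subtype.ext (hab x x.2 y y.2)
    have H2 : CHB (r * t) (Γ ⧸ D t) := by
      apply ih
      · exact rg_surj (QuotientGroup.mk' (D t)) (QuotientGroup.mk'_surjective _) hr
      · refine ⟨fun k => (D k).map (QuotientGroup.mk' (D t)), ?_, ?_, ?_, ?_, ?_⟩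
        · simp only
          rw [hD0]
          exact Subgroup.map_top_of_surjective _ (QuotientGroup.mk'_surjective _)
        · simp only
          rw [eq_bot_iff]
          rintro _ ⟨x, hx, rfl⟩
          rw [Subgroup.mem_bot]
          exact (QuotientGroup.eq_one_iff x).mpr hx
        · intro k
          exact (hn k).map _ (QuotientGroup.mk'_surjective _)
        · intro k
          exact Subgroup.map_mono (hle k)
        · rintro k _ ⟨x, hx, rfl⟩ _ ⟨y, hy, rfl⟩
          exact ⟨x * y * x⁻¹ * y⁻¹, hcom k x hx y hy, by simp⟩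
    have H3 := chb_ext (D t) hab hFR H1 H2
    exact H3.mono (by rw [Nat.mul_succ]; omega)

theorem chb_nilp {Γ : Type*} [Group Γ] [Group.IsNilpotent Γ]
    (htf : ∀ x : Γ, ∀ n : ℕ, 0 < n → x ^ n = 1 → x = 1) (r : ℕ) (hr : RG r (⊤ : Subgroup Γ)) :
    CHB (r ^ 2) Γ := by
  rw [sq]
  exact chb_series r r Γ hr (exists_nil_series htf r hr)

end P9700t
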