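import Mathlib
import Pool.Agent.Lib.P9700a.Rank
import Pool.Agent.Lib.P9700b.MainV
import Pool.Agent.Lib.P9700c.FinC
import Pool.Agent.Lib.P9700r.Fin
import Pool.Agent.Lib.P9700t.Defs

/-!
# One prime: `K` normal in `G = A B`, residually a finite `p`-group through normal subgroups of `G`

`exists_filt'`: `P9700r.exists_filt hp hK hc` gives `P : ℕ → Subgroup G` with `Filt p P`, `NP p K (P k)`; as in the proof of `P9700r.main_resid` (`P9700r/Fin.lean`) the intersection of the `P k` is trivial: `exists_le_of_gen` (`P9700r/Inter.lean`) gives `P k ≤ N` for each `N` with `NP p K N`, and these `N` have trivial intersection by `hinf`.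
`one_prime`: continue as in `P9700r/Fin.lean`: `exists_unif`, `exists_rep`, `base_change` give `σ : G →* Module.End F (Fin d → F)`, `F = AlgebraicClosure ℚ_[p]`, with `g ∈ σ.ker ↔ g` centralises `P m`; `Z = σ.ker ⊓ P m` is normal in `G`, commutative, `FR Z` by `fr_of_embed`.
`G ⧸ σ.ker` has a faithful representation: `main_plat` (see (i) in `P9700r/FinA.lean`) gives `FR (G ⧸ σ.ker)` and `VS (G ⧸ σ.ker)`. `P m → G ⧸ σ.ker` has kernel `Z` (as a subgroup of `P m`): `FR (P m)` by `FR.of_ker_range`; `VS (P m)`: if `Y1 ≤ G ⧸ σ.ker` is soluble of finite index, then its preimage in `P m` is soluble (abelian-by-soluble) of finite index.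
`P m` has finite index in `K` (`NP p K (P m)`): `FR.of_finiteIndex`, and `VS K` from `VS (P m)` (a finite index subgroup of `(P m).subgroupOf K`).
-/

set_option autoImplicit false

namespace P9700t

open P9700a P9700r

namespace OnePAux

theorem VS_of_inj {G H : Type*} [Group G] [Group H] (f : G →* H) (hf : Function.Injective f)
    (h : VS H) : VS G := by
  refine MainVAux.VS_of_two f f ⊥ ?_ ?_ h h
  · intro g hg _
    rw [Subgroup.mem_bot]
    exact hf (hg.trans (map_one f).symm)
  · exact Group.isSolvable_of_comm fun x y => by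
      rw [Subsingleton.elim x y]

theorem VS_of_fi {K : Type*} [Group K] (H : Subgroup K) (hH : H.FiniteIndex) (h : VS H) :
    VS K := by
  obtain ⟨Y, hY, hs⟩ := h
  refine ⟨Y.map H.subtype, ⟨?_⟩, ?_⟩
  · rw [Subgroup.index_map_subtype]
    exact mul_ne_zero hY.index_ne_zero hH.index_ne_zero
  · have := hs
    let e := Y.equivMapOfInjective H.subtype H.subtype_injective
    exact Group.isSolvable_of_isSolvable_injective (f := e.symm.toMonoidHom) e.symm.injective

end OnePAux

theorem exists_filt' {G : Type*} [Group G] {p : ℕ} (hp : p.Prime) (K : Subgroup G) (hK : K.Normal)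
    {c : ℕ} (hc : EB p K c) (hinf : ∀ g : G, (∀ N, NP p K N → g ∈ N) → g = 1) :
    ∃ P : ℕ → Subgroup G, Filt p P ∧ (∀ k, NP p K (P k)) ∧ ∀ g : G, (∀ k, g ∈ P k) → g = 1 := by
  obtain ⟨P, hP, hNP, hgen⟩ := exists_filt hp (G0 := K) hK hc
  refine ⟨P, hP, hNP, fun g hg => hinf g fun N hN => ?_⟩
  obtain ⟨k, hk⟩ := exists_le_of_gen hp (G0 := K) hK P (hNP 0).2.1
    hP.normal hP.anti hgen hN
  exact hk (hg k)

open OnePAux in
theorem one_prime {G : Type*} [Group G] {p : ℕ} (hp : p.Prime) (K : Subgroup G) (hK : K.Normal)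
    {c : ℕ} (hc : EB p K c) (hinf : ∀ g : G, (∀ N, NP p K N → g ∈ N) → g = 1)
    (A B : Subgroup G) (hA : FR A) (hB : FR B) (hAB : ∀ g : G, ∃ a ∈ A, ∃ b ∈ B, g = a * b) :
    FR K ∧ VS K := by
  have : Fact p.Prime := ⟨hp⟩
  obtain ⟨P, hP, hNP, hinf'⟩ := exists_filt' hp K hK hc hinf
  obtain ⟨m, d, hu⟩ := hP.exists_unif hp
  obtain ⟨ρ, b, h1, h2, h3, h4⟩ := exists_rep hP hu hinf'
  obtain ⟨σ, hσ1, hσ2⟩ := base_change p d ρ
  have hker : ∀ g, g ∈ σ.ker ↔ ∀ x ∈ P m, g * x * g⁻¹ = x := by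
    intro g
    rw [MonoidHom.mem_ker, hσ2, h1]
  have hPn : (P m).Normal := hP.normal m
  have hZn : (σ.ker ⊓ P m).Normal := inferInstance
  have hb1 : b 1 = 0 := by
    have e := h3 1 (P m).one_mem 1 (P m).one_mem rfl
    rw [mul_one] at e
    exact left_eq_add.mp e
  have hZc : ∀ z ∈ σ.ker ⊓ P m, ∀ z' ∈ σ.ker ⊓ P m, z * z' = z' * z := by
    rintro z ⟨hz1, hz2⟩ z' ⟨hz1', hz2'⟩
    have := (hker z).1 hz1 z' hz2'
    calc z * z' = (z * z' * z⁻¹) * z := by group
      _ = z' * z := by rw [this]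
  have hZr : FR (σ.ker ⊓ P m : Subgroup G) := by
    refine fr_of_embed (AlgebraicClosure ℚ_[p]) G (Fin d → AlgebraicClosure ℚ_[p]) σ A B hA hB hAB
      (σ.ker ⊓ P m) hZn (fun g => fun j => emb p (b g j)) ?_ ?_ ?_
    · rintro z hz z' hz'
      have hc' : z * z' = z' * z := hZc z hz z' hz'
      ext j
      simp only [h3 z hz.2 z' hz'.2 hc', Pi.add_apply, map_add]
    · rintro z ⟨hz1, hz2⟩ hz
      apply h2 z hz2 1 (P m).one_mem
      rw [hb1]
      ext j
      have e := congrFun hz j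
      exact (map_eq_zero_iff (emb p) (emb_injective p)).1 e
    · rintro g z ⟨hz1, hz2⟩
      simp only [h4 g z hz2, hσ1]
  have hQ : FR (G ⧸ σ.ker) ∧ VS (G ⧸ σ.ker) := by
    let σ' : (G ⧸ σ.ker) →* Module.End (AlgebraicClosure ℚ_[p])
        (Fin d → AlgebraicClosure ℚ_[p]) := QuotientGroup.lift σ.ker σ (fun x hx => hx)
    have hσ' : ∀ g : G, σ' (g : G ⧸ σ.ker) = σ g := fun g => rfl
    have hinj : Function.Injective σ' := by
      intro x y
      induction x using QuotientGroup.induction_on with | H x => ?_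
      induction y using QuotientGroup.induction_on with | H y => ?_
      intro h
      rw [hσ', hσ'] at h
      rw [QuotientGroup.eq, MonoidHom.mem_ker, map_mul, ← h, ← map_mul, inv_mul_cancel, map_one]
    have hFR : ∀ C : Subgroup G, FR C → FR (C.map (QuotientGroup.mk' σ.ker)) := by
      intro C hC
      refine FR.of_surjective (((QuotientGroup.mk' σ.ker).subgroupMap C)) ?_ hC
      exact MonoidHom.subgroupMap_surjective _ _
    refine main_plat (AlgebraicClosure ℚ_[p]) (G ⧸ σ.ker) (Fin d → AlgebraicClosure ℚ_[p]) σ' hinj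
      _ _ (hFR A hA) (hFR B hB) ?_
    intro x
    induction x using QuotientGroup.induction_on with | H x => ?_
    obtain ⟨a, ha, b, hb, rfl⟩ := hAB x
    exact ⟨_, ⟨a, ha, rfl⟩, _, ⟨b, hb, rfl⟩, rfl⟩
  let f : P m →* G ⧸ σ.ker := (QuotientGroup.mk' σ.ker).comp (P m).subtype
  have hfk : ∀ x : P m, f x = 1 → (x : G) ∈ σ.ker := fun x hx =>
    (QuotientGroup.eq_one_iff (x : G)).1 hx
  have hPr : FR (P m) := by
    refine FR.of_ker_range f ?_ (FR.subgroup _ hQ.1)
    let k : f.ker →* (σ.ker ⊓ P m : Subgroup G) :=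
      { toFun := fun x => ⟨((x : P m) : G), hfk _ x.2, (x : P m).2⟩
        map_one' := rfl
        map_mul' := fun _ _ => rfl }
    have hk : Function.Injective k := fun x y h =>
      Subtype.ext (Subtype.ext (congrArg (fun z : (σ.ker ⊓ P m : Subgroup G) => (z : G)) h))
    exact FR.of_injective k hk hZr
  have hPs : VS (P m) := by
    refine MainVAux.VS_of_two f f f.ker (fun g hg _ => hg) ?_ hQ.2 hQ.2
    refine Group.isSolvable_of_comm fun x y => ?_
    exact Subtype.ext (Subtype.ext (hZc _ ⟨hfk _ x.2, (x : P m).2⟩ _ ⟨hfk _ y.2, (y : P m).2⟩))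
  have hfi : ((P m).subgroupOf K).FiniteIndex := by
    refine ⟨?_⟩
    obtain ⟨k, hk⟩ := (hNP m).2.2
    have e1 : ((P m).subgroupOf K).index = p ^ k := hk
    rw [e1]
    exact pow_ne_zero _ hp.ne_zero
  let k : (P m).subgroupOf K →* P m :=
    { toFun := fun x => ⟨((x : K) : G), Subgroup.mem_subgroupOf.mp x.2⟩
      map_one' := rfl
      map_mul' := fun _ _ => rfl }
  have hk : Function.Injective k := fun x y h =>
    Subtype.ext (Subtype.ext (congrArg (fun z : P m => (z : G)) h))
  exact ⟨FR.of_finiteIndex _ (FR.of_injective k hk hPr), VS_of_fi _ hfi (VS_of_inj k hk hPs)⟩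

end P9700t
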