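import Mathlib
import Pool.Agent.Lib.P9700a.Rank
import Pool.Agent.Lib.P9700r.Defs
import Pool.Agent.Lib.P9700r.Expo
import Pool.Agent.Lib.P9700t.Defs

/-!
# Passage to the quotient by `Rp p K`

`R = Rp p K`, `π = QuotientGroup.mk' R`, `K' = K.map π`. Note `R ≤ K` (`NP.self`).
* `np_comap`: if `NP p K' N'` then `NP p K (N'.comap π)` (normal; `N' ≤ K'` gives `N'.comap π ≤ K'.comap π = K ⊔ R = K`; relative indices of comaps under the surjection `π`: `Subgroup.relIndex_comap` or via `map`).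
* `np_map`: if `NP p K N` then `NP p K' (N.map π)` and `(N.map π).comap π = N` (`R ≤ N`, `Rp_le`).
* `eb_quot`: pull back the sections.
* `inf_quot`: if `g = π x` lies in all `N'` with `NP p K' N'`, then (`N' = N.map π`) `x ∈ N` for all `N` with `NP p K N`, so `x ∈ R`.
-/

set_option autoImplicit false

namespace P9700t

open P9700a P9700r

variable {G : Type*} [Group G] {p : ℕ} {K : Subgroup G}

theorem Rp_le_self (hK : K.Normal) : Rp p K ≤ K := Rp_le (NP.self p K hK)

private theorem comap_le (hK : K.Normal) {X : Subgroup (G ⧸ Rp p K)}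
    (h : X ≤ K.map (QuotientGroup.mk' (Rp p K))) :
    X.comap (QuotientGroup.mk' (Rp p K)) ≤ K := by
  intro x hx
  obtain ⟨k, hk, hkx⟩ := Subgroup.mem_map.1 (h (Subgroup.mem_comap.1 hx))
  have h1 : k⁻¹ * x ∈ Rp p K := by
    rw [QuotientGroup.mk'_apply, QuotientGroup.mk'_apply] at hkx
    exact QuotientGroup.eq.1 hkx
  have h2 := K.mul_mem hk (Rp_le_self hK h1)
  rwa [mul_inv_cancel_left] at h2

theorem np_comap (hK : K.Normal) {N' : Subgroup (G ⧸ Rp p K)}
    (h : NP p (K.map (QuotientGroup.mk' (Rp p K))) N') :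
    NP p K (N'.comap (QuotientGroup.mk' (Rp p K))) := by
  obtain ⟨h1, h2, k, h3⟩ := h
  refine ⟨h1.comap _, comap_le hK h2, k, ?_⟩
  rw [Subgroup.relIndex_comap, h3]

theorem np_map {N : Subgroup G} (h : NP p K N) :
    NP p (K.map (QuotientGroup.mk' (Rp p K))) (N.map (QuotientGroup.mk' (Rp p K))) ∧
      (N.map (QuotientGroup.mk' (Rp p K))).comap (QuotientGroup.mk' (Rp p K)) = N := by
  have h4 : (N.map (QuotientGroup.mk' (Rp p K))).comap (QuotientGroup.mk' (Rp p K)) = N := by
    refine Subgroup.comap_map_eq_self ?_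
    rw [QuotientGroup.ker_mk']
    exact Rp_le h
  obtain ⟨h1, h2, k, h3⟩ := h
  refine ⟨⟨h1.map _ (QuotientGroup.mk'_surjective _), Subgroup.map_mono h2, k, ?_⟩, h4⟩
  rw [← Subgroup.relIndex_comap, h4, h3]

theorem eb_quot (hK : K.Normal) {c : ℕ} (hc : EB p K c) :
    EB p (K.map (QuotientGroup.mk' (Rp p K))) c := by
  intro N M M1 hN hM hM1 h1 h2 h3 h4 h5
  have key := hc (N.comap (QuotientGroup.mk' (Rp p K))) (M.comap (QuotientGroup.mk' (Rp p K)))
    (M1.comap (QuotientGroup.mk' (Rp p K))) (np_comap hK hN) (hM.comap _) (hM1.comap _)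
    (Subgroup.comap_mono h1) (Subgroup.comap_mono h2) (comap_le hK h3) ?_ ?_
  · rwa [Subgroup.relIndex_comap,
      Subgroup.map_comap_eq_self_of_surjective (QuotientGroup.mk'_surjective _)] at key
  · intro x hx y hy
    rw [Subgroup.mem_comap] at hx hy ⊢
    simpa only [map_mul, map_inv] using h4 _ hx _ hy
  · intro x hx
    rw [Subgroup.mem_comap] at hx ⊢
    rw [map_pow]
    exact h5 _ hx

theorem inf_quot (g : G ⧸ Rp p K)
    (hg : ∀ N', NP p (K.map (QuotientGroup.mk' (Rp p K))) N' → g ∈ N') : g = 1 := by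
  obtain ⟨x, rfl⟩ := QuotientGroup.mk'_surjective (Rp p K) g
  have hx : x ∈ Rp p K := by
    unfold Rp
    rw [Subgroup.mem_sInf]
    intro N hN
    have h1 := hg _ (np_map hN).1
    have h2 : x ∈ (N.map (QuotientGroup.mk' (Rp p K))).comap (QuotientGroup.mk' (Rp p K)) :=
      Subgroup.mem_comap.2 h1
    rwa [(np_map hN).2] at h2
  rw [QuotientGroup.mk'_apply]
  exact (QuotientGroup.eq_one_iff x).2 hx

end P9700t
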