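import Mathlib
import Pool.Agent.Lib.P9700a.Rank
import Pool.Agent.Lib.P9700b.MainV
import Pool.Agent.Lib.P9700r.Defs
import Pool.Agent.Lib.P9700t.Defs
import Pool.Agent.Lib.P9700t.OneP
import Pool.Agent.Lib.P9700t.QuoP

/-!
# The section `K / Rp p K` has finite special rank and is soluble-by-finite; its periodic subgroups are finite `p`-groups

* `one_prime_s`: apply `one_prime` to `G ⧸ Rp p K`, `K.map π`, `A.map π`, `B.map π` (`eb_quot`, `inf_quot`; the images of `A`, `B` have finite rank by `FR.of_surjective`, their product is everything).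
* `torsion_free`: `Filt p P`, `Unif p P m d`, intersection of the `P k` trivial; `x ∈ P m`, `x ^ n = 1`, `n > 0` implies `x = 1`: if `x ≠ 1` let `k ≥ m` with `x ∈ P k`, `x ∉ P (k + 1)`. Write `n = p ^ a n'`, `p ∤ n'`. `x ^ (n') ∉ P (k + 1)` (otherwise, as `x ^ p ∈ P (k + 1)` by `Filt.pow`, `x ∈ P (k + 1)`), and `y ∈ P k`, `y ∉ P (k + 1)` implies
  `y ^ p ∈ P (k + 1)`, `y ^ p ∉ P (k + 2)` (`Unif.inj`). So `x ^ n ∉ P (k + a + 1)`.
* `per_index`: in `G ⧸ Rp p K` take `P` from `exists_filt'`, `m`, `d` from `exists_unif`. `X' = X.map π` consists of elements of finite order, so `X' ⊓ P m = ⊥` and `Nat.card X' = (X' ⊓ P m).relIndex X'` divides... `= (P m).relIndex X'`, which divides `(P m).relIndex K'` (`P m` normal, `X' ≤ K'`), a power of `p`; and `(Rp p K).relIndex X = Nat.card X'`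
  (`X' ≅ X ⧸ (Rp p K).subgroupOf X`).
-/

set_option autoImplicit false

namespace P9700t

open P9700a P9700r

theorem one_prime_s {G : Type*} [Group G] {p : ℕ} (hp : p.Prime) (K : Subgroup G) (hK : K.Normal)
    {c : ℕ} (hc : EB p K c) (A B : Subgroup G) (hA : FR A) (hB : FR B)
    (hAB : ∀ g : G, ∃ a ∈ A, ∃ b ∈ B, g = a * b) :
    FRs K (Rp p K) ∧ VSs K (Rp p K) := by
  have h1 : (K.map (QuotientGroup.mk' (Rp p K))).Normal :=
    hK.map _ (QuotientGroup.mk'_surjective _)
  refine one_prime hp (K.map (QuotientGroup.mk' (Rp p K))) h1 (eb_quot hK hc)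
    (fun g hg => inf_quot g hg) (A.map (QuotientGroup.mk' (Rp p K)))
    (B.map (QuotientGroup.mk' (Rp p K)))
    (FR.of_surjective ((QuotientGroup.mk' (Rp p K)).subgroupMap A)
      (MonoidHom.subgroupMap_surjective _ _) hA)
    (FR.of_surjective ((QuotientGroup.mk' (Rp p K)).subgroupMap B)
      (MonoidHom.subgroupMap_surjective _ _) hB) ?_
  intro g
  obtain ⟨g', rfl⟩ := QuotientGroup.mk'_surjective _ g
  obtain ⟨a, ha, b, hb, rfl⟩ := hAB g'
  exact ⟨_, Subgroup.mem_map_of_mem _ ha, _, Subgroup.mem_map_of_mem _ hb, map_mul _ _ _⟩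

namespace OnePsAux

theorem pow_ne {G : Type*} [Group G] {p : ℕ} (hp : p.Prime) {P : ℕ → Subgroup G}
    (h : Filt p P) {m d : ℕ} (hu : Unif p P m d) (n : ℕ) :
    0 < n → ∀ k, m ≤ k → ∀ y ∈ P k, y ∉ P (k + 1) → y ^ n ≠ 1 := by
  induction n using Nat.strong_induction_on with
  | _ n ih =>
    intro hn k hk y hy hy' hyn
    by_cases hpn : p ∣ n
    · obtain ⟨n', rfl⟩ := hpn
      have hn' : 0 < n' := Nat.pos_of_mul_pos_left hn |> fun h => by
        rcases Nat.eq_zero_or_pos n' with h0 | h0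
        · subst h0; simp at hn
        · exact h0
      have hlt : n' < p * n' := by
        have := hp.two_le
        nlinarith
      rw [pow_mul] at hyn
      refine ih n' hlt hn' (k + 1) (by omega) (y ^ p) (h.pow k y hy) ?_ hyn
      intro h1
      exact hy' (hu.inj k hk y hy h1)
    · have hcop : IsCoprime (p : ℤ) (n : ℤ) := by
        rw [Nat.isCoprime_iff_coprime]
        exact (Nat.Prime.coprime_iff_not_dvd hp).2 hpn
      obtain ⟨u, v, huv⟩ := hcop
      apply hy'
      have h1 : y = (y ^ p) ^ u * (y ^ n) ^ v := by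
        rw [← zpow_natCast y p, ← zpow_natCast y n, ← zpow_mul, ← zpow_mul, ← zpow_add]
        rw [show (p : ℤ) * u + (n : ℤ) * v = 1 by rw [← huv]; ring, zpow_one]
      rw [h1, hyn, one_zpow, mul_one]
      exact (P (k + 1)).zpow_mem (h.pow k y hy) u

end OnePsAux

theorem torsion_free {G : Type*} [Group G] {p : ℕ} (hp : p.Prime) {P : ℕ → Subgroup G}
    (h : Filt p P) {m d : ℕ} (hu : Unif p P m d) (hinf : ∀ g : G, (∀ k, g ∈ P k) → g = 1)
    (x : G) (hx : x ∈ P m) (n : ℕ) (hn : 0 < n) (hxn : x ^ n = 1) : x = 1 := by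
  classical
  by_contra hx1
  have hanti : Antitone P := antitone_nat_of_succ_le h.anti
  have hex : ∃ j, x ∉ P (m + j) := by
    by_contra hcon
    push Not at hcon
    apply hx1
    apply hinf
    intro k
    rcases le_total m k with hk | hk
    · obtain ⟨j, rfl⟩ := Nat.exists_eq_add_of_le hk
      exact hcon j
    · exact hanti hk hx
  have h1 := Nat.find_spec hex
  have h2 : Nat.find hex ≠ 0 := by
    intro h0
    rw [h0] at h1
    exact h1 hx
  obtain ⟨j, hj⟩ := Nat.exists_eq_succ_of_ne_zero h2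
  have h3 : x ∈ P (m + j) := by
    have := Nat.find_min hex (m := j) (by omega)
    push Not at this
    exact this
  rw [hj] at h1
  exact OnePsAux.pow_ne hp h hu n hn (m + j) (by omega) x h3 h1 hxn

theorem per_index {G : Type*} [Group G] {p : ℕ} (hp : p.Prime) (K : Subgroup G) (hK : K.Normal)
    {c : ℕ} (hc : EB p K c) (X : Subgroup G) (hXK : X ≤ K)
    (hX : ∀ x ∈ X, ∃ n : ℕ, 0 < n ∧ x ^ n ∈ Rp p K) : ∃ k : ℕ, (Rp p K).relIndex X = p ^ k := by
  have h1 : (K.map (QuotientGroup.mk' (Rp p K))).Normal :=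
    hK.map _ (QuotientGroup.mk'_surjective _)
  obtain ⟨P, hP, hNP, hinf⟩ := exists_filt' hp (K.map (QuotientGroup.mk' (Rp p K))) h1
    (eb_quot hK hc) (fun g hg => inf_quot g hg)
  obtain ⟨m, d, hu⟩ := hP.exists_unif hp
  have hbot : P m ⊓ X.map (QuotientGroup.mk' (Rp p K)) = ⊥ := by
    rw [eq_bot_iff]
    rintro g ⟨hg1, hg2⟩
    obtain ⟨x, hx, rfl⟩ := hg2
    obtain ⟨n, hn, hxn⟩ := hX x hx
    rw [Subgroup.mem_bot]
    refine torsion_free hp hP hu hinf _ hg1 n hn ?_
    rw [← map_pow]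
    exact (QuotientGroup.eq_one_iff _).2 hxn
  have h2 : (Rp p K).relIndex X = (P m).relIndex (X.map (QuotientGroup.mk' (Rp p K))) := by
    have h3 := Subgroup.relIndex_ker X (QuotientGroup.mk' (Rp p K))
    rw [QuotientGroup.ker_mk'] at h3
    rw [h3, ← Subgroup.inf_relIndex_right, hbot, Subgroup.relIndex_bot_left]
  obtain ⟨-, -, k, hk⟩ := hNP m
  have hPn := hP.normal m
  have hle : X.map (QuotientGroup.mk' (Rp p K)) ≤ K.map (QuotientGroup.mk' (Rp p K)) :=
    Subgroup.map_mono hXK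
  have h4 : (P m).relIndex (X.map (QuotientGroup.mk' (Rp p K))) ∣
      (P m).relIndex (K.map (QuotientGroup.mk' (Rp p K))) := by
    rw [← Subgroup.relIndex_subgroupOf hle]
    exact Subgroup.relIndex_dvd_index_of_normal _ _
  rw [hk] at h4
  obtain ⟨j, -, hj⟩ := (Nat.dvd_prime_pow hp).1 h4
  exact ⟨j, h2.trans hj⟩

end P9700t
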