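import Mathlib

/-!
# The transfer argument of Tate's theorem

`D := K.subgroupOf P` is a nontrivial normal subgroup of the finite `p`-group `P`, so `⁅D, ⊤⁆ < D` and there is a
nontrivial homomorphism `χ : D →* ZMod p` (written multiplicatively) with `χ (x d x⁻¹) = χ d` for `x : P`.
`Γ ≤ Q × P` is the group of the pairs `(g, x)` with `x⁻¹ * g ∈ K`, `H` the subgroup of the pairs with `g ∈ P`; its index `n` is
prime to `p`. `φ : H →* ZMod p`, `φ (g, x) = χ (x * g⁻¹)`, and `τ : Γ →* ZMod p` its transfer. For `d ∈ D` we have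
`τ (1, d) = (χ d) ^ n`, and `τ (k, 1) = 1` for `k ∈ K`, as `K` is generated by elements of order prime to `p`. Take
`f x = τ (x, x)`; for `d ∈ D` we have `f d = τ (d, 1) * τ (1, d) = (χ d) ^ n`.
-/

set_option autoImplicit false

open scoped commutatorElement

namespace P9700t

namespace TateCAux

theorem exists_char {A : Type*} [Group A] [Finite A] [Nontrivial A] {p : ℕ} [hp : Fact p.Prime]
    (hA : IsPGroup p A) : ∃ χ : A →* Multiplicative (ZMod p), ∃ a, χ a ≠ 1 := by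
  obtain ⟨n, hn⟩ := IsPGroup.iff_card.1 hA
  have hn0 : n ≠ 0 := by
    rintro rfl
    rw [pow_zero] at hn
    exact absurd hn (Finite.one_lt_card (α := A)).ne'
  obtain ⟨M, hM⟩ := Sylow.exists_subgroup_card_pow_prime (G := A) p (n := n - 1)
    (by rw [hn]; exact pow_dvd_pow p (by omega))
  have hidx : M.index = p := by
    have h1 := M.card_mul_index
    rw [hM, hn] at h1
    have h2 : p ^ n = p ^ (n - 1) * p := by
      rw [← pow_succ]
      congr 1
      omega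
    rw [h2] at h1
    exact Nat.eq_of_mul_eq_mul_left (pow_pos hp.out.pos _) h1
  have hnorm : M.Normal := by
    apply Subgroup.normal_of_index_eq_minFac_card
    rw [hidx, hn, hp.out.pow_minFac hn0]
  have hcard : Nat.card (A ⧸ M) = p := hidx
  have hcard2 : Nat.card (Multiplicative (ZMod p)) = p := by
    rw [Nat.card_congr Multiplicative.toAdd, Nat.card_zmod]
  let θ := mulEquivOfPrimeCardEq hcard hcard2
  have : Nontrivial (A ⧸ M) := by
    apply Finite.one_lt_card_iff_nontrivial.1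
    rw [hcard]
    exact hp.out.one_lt
  obtain ⟨b, hb⟩ := exists_ne (1 : A ⧸ M)
  obtain ⟨a, rfl⟩ := QuotientGroup.mk'_surjective M b
  refine ⟨θ.toMonoidHom.comp (QuotientGroup.mk' M), a, fun h => hb ?_⟩
  exact (MulEquiv.map_eq_one_iff θ).1 h

theorem transfer_pow {G : Type*} [Group G] {H : Subgroup G} {A : Type*} [CommGroup A] (φ : H →* A)
    [H.FiniteIndex] (g : G) (c : A)
    (key : ∀ (k : ℕ) (g₀ : G) (h : g₀⁻¹ * g ^ k * g₀ ∈ H), φ ⟨g₀⁻¹ * g ^ k * g₀, h⟩ = c ^ k) :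
    MonoidHom.transfer φ g = c ^ H.index := by
  classical
  let _ := H.fintypeQuotientOfFiniteIndex
  rw [MonoidHom.transfer_eq_prod_quotient_orbitRel_zpowers_quot, Subgroup.index_eq_sum_minimalPeriod H g,
    ← Finset.prod_pow_eq_pow_sum]
  exact Finset.prod_congr rfl fun q _ => key _ _ _

/-- an invariant character -/
theorem exists_inv_char {P : Type*} [Group P] [Finite P] {p : ℕ} [hp : Fact p.Prime]
    (hP : IsPGroup p P) (D : Subgroup P) [hD : D.Normal] (hne : D ≠ ⊥) :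
    ∃ χ : D →* Multiplicative (ZMod p), (∃ d, χ d ≠ 1) ∧
      ∀ (x d : P) (hd : d ∈ D) (h : x * d * x⁻¹ ∈ D), χ ⟨x * d * x⁻¹, h⟩ = χ ⟨d, hd⟩ := by
  have hle : ⁅D, (⊤ : Subgroup P)⁆ ≤ D := Subgroup.commutator_le_left D ⊤
  have hlt : ⁅D, (⊤ : Subgroup P)⁆ ≠ D := by
    intro heq
    have hall : ∀ n, D ≤ (⊤ : Subgroup P).lowerCentralSeries n := by
      intro n
      induction n with
      | zero => exact le_top
      | succ n ih =>
        rw [Subgroup.lowerCentralSeries_succ, ← heq]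
        exact Subgroup.commutator_mono ih le_rfl
    obtain ⟨n, hn⟩ := Subgroup.nilpotent_iff_lowerCentralSeries.1 hP.isNilpotent
    exact hne (le_bot_iff.1 (hn ▸ hall n))
  let D1 : Subgroup D := (⁅D, (⊤ : Subgroup P)⁆).subgroupOf D
  have : D1.Normal := inferInstance
  have : Nontrivial (D ⧸ D1) := by
    rw [QuotientGroup.nontrivial_iff]
    intro h
    rw [Subgroup.subgroupOf_eq_top] at h
    exact hlt (le_antisymm hle h)
  obtain ⟨χ0, b, hb⟩ := exists_char (A := D ⧸ D1) (p := p) ((hP.to_subgroup D).to_quotient D1)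
  obtain ⟨d, rfl⟩ := QuotientGroup.mk'_surjective D1 b
  refine ⟨χ0.comp (QuotientGroup.mk' D1), ⟨d, hb⟩, fun x d hd h => ?_⟩
  rw [MonoidHom.comp_apply, MonoidHom.comp_apply]
  congr 1
  rw [QuotientGroup.mk'_apply, QuotientGroup.mk'_apply, QuotientGroup.eq]
  change (x * d * x⁻¹)⁻¹ * d ∈ ⁅D, (⊤ : Subgroup P)⁆
  have h1 : (x * d * x⁻¹)⁻¹ * d = ⁅x, d⁻¹⁆ := by
    rw [commutatorElement_def]
    group
  rw [h1, Subgroup.commutator_comm]
  exact Subgroup.commutator_mem_commutator (Subgroup.mem_top x) (D.inv_mem hd)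

end TateCAux

theorem tate_core {Q : Type*} [Group Q] [Finite Q] {p : ℕ} [Fact p.Prime] (P K : Subgroup Q)
    (hP : IsPGroup p P) (hPi : ¬ p ∣ P.index) (hK : K.Normal) (S : Set Q)
    (hS : Subgroup.closure S = K) (hSp : ∀ s ∈ S, ¬ p ∣ orderOf s) (hne : P ⊓ K ≠ ⊥) :
    ∃ f : P →* Multiplicative (ZMod p), ∃ x : P, (x : Q) ∈ K ∧ f x ≠ 1 := by
  classical
  let D : Subgroup P := K.subgroupOf P
  have hDn : D.Normal := inferInstance
  have hD : D ≠ ⊥ := by
    intro h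
    apply hne
    rw [eq_bot_iff]
    rintro x ⟨hxP, hxK⟩
    have h1 : (⟨x, hxP⟩ : P) ∈ D := hxK
    rw [h, Subgroup.mem_bot] at h1
    exact congrArg Subtype.val h1
  obtain ⟨χ, ⟨d0, hd0⟩, hinv⟩ := TateCAux.exists_inv_char hP D hD
  let Γ : Subgroup (Q × P) :=
    { carrier := {y | (y.2 : Q)⁻¹ * y.1 ∈ K}
      mul_mem' := by
        rintro ⟨g, x⟩ ⟨g', x'⟩ h h'
        change (x : Q)⁻¹ * g ∈ K at h
        change (x' : Q)⁻¹ * g' ∈ K at h'
        change ((x : Q) * x')⁻¹ * (g * g') ∈ K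
        have h1 : ((x : Q) * x')⁻¹ * (g * g') =
            ((x' : Q)⁻¹ * ((x : Q)⁻¹ * g) * (x' : Q)⁻¹⁻¹) * ((x' : Q)⁻¹ * g') := by group
        rw [h1]
        exact K.mul_mem (hK.conj_mem _ h _) h'
      one_mem' := by
        change ((1 : P) : Q)⁻¹ * 1 ∈ K
        rw [Subgroup.coe_one, inv_one, one_mul]
        exact K.one_mem
      inv_mem' := by
        rintro ⟨g, x⟩ h
        change (x : Q)⁻¹ * g ∈ K at h
        change ((x : Q)⁻¹)⁻¹ * g⁻¹ ∈ K
        have h1 : ((x : Q)⁻¹)⁻¹ * g⁻¹ = (x : Q) * ((x : Q)⁻¹ * g)⁻¹ * (x : Q)⁻¹ := by group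
        rw [h1]
        exact hK.conj_mem _ (K.inv_mem h) _ }
  let π : Γ →* Q := (MonoidHom.fst Q P).comp Γ.subtype
  let H : Subgroup Γ := P.comap π
  have hn : ¬ p ∣ H.index := by
    change ¬ p ∣ (P.comap π).index
    rw [Subgroup.index_comap]
    intro h
    apply hPi
    have hle : P ≤ π.range := fun x hx => ⟨⟨(x, ⟨x, hx⟩), by
      change (x : Q)⁻¹ * x ∈ K
      rw [inv_mul_cancel]
      exact K.one_mem⟩, rfl⟩
    rw [← Subgroup.relIndex_mul_index hle]
    exact Dvd.dvd.mul_right h _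
  have hφ : ∀ h : H, ((h : Γ) : Q × P).2 * (⟨((h : Γ) : Q × P).1, h.2⟩ : P)⁻¹ ∈ D := by
    rintro ⟨⟨⟨g, x⟩, hgx⟩, hg⟩
    change (x : Q)⁻¹ * g ∈ K at hgx
    change (x : Q) * g⁻¹ ∈ K
    have h1 : (x : Q) * g⁻¹ = (x : Q) * ((x : Q)⁻¹ * g)⁻¹ * (x : Q)⁻¹ := by group
    rw [h1]
    exact hK.conj_mem _ (K.inv_mem hgx) _
  let φ : H →* Multiplicative (ZMod p) :=
    { toFun := fun h => χ ⟨_, hφ h⟩
      map_one' := by
        rw [← map_one χ]
        congr 1
        apply Subtype.ext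
        change (1 : P) * (1 : P)⁻¹ = 1
        rw [inv_one, mul_one]
      map_mul' := by
        intro h h'
        rw [mul_comm, ← hinv ((h : Γ) : Q × P).2 _ (hφ h') (hDn.conj_mem _ (hφ h') _), ← map_mul]
        congr 1
        apply Subtype.ext
        change (((h : Γ) : Q × P).2 * ((h' : Γ) : Q × P).2) *
          ((⟨((h : Γ) : Q × P).1, h.2⟩ : P) * (⟨((h' : Γ) : Q × P).1, h'.2⟩ : P))⁻¹ = _
        change _ = ((h : Γ) : Q × P).2 * (((h' : Γ) : Q × P).2 *
          (⟨((h' : Γ) : Q × P).1, h'.2⟩ : P)⁻¹) * (((h : Γ) : Q × P).2)⁻¹ *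
          (((h : Γ) : Q × P).2 * (⟨((h : Γ) : Q × P).1, h.2⟩ : P)⁻¹)
        group }
  let τ : Γ →* Multiplicative (ZMod p) := MonoidHom.transfer φ
  let κ : K →* Γ :=
    { toFun := fun k => ⟨(k, 1), by
        change ((1 : P) : Q)⁻¹ * k ∈ K
        rw [Subgroup.coe_one, inv_one, one_mul]
        exact k.2⟩
      map_one' := rfl
      map_mul' := fun k k' => by
        apply Subtype.ext
        change (((k * k' : K) : Q), (1 : P)) = ((k : Q) * k', 1 * 1)
        rw [mul_one]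
        rfl }
  have hκ : ∀ k, τ (κ k) = 1 := by
    have hle : K ≤ ((τ.comp κ).ker).map K.subtype := by
      conv_lhs => rw [← hS]
      rw [Subgroup.closure_le]
      intro s hs
      have hsK : s ∈ K := hS ▸ Subgroup.subset_closure hs
      refine ⟨⟨s, hsK⟩, ?_, rfl⟩
      change τ (κ ⟨s, hsK⟩) = 1
      have h1 : orderOf (τ (κ ⟨s, hsK⟩)) ∣ orderOf s := by
        have h2 := orderOf_map_dvd (τ.comp κ) ⟨s, hsK⟩
        rwa [Subgroup.orderOf_mk] at h2
      have h3 : orderOf (τ (κ ⟨s, hsK⟩)) ∣ p := by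
        have h4 := orderOf_dvd_natCard (τ (κ ⟨s, hsK⟩))
        rwa [Nat.card_congr Multiplicative.toAdd, Nat.card_zmod] at h4
      rcases (Nat.dvd_prime (Fact.out : p.Prime)).1 h3 with h5 | h5
      · exact orderOf_eq_one_iff.1 h5
      · rw [h5] at h1
        exact absurd h1 (hSp s hs)
    intro k
    obtain ⟨k', hk', hkk⟩ := hle k.2
    have h1 : k' = k := Subtype.ext hkk
    rw [← h1]
    exact hk'
  let lam : P →* Γ :=
    { toFun := fun x => ⟨(x, x), by
        change (x : Q)⁻¹ * x ∈ K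
        rw [inv_mul_cancel]
        exact K.one_mem⟩
      map_one' := rfl
      map_mul' := fun x x' => rfl }
  have hlam : ∀ d : D, τ (lam d) = (χ d) ^ H.index := by
    intro d
    have hdK : ((d : P) : Q) ∈ K := d.2
    have hmem : ((1 : Q), (d : P)) ∈ Γ := by
      change ((d : P) : Q)⁻¹ * 1 ∈ K
      rw [mul_one]
      exact K.inv_mem hdK
    have h1 : lam d = κ ⟨_, hdK⟩ * ⟨((1 : Q), (d : P)), hmem⟩ := by
      apply Subtype.ext
      change (((d : P) : Q), (d : P)) = (((d : P) : Q) * 1, 1 * (d : P))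
      rw [one_mul, mul_one]
    rw [h1, map_mul, hκ, one_mul]
    refine TateCAux.transfer_pow φ _ _ fun k g₀ h => ?_
    have hdk : (d : P) ^ k ∈ D := D.pow_mem d.2 k
    have h2 := hinv ((g₀ : Q × P).2)⁻¹ ((d : P) ^ k) hdk (hDn.conj_mem _ hdk _)
    have h3 : (⟨(d : P) ^ k, hdk⟩ : D) = d ^ k := Subtype.ext rfl
    rw [h3, map_pow] at h2
    rw [← h2]
    change χ _ = χ _
    congr 1
    apply Subtype.ext
    have h4 : (⟨((g₀ : Q × P).1)⁻¹ * (1 : Q) ^ k * (g₀ : Q × P).1, h⟩ : P) = 1 := by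
      apply Subtype.ext
      change ((g₀ : Q × P).1)⁻¹ * (1 : Q) ^ k * (g₀ : Q × P).1 = 1
      rw [one_pow, mul_one, inv_mul_cancel]
    change ((g₀ : Q × P).2)⁻¹ * (d : P) ^ k * (g₀ : Q × P).2 *
      (⟨((g₀ : Q × P).1)⁻¹ * (1 : Q) ^ k * (g₀ : Q × P).1, h⟩ : P)⁻¹ =
      ((g₀ : Q × P).2)⁻¹ * (d : P) ^ k * (((g₀ : Q × P).2)⁻¹)⁻¹
    rw [h4, inv_one, mul_one, inv_inv]
  refine ⟨τ.comp lam, d0, d0.2, fun h => ?_⟩
  change τ (lam d0) = 1 at h
  rw [hlam] at h
  have h3 : orderOf (χ d0) ∣ p := by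
    have h4 := orderOf_dvd_natCard (χ d0)
    rwa [Nat.card_congr Multiplicative.toAdd, Nat.card_zmod] at h4
  rcases (Nat.dvd_prime (Fact.out : p.Prime)).1 h3 with h5 | h5
  · exact hd0 (orderOf_eq_one_iff.1 h5)
  · have h6 := orderOf_dvd_of_pow_eq_one h
    rw [h5] at h6
    exact hn h6

end P9700t
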