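import Mathlib
import Pool.Agent.Lib.P9700t.TateC

/-!
# Tate's theorem on normal p-complements

If all homomorphisms from a Sylow `p`-subgroup `P` of a finite group `Q` to the group of order `p` are trivial on `P ⊓ N`,
then `N` has a normal `p`-complement: the subgroup `K` generated by the elements of `N` of order prime to `p`. By
`tate_core`, `P ⊓ K = ⊥`; an element of order `p` of `K` would be conjugate to one of `P ⊓ K`.
-/

set_option autoImplicit false

open scoped Pointwise

namespace P9700t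

theorem tate {Q : Type*} [Group Q] [Finite Q] {p : ℕ} [Fact p.Prime] (P N : Subgroup Q)
    (hP : IsPGroup p P) (hPi : ¬ p ∣ P.index) (hN : N.Normal)
    (h : ∀ f : P →* Multiplicative (ZMod p), ∀ x : P, (x : Q) ∈ N → f x = 1) :
    ∃ K : Subgroup Q, K.Normal ∧ K ≤ N ∧ ¬ p ∣ Nat.card K ∧ ∀ x ∈ N, ∃ k : ℕ, x ^ p ^ k ∈ K := by
  classical
  have hp : p.Prime := Fact.out
  let S : Set Q := {x | x ∈ N ∧ ¬ p ∣ orderOf x}
  let K : Subgroup Q := Subgroup.closure S
  have hKN : K ≤ N := (Subgroup.closure_le N).2 fun x hx => hx.1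
  have hK : K.Normal := by
    refine ⟨fun x hx g => ?_⟩
    have h1 : K.map (MulAut.conj g).toMonoidHom ≤ K := by
      show (Subgroup.closure S).map _ ≤ _
      rw [MonoidHom.map_closure, Subgroup.closure_le]
      rintro _ ⟨y, hy, rfl⟩
      refine Subgroup.subset_closure ⟨hN.conj_mem y hy.1 g, ?_⟩
      have h2 : orderOf ((MulAut.conj g).toMonoidHom y) = orderOf y :=
        orderOf_injective (MulAut.conj g).toMonoidHom (MulAut.conj g).injective y
      rw [h2]
      exact hy.2
    exact h1 (Subgroup.mem_map_of_mem _ hx)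
  have hPK : P ⊓ K = ⊥ := by
    by_contra hne
    obtain ⟨f, x, hx, hfx⟩ := tate_core P K hP hPi hK S rfl (fun s hs => hs.2) hne
    exact hfx (h f x (hKN hx))
  refine ⟨K, hK, hKN, fun hdvd => ?_, fun x hx => ?_⟩
  · obtain ⟨y, hy⟩ := exists_prime_orderOf_dvd_card' (G := K) p hdvd
    have hyo : orderOf (y : Q) = p := by rw [Subgroup.orderOf_coe, hy]
    have hyp : IsPGroup p (Subgroup.zpowers (y : Q)) := by
      refine IsPGroup.of_card (n := 1) ?_
      rw [Nat.card_zpowers, hyo, pow_one]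
    obtain ⟨R, hR⟩ := hyp.exists_le_sylow
    obtain ⟨g, hg⟩ := MulAction.exists_smul_eq Q R (hP.toSylow hPi)
    have h1 : (y : Q) ∈ (R : Subgroup Q) := hR (Subgroup.mem_zpowers _)
    have h2 : g * (y : Q) * g⁻¹ ∈ P := by
      have h3 : g * (y : Q) * g⁻¹ ∈ ((g • R : Sylow p Q) : Subgroup Q) := by
        show g * (y : Q) * g⁻¹ ∈ MulAut.conj g • (R : Subgroup Q)
        exact Subgroup.smul_mem_pointwise_smul (y : Q) (MulAut.conj g) (R : Subgroup Q) h1
      rw [hg] at h3
      exact h3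
    have h4 : g * (y : Q) * g⁻¹ ∈ P ⊓ K := ⟨h2, hK.conj_mem _ y.2 g⟩
    rw [hPK, Subgroup.mem_bot] at h4
    have h5 : (y : Q) = 1 := by
      have := congrArg (fun t => g⁻¹ * t * g) h4
      simpa [mul_assoc] using this
    rw [h5, orderOf_one] at hyo
    exact hp.one_lt.ne hyo
  · have hx0 : orderOf x ≠ 0 := (orderOf_pos x).ne'
    obtain ⟨k, m, hm, he⟩ := Nat.exists_eq_pow_mul_and_not_dvd hx0 p hp.ne_one
    refine ⟨k, Subgroup.subset_closure ⟨pow_mem hx _, ?_⟩⟩
    rw [orderOf_pow_of_dvd (pow_pos hp.pos k).ne' (he ▸ Dvd.intro m rfl), he,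
      Nat.mul_div_cancel_left _ (pow_pos hp.pos k)]
    exact hm

end P9700t
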