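import Mathlib
import Pool.Agent.Lib.P9700a.Rank
import Pool.Agent.Lib.P9700e.Defs
import Pool.Agent.Lib.P9700t.Tate
import Pool.Agent.Lib.P9700t.HomCard

/-!
# A subgroup of finite index all of whose finite quotients are p-nilpotent

`r` with `RK r A`, `RK r B` (`RK.mono`, maximum of the two). For `N` normal of finite index in `G` the finite group `G ⧸ N` is the product of the images of `A` and `B` (`RK.map`), so by `hom_card` every `S ≤ G ⧸ N` with `IsPGroup p S`, `¬ p ∣ S.index` has `Nat.card (S →* Multiplicative (ZMod p)) ≤ p ^ (2 * r)`.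
Let `c` be the largest natural number such that there are `N0` normal of finite index and `S0 ≤ G ⧸ N0` with `IsPGroup p S0`, `¬ p ∣ S0.index` and `Nat.card (S0 →* Multiplicative (ZMod p)) = c` (`Nat.findGreatest` or `Nat.sSup`; there is at least one as Sylow subgroups exist). Fix such `N0`, `S0`.
Let `N ≤ N0` be normal of finite index, `S` a Sylow `p`-subgroup of `G ⧸ N`, `π : G ⧸ N →* G ⧸ N0` (`QuotientGroup.map`, surjective). `S1 = S.map π` is a `p`-group of index prime to `p` (`Subgroup.index_map_dvd`-like), so it is a Sylow `p`-subgroup of `G ⧸ N0`, conjugate to `S0` (`IsPGroup.toSylow`, `Sylow` conjugacy), so `Nat.card (S1 →* _) = c`.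
The map `(S1 →* _) → (S →* _)`, composition with the surjection `S → S1`, is injective, and `Nat.card (S →* _) ≤ c` by maximality; so it is bijective (the sets are finite): each `f : S →* Multiplicative (ZMod p)` factors over `S1` and is trivial on the elements of `S` in `N0.map (mk' N)` (they are in the kernel of `π`).
`tate S (N0.map (mk' N))` gives `K1 ≤ G ⧸ N`; take `K = K1.comap (mk' N)`: `N.relIndex K = Nat.card K1`.
-/

set_option autoImplicit false

namespace P9700t

open P9700a P9700e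

namespace RedTAux

/-- the number `c` is attained by a Sylow subgroup of a finite quotient -/
def Att (G : Type*) [Group G] (p : ℕ) (c : ℕ) : Prop :=
  ∃ (N : Subgroup G) (_ : N.Normal), N.FiniteIndex ∧ ∃ S : Subgroup (G ⧸ N), IsPGroup p S ∧
    ¬ p ∣ S.index ∧ Nat.card (S →* Multiplicative (ZMod p)) = c

theorem att_le {G : Type*} [Group G] {p : ℕ} [Fact p.Prime] (A B : Subgroup G) {r : ℕ}
    (hA : RK r A) (hB : RK r B) (hAB : ∀ g : G, ∃ a ∈ A, ∃ b ∈ B, g = a * b) {c : ℕ}
    (h : Att G p c) : c ≤ p ^ (2 * r) := by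
  obtain ⟨N, hN, hNf, S, hS, hSi, rfl⟩ := h
  have : Finite (G ⧸ N) := Subgroup.finite_quotient_of_finiteIndex
  refine hom_card (A.map (QuotientGroup.mk' N)) (B.map (QuotientGroup.mk' N)) r (RK.map _ hA)
    (RK.map _ hB) ?_ S hS hSi
  intro g
  obtain ⟨g', rfl⟩ := QuotientGroup.mk'_surjective N g
  obtain ⟨a, ha, b, hb, rfl⟩ := hAB g'
  exact ⟨_, Subgroup.mem_map_of_mem _ ha, _, Subgroup.mem_map_of_mem _ hb, map_mul _ _ _⟩

theorem att_one (G : Type*) [Group G] {p : ℕ} [hp : Fact p.Prime] : ∃ c, Att G p c := by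
  refine ⟨_, ⊤, inferInstance, inferInstance, ⊤, ?_, ?_, rfl⟩
  · intro x
    refine ⟨0, ?_⟩
    rw [pow_zero, pow_one]
    have : Subsingleton (G ⧸ (⊤ : Subgroup G)) := QuotientGroup.subsingleton_quotient_top
    exact Subtype.ext (Subsingleton.elim _ _)
  · rw [Subgroup.index_top]
    exact hp.out.one_lt.ne' ∘ Nat.dvd_one.1

theorem fin_hom {S M : Type*} [Group S] [Finite S] [Group M] [Finite M] : Finite (S →* M) :=
  Finite.of_injective (fun f => (f : S → M)) DFunLike.coe_injective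

theorem card_hom {S T M : Type*} [Group S] [Group T] [Group M] (e : S ≃* T) :
    Nat.card (S →* M) = Nat.card (T →* M) := by
  refine Nat.card_congr
    { toFun := fun f => f.comp e.symm.toMonoidHom
      invFun := fun f => f.comp e.toMonoidHom
      left_inv := ?_
      right_inv := ?_ }
  · intro f
    ext x
    simp
  · intro f
    ext x
    simp

end RedTAux

open RedTAux

theorem exists_pnil {G : Type*} [Group G] {p : ℕ} [Fact p.Prime] (A B : Subgroup G) (hA : FR A)
    (hB : FR B) (hAB : ∀ g : G, ∃ a ∈ A, ∃ b ∈ B, g = a * b) :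
    ∃ N0 : Subgroup G, N0.Normal ∧ N0.FiniteIndex ∧ ∀ N : Subgroup G, N.Normal → N.FiniteIndex →
      N ≤ N0 → ∃ K : Subgroup G, K.Normal ∧ N ≤ K ∧ K ≤ N0 ∧ ¬ p ∣ N.relIndex K ∧
        ∀ x ∈ N0, ∃ k : ℕ, x ^ p ^ k ∈ K := by
  classical
  obtain ⟨r1, hr1⟩ := FR_iff.1 hA
  obtain ⟨r2, hr2⟩ := FR_iff.1 hB
  have hrA : RK (max r1 r2) A := hr1.mono (le_max_left _ _)
  have hrB : RK (max r1 r2) B := hr2.mono (le_max_right _ _)
  have hbdd : BddAbove {c | Att G p c} :=
    ⟨p ^ (2 * max r1 r2), fun c hc => att_le A B hrA hrB hAB hc⟩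
  have hne : {c | Att G p c}.Nonempty := att_one G
  have hmem : Att G p (sSup {c | Att G p c}) := Nat.sSup_mem hne hbdd
  have hmax : ∀ c, Att G p c → c ≤ sSup {c | Att G p c} := fun c hc => le_csSup hbdd hc
  generalize sSup {c | Att G p c} = c at hmem hmax
  obtain ⟨N0, hN0, hN0f, S0, hS0, hS0i, hc⟩ := hmem
  refine ⟨N0, hN0, hN0f, ?_⟩
  intro N hN hNf hle
  have : Finite (G ⧸ N) := Subgroup.finite_quotient_of_finiteIndex
  have : Finite (G ⧸ N0) := Subgroup.finite_quotient_of_finiteIndex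
  obtain ⟨S⟩ : Nonempty (Sylow p (G ⧸ N)) := inferInstance
  have hS : IsPGroup p (S : Subgroup (G ⧸ N)) := S.isPGroup'
  have hSi : ¬ p ∣ (S : Subgroup (G ⧸ N)).index := S.not_dvd_index
  let π : G ⧸ N →* G ⧸ N0 := QuotientGroup.map N N0 (MonoidHom.id G) (by
    rw [Subgroup.comap_id]; exact hle)
  have hπ : ∀ x : G, π (QuotientGroup.mk' N x) = QuotientGroup.mk' N0 x := fun x => rfl
  have hπs : Function.Surjective π := by
    intro y
    obtain ⟨x, rfl⟩ := QuotientGroup.mk'_surjective N0 y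
    exact ⟨QuotientGroup.mk' N x, hπ x⟩
  have hS1 : IsPGroup p ((S : Subgroup (G ⧸ N)).map π) := hS.map π
  have hS1i : ¬ p ∣ ((S : Subgroup (G ⧸ N)).map π).index := fun h =>
    hSi (h.trans (Subgroup.index_map_dvd _ hπs))
  have hcard : Nat.card (↥((S : Subgroup (G ⧸ N)).map π) →* Multiplicative (ZMod p)) = c := by
    rw [← hc]
    exact card_hom (Sylow.equiv (hS1.toSylow hS1i) (hS0.toSylow hS0i))
  have hSc : Nat.card (↥(S : Subgroup (G ⧸ N)) →* Multiplicative (ZMod p)) ≤ c :=
    hmax _ ⟨N, hN, hNf, S, hS, hSi, rfl⟩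
  let ρ : ↥(S : Subgroup (G ⧸ N)) →* ↥((S : Subgroup (G ⧸ N)).map π) := π.subgroupMap _
  have hρ : Function.Surjective ρ := MonoidHom.subgroupMap_surjective π _
  have hinj : Function.Injective
      (fun f : ↥((S : Subgroup (G ⧸ N)).map π) →* Multiplicative (ZMod p) => f.comp ρ) := by
    intro f g hfg
    ext y
    obtain ⟨x, rfl⟩ := hρ y
    exact congrArg _ (DFunLike.congr_fun hfg x)
  have : Finite (↥(S : Subgroup (G ⧸ N)) →* Multiplicative (ZMod p)) := fin_hom
  have hbij := hinj.bijective_of_nat_card_le (by rw [hcard]; exact hSc)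
  obtain ⟨K1, hK1, hK1le, hK1p, hK1x⟩ := tate (p := p) (S : Subgroup (G ⧸ N))
    (N0.map (QuotientGroup.mk' N)) hS hSi
    (hN0.map (QuotientGroup.mk' N) (QuotientGroup.mk'_surjective N)) (by
      intro f x hx
      obtain ⟨g, rfl⟩ := hbij.2 f
      obtain ⟨y, hy, hyx⟩ := Subgroup.mem_map.1 hx
      have h1 : ρ x = 1 := by
        apply Subtype.ext
        change π (x : G ⧸ N) = 1
        rw [← hyx, hπ]
        exact (QuotientGroup.eq_one_iff y).2 hy
      change g (ρ x) = 1
      rw [h1, map_one])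
  refine ⟨K1.comap (QuotientGroup.mk' N), hK1.comap _, ?_, ?_, ?_, ?_⟩
  · intro x hx
    rw [Subgroup.mem_comap]
    have h1 : QuotientGroup.mk' N x = 1 := (QuotientGroup.eq_one_iff x).2 hx
    rw [h1]
    exact K1.one_mem
  · intro x hx
    obtain ⟨y, hy, hyx⟩ := Subgroup.mem_map.1 (hK1le (Subgroup.mem_comap.1 hx))
    have h1 : y⁻¹ * x ∈ N := QuotientGroup.eq.1 hyx
    have h2 : y * (y⁻¹ * x) ∈ N0 := N0.mul_mem hy (hle h1)
    rwa [mul_inv_cancel_left] at h2
  · have h1 : N.relIndex (K1.comap (QuotientGroup.mk' N)) = Nat.card K1 := by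
      have h2 := Subgroup.relIndex_comap (⊥ : Subgroup (G ⧸ N)) (QuotientGroup.mk' N)
        (K1.comap (QuotientGroup.mk' N))
      rw [Subgroup.map_comap_eq_self_of_surjective (QuotientGroup.mk'_surjective N),
        Subgroup.relIndex_bot_left] at h2
      rw [← h2]
      congr 1
      rw [MonoidHom.comap_bot, QuotientGroup.ker_mk']
    rw [h1]
    exact hK1p
  · intro x hx
    obtain ⟨k, hk⟩ := hK1x _ (Subgroup.mem_map_of_mem _ hx)
    refine ⟨k, ?_⟩
    rw [Subgroup.mem_comap, map_pow]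
    exact hk

end P9700t
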