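import Mathlib
import Pool.Agent.Lib.P9700a.Rank
import Pool.Agent.Lib.P9700t.RedT

/-!
# Reduction of the residual hypothesis: odd order subgroups of the finite quotients are soluble

`exists_pnil` for `p = 2` gives `N0`. `G1 = N0 ⊓ G0.normalCore`: normal, of finite index in `G`, `G1 ≤ N0`, `G1 ≤ G0`. Let `1 ≠ g ∈ G1`. The hypothesis `hres` (for `g` as an element of `G0`) gives `N' ≤ G0` normal in `G0`, of finite index, `g ∉ N'`, all odd order subgroups of `G0 ⧸ N'` are soluble.
`N'' := (N'.map G0.subtype).subgroupOf G1 : Subgroup G1`: normal in `G1` (`G1 ≤ G0`), of finite index, `g ∉ N''`. We show that `G1 ⧸ N''` is soluble. Let `N = (N'.map G0.subtype ⊓ G1).normalCore` (in `G`): normal in `G`, of finite index, `N ≤ G1 ≤ N0`, and `N ≤ N'.map G0.subtype`.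
`exists_pnil` gives `K` normal in `G`, `N ≤ K ≤ N0`, `N.relIndex K` odd, and every `x ∈ N0` has a power `x ^ 2 ^ k ∈ K`. Let `M` be the image of `(K ⊓ G1).subgroupOf G1` in `G1 ⧸ N''`: normal; its order divides `N.relIndex (K ⊓ G1)`, which divides `N.relIndex K` (`N ≤ N''`), so it is odd.
`G1 ⧸ N''` embeds in `G0 ⧸ N'` (`QuotientGroup.map`, injective), and `M` is isomorphic to its image, an odd order subgroup of `G0 ⧸ N'`: so `M` is soluble. `(G1 ⧸ N'') ⧸ M` is a finite `2`-group (`x ^ 2 ^ k` of an element `x ∈ G1 ≤ N0` lies in `K ⊓ G1`), so nilpotent (`IsPGroup.isNilpotent`) and soluble. So `G1 ⧸ N''` is soluble (extension).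
-/

set_option autoImplicit false

universe u

namespace P9700t

open P9700a

namespace RedOddAux

/-- the main step: the range of `φ : G1 →* Q` is soluble -/
theorem range_solvable {G : Type*} [Group G] {Q : Type*} [Group Q] [Finite Q] (G1 : Subgroup G)
    (φ : G1 →* Q) (hodd : ∀ H : Subgroup Q, Odd (Nat.card H) → Group.IsSolvable H)
    (N K : Subgroup G) [K.Normal] (hNK : N ≤ K) (hN1 : N ≤ G1)
    (hNφ : N.subgroupOf G1 ≤ φ.ker) (hrel : ¬ 2 ∣ N.relIndex K)
    (hpow : ∀ x ∈ G1, ∃ k : ℕ, x ^ 2 ^ k ∈ K) : Group.IsSolvable φ.range := by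
  classical
  let K1 : Subgroup G1 := K.subgroupOf G1
  let M : Subgroup φ.range := K1.map φ.rangeRestrict
  have hMn : M.Normal := Subgroup.Normal.map inferInstance _ φ.rangeRestrict_surjective
  -- the order of `M` is odd
  have hM : Nat.card M ∣ N.relIndex K := by
    have h1 : Nat.card M = φ.ker.relIndex K1 := by
      rw [← MonoidHom.ker_rangeRestrict φ, Subgroup.relIndex_ker]
    rw [h1]
    refine (Subgroup.relIndex_dvd_of_le_left K1 hNφ).trans ?_
    have h2 : (N.subgroupOf G1).relIndex K1 = N.relIndex (K ⊓ G1) := by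
      have : K1 = (K ⊓ G1).subgroupOf G1 := (Subgroup.inf_subgroupOf_right K G1).symm
      rw [this, Subgroup.relIndex_subgroupOf inf_le_right]
    rw [h2]
    exact ⟨(K ⊓ G1).relIndex K,
      (Subgroup.relIndex_mul_relIndex _ _ _ (le_inf hNK hN1) inf_le_left).symm⟩
  have hMo : Odd (Nat.card M) := by
    rw [← Nat.not_even_iff_odd, even_iff_two_dvd]
    exact fun h => hrel (h.trans hM)
  have hinj : Function.Injective φ.range.subtype := Subtype.val_injective
  let e := M.equivMapOfInjective φ.range.subtype hinj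
  have hHo : Odd (Nat.card (M.map φ.range.subtype)) := by
    rw [← Nat.card_congr e.toEquiv]
    exact hMo
  have hHs := hodd _ hHo
  have hMs : Group.IsSolvable M :=
    Group.isSolvable_of_isSolvable_injective (f := e.toMonoidHom) e.injective
  -- the quotient is a `2`-group
  have hp : IsPGroup 2 (φ.range ⧸ M) := by
    intro q
    obtain ⟨⟨y, x, rfl⟩, rfl⟩ := QuotientGroup.mk'_surjective M q
    obtain ⟨k, hk⟩ := hpow x x.2
    refine ⟨k, ?_⟩
    rw [← map_pow, QuotientGroup.mk'_apply, QuotientGroup.eq_one_iff]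
    refine ⟨x ^ 2 ^ k, ?_, ?_⟩
    · exact hk
    · rw [map_pow]
      rfl
  have : Fact (Nat.Prime 2) := ⟨Nat.prime_two⟩
  have hnil : Group.IsNilpotent (φ.range ⧸ M) := hp.isNilpotent
  rw [Group.isSolvable_iff_subgroup_quotient M]
  exact ⟨hMs, inferInstance⟩

end RedOddAux

theorem red_odd {G : Type u} [Group G] (G0 : Subgroup G) (hfi : G0.FiniteIndex)
    (hres : ∀ g : G0, g ≠ 1 → ∃ (N : Subgroup G0) (_ : N.Normal), N.FiniteIndex ∧ g ∉ N ∧
      ∀ H : Subgroup (G0 ⧸ N), Odd (Nat.card H) → Group.IsSolvable H)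
    (A B : Subgroup G) (hA : FR A) (hB : FR B) (hAB : ∀ g : G, ∃ a ∈ A, ∃ b ∈ B, g = a * b) :
    ∃ G1 : Subgroup G, G1.Normal ∧ G1.FiniteIndex ∧
      ∀ g : G1, g ≠ 1 → ∃ (N : Subgroup G1) (_ : N.Normal), N.FiniteIndex ∧
        Group.IsSolvable (G1 ⧸ N) ∧ g ∉ N := by
  have : Fact (Nat.Prime 2) := ⟨Nat.prime_two⟩
  obtain ⟨N0, hN0, hN0f, hK⟩ := exists_pnil (p := 2) A B hA hB hAB
  refine ⟨N0 ⊓ G0.normalCore, inferInstance, inferInstance, ?_⟩
  have hle : N0 ⊓ G0.normalCore ≤ G0 := inf_le_right.trans (Subgroup.normalCore_le G0)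
  have hle0 : N0 ⊓ G0.normalCore ≤ N0 := inf_le_left
  generalize hG1 : N0 ⊓ G0.normalCore = G1 at hle hle0
  have hG1f : G1.FiniteIndex := by
    rw [← hG1]
    infer_instance
  intro g hg
  have hg' : Subgroup.inclusion hle g ≠ 1 := by
    intro h
    apply hg
    exact Subgroup.inclusion_injective hle (h.trans (map_one _).symm)
  obtain ⟨N', hN', hN'f, hgN', hodd⟩ := hres _ hg'
  let φ : G1 →* (G0 ⧸ N') := (QuotientGroup.mk' N').comp (Subgroup.inclusion hle)
  have hfin : Finite (G0 ⧸ N') := inferInstance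
  have hker : φ.ker.FiniteIndex := inferInstance
  refine ⟨φ.ker, inferInstance, hker, ?_, ?_⟩
  · let P : Subgroup G := φ.ker.map G1.subtype
    have hPf : P.FiniteIndex := by
      refine ⟨?_⟩
      rw [Subgroup.index_map_subtype]
      exact mul_ne_zero hker.index_ne_zero hG1f.index_ne_zero
    have hP1 : P ≤ G1 := by
      rintro _ ⟨x, _, rfl⟩
      exact x.2
    have hNP : P.normalCore ≤ P := Subgroup.normalCore_le P
    obtain ⟨K, hKn, hNK, hKN0, hrel, hpow⟩ := hK P.normalCore inferInstance inferInstance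
      ((hNP.trans hP1).trans hle0)
    have hs : Group.IsSolvable φ.range := by
      refine RedOddAux.range_solvable G1 φ hodd P.normalCore K hNK (hNP.trans hP1) ?_ hrel
        (fun x hx => hpow x (hle0 hx))
      intro x hx
      have h1 : (x : G) ∈ P := hNP hx
      obtain ⟨y, hy, hyx⟩ := h1
      have : y = x := Subtype.ext hyx
      rw [← this]
      exact hy
    exact Group.isSolvable_of_isSolvable_injective
      (f := (QuotientGroup.quotientKerEquivRange φ).toMonoidHom)
      (QuotientGroup.quotientKerEquivRange φ).injective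
  · intro h
    apply hgN'
    have h1 : (QuotientGroup.mk' N') (Subgroup.inclusion hle g) = 1 := h
    rw [QuotientGroup.mk'_apply, QuotientGroup.eq_one_iff] at h1
    exact h1

end P9700t
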