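import Mathlib
import Pool.Agent.Lib.P9700a.Rank
import Pool.Agent.Lib.P9700t.RedT

/-!
# Reduction of the residual hypothesis: subgroups of order prime to a finite set of primes are soluble

Generalisation of `RedOdd` from the prime `2` to a finite set `π` of primes.
-/

set_option autoImplicit false

universe u

namespace P9700t

open P9700a

namespace RedPiAux

theorem solvable_of_family {F : Type*} [Group F] [Finite F] (π : Finset ℕ) (M : ℕ → Subgroup F)
    (hn : ∀ p ∈ π, (M p).Normal) (hc : ∀ p ∈ π, ¬ p ∣ Nat.card (M p))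
    (hq : ∀ p ∈ π, ∃ k : ℕ, derivedSeries F k ≤ M p)
    (h : ∀ H : Subgroup F, (∀ p ∈ π, ¬ p ∣ Nat.card H) → Group.IsSolvable H) :
    Group.IsSolvable F := by
  classical
  let M0 : Subgroup F := ⨅ p ∈ π, M p
  have hle : ∀ p ∈ π, M0 ≤ M p := fun p hp => iInf₂_le p hp
  have hM0n : M0.Normal := by
    refine ⟨fun x hx g => ?_⟩
    simp only [M0, Subgroup.mem_iInf] at hx ⊢
    exact fun p hp => (hn p hp).conj_mem x (hx p hp) g
  have hM0s : Group.IsSolvable M0 := by
    refine h M0 fun p hp hd => hc p hp (hd.trans ?_)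
    exact Subgroup.card_dvd_of_le (hle p hp)
  have hk : ∃ k : ℕ, derivedSeries F k ≤ M0 := by
    choose! k hk using hq
    refine ⟨π.sup k, le_iInf₂ fun p hp => ?_⟩
    exact (derivedSeries_antitone F (Finset.le_sup hp)).trans (hk p hp)
  obtain ⟨k, hk⟩ := hk
  rw [Group.isSolvable_iff_subgroup_quotient M0]
  refine ⟨hM0s, ⟨k, ?_⟩⟩
  have h1 : derivedSeries (F ⧸ M0) k = (derivedSeries F k).map (QuotientGroup.mk' M0) :=
    (map_derivedSeries_eq (QuotientGroup.mk'_surjective M0) k).symm
  rw [h1, Subgroup.map_eq_bot_iff, QuotientGroup.ker_mk']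
  exact hk

/-- the main step, for one prime -/
theorem range_step {G : Type*} [Group G] {Q : Type*} [Group Q] [Finite Q] (G1 : Subgroup G)
    (φ : G1 →* Q) (p : ℕ) (hp : p.Prime) (N K : Subgroup G) (hKn : K.Normal) (hNK : N ≤ K)
    (hN1 : N ≤ G1) (hNφ : N.subgroupOf G1 ≤ φ.ker) (hrel : ¬ p ∣ N.relIndex K)
    (hpow : ∀ x ∈ G1, ∃ k : ℕ, x ^ p ^ k ∈ K) :
    ∃ M : Subgroup φ.range, M.Normal ∧ ¬ p ∣ Nat.card M ∧ ∃ k : ℕ, derivedSeries φ.range k ≤ M := by
  classical
  let K1 : Subgroup G1 := K.subgroupOf G1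
  let M : Subgroup φ.range := K1.map φ.rangeRestrict
  have hMn : M.Normal := Subgroup.Normal.map inferInstance _ φ.rangeRestrict_surjective
  have hM : Nat.card M ∣ N.relIndex K := by
    have h1 : Nat.card M = φ.ker.relIndex K1 := by
      rw [← MonoidHom.ker_rangeRestrict φ, Subgroup.relIndex_ker]
    rw [h1]
    refine (Subgroup.relIndex_dvd_of_le_left K1 hNφ).trans ?_
    have h2 : (N.subgroupOf G1).relIndex K1 = N.relIndex (K ⊓ G1) := by
      have : K1 = (K ⊓ G1).subgroupOf G1 := (Subgroup.inf_subgroupOf_right K G1).symm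
      rw [this, Subgroup.relIndex_subgroupOf inf_le_right]
    rw [h2]
    exact ⟨(K ⊓ G1).relIndex K,
      (Subgroup.relIndex_mul_relIndex _ _ _ (le_inf hNK hN1) inf_le_left).symm⟩
  have hpg : IsPGroup p (φ.range ⧸ M) := by
    intro q
    obtain ⟨⟨y, x, rfl⟩, rfl⟩ := QuotientGroup.mk'_surjective M q
    obtain ⟨k, hk⟩ := hpow x x.2
    refine ⟨k, ?_⟩
    rw [← map_pow, QuotientGroup.mk'_apply, QuotientGroup.eq_one_iff]
    refine ⟨x ^ p ^ k, hk, ?_⟩
    rw [map_pow]
    rfl
  have : Fact p.Prime := ⟨hp⟩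
  have hnil : Group.IsNilpotent (φ.range ⧸ M) := hpg.isNilpotent
  have hsol : Group.IsSolvable (φ.range ⧸ M) := inferInstance
  obtain ⟨k, hk⟩ := hsol.solvable
  refine ⟨M, hMn, fun h => hrel (h.trans hM), k, ?_⟩
  have h1 : derivedSeries (φ.range ⧸ M) k = (derivedSeries φ.range k).map (QuotientGroup.mk' M) :=
    (map_derivedSeries_eq (QuotientGroup.mk'_surjective M) k).symm
  rw [h1, Subgroup.map_eq_bot_iff, QuotientGroup.ker_mk'] at hk
  exact hk

end RedPiAux

theorem red_pi {G : Type u} [Group G] (π : Finset ℕ) (hπ : ∀ p ∈ π, p.Prime) (G0 : Subgroup G)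
    (hfi : G0.FiniteIndex)
    (hres : ∀ g : G0, g ≠ 1 → ∃ (N : Subgroup G0) (_ : N.Normal), N.FiniteIndex ∧ g ∉ N ∧
      ∀ H : Subgroup (G0 ⧸ N), (∀ p ∈ π, ¬ p ∣ Nat.card H) → Group.IsSolvable H)
    (A B : Subgroup G) (hA : FR A) (hB : FR B) (hAB : ∀ g : G, ∃ a ∈ A, ∃ b ∈ B, g = a * b) :
    ∃ G1 : Subgroup G, G1.Normal ∧ G1.FiniteIndex ∧
      ∀ g : G1, g ≠ 1 → ∃ (N : Subgroup G1) (_ : N.Normal), N.FiniteIndex ∧
        Group.IsSolvable (G1 ⧸ N) ∧ g ∉ N := by
  classical
  have hex : ∀ p ∈ π, ∃ N0 : Subgroup G, N0.Normal ∧ N0.FiniteIndex ∧ ∀ N : Subgroup G, N.Normal →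
      N.FiniteIndex → N ≤ N0 → ∃ K : Subgroup G, K.Normal ∧ N ≤ K ∧ K ≤ N0 ∧
        ¬ p ∣ N.relIndex K ∧ ∀ x ∈ N0, ∃ k : ℕ, x ^ p ^ k ∈ K := by
    intro p hp
    have : Fact p.Prime := ⟨hπ p hp⟩
    exact exists_pnil A B hA hB hAB
  choose! N0 hN0n hN0f hK using hex
  let NN : Subgroup G := ⨅ p ∈ π, N0 p
  have hNNle : ∀ p ∈ π, NN ≤ N0 p := fun p hp => iInf₂_le p hp
  have hNNn : NN.Normal := by
    refine ⟨fun x hx g => ?_⟩
    simp only [NN, Subgroup.mem_iInf] at hx ⊢
    exact fun p hp => (hN0n p hp).conj_mem x (hx p hp) g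
  have hNNf : NN.FiniteIndex := by
    have h1 : ∀ s : Finset ℕ, s ⊆ π → (⨅ p ∈ s, N0 p : Subgroup G).FiniteIndex := by
      intro s
      induction s using Finset.induction_on with
      | empty =>
        intro _
        simp only [Finset.notMem_empty, iInf_false, iInf_top]
        infer_instance
      | insert a s ha ih =>
        intro hs
        rw [Finset.iInf_insert]
        have i1 := hN0f a (hs (Finset.mem_insert_self a s))
        have i2 := ih ((Finset.subset_insert a s).trans hs)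
        infer_instance
    exact h1 π (Finset.Subset.refl π)
  refine ⟨NN ⊓ G0.normalCore, inferInstance, inferInstance, ?_⟩
  have hle : NN ⊓ G0.normalCore ≤ G0 := inf_le_right.trans (Subgroup.normalCore_le G0)
  have hle0 : NN ⊓ G0.normalCore ≤ NN := inf_le_left
  generalize hG1 : NN ⊓ G0.normalCore = G1 at hle hle0
  have hG1f : G1.FiniteIndex := by
    rw [← hG1]
    infer_instance
  intro g hg
  have hg' : Subgroup.inclusion hle g ≠ 1 := by
    intro h
    apply hg
    exact Subgroup.inclusion_injective hle (h.trans (map_one _).symm)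
  obtain ⟨N', hN', hN'f, hgN', hodd⟩ := hres _ hg'
  let φ : G1 →* (G0 ⧸ N') := (QuotientGroup.mk' N').comp (Subgroup.inclusion hle)
  have hfin : Finite (G0 ⧸ N') := inferInstance
  have hker : φ.ker.FiniteIndex := inferInstance
  refine ⟨φ.ker, inferInstance, hker, ?_, ?_⟩
  · let P : Subgroup G := φ.ker.map G1.subtype
    have hPf : P.FiniteIndex := by
      refine ⟨?_⟩
      rw [Subgroup.index_map_subtype]
      exact mul_ne_zero hker.index_ne_zero hG1f.index_ne_zero
    have hP1 : P ≤ G1 := by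
      rintro _ ⟨x, _, rfl⟩
      exact x.2
    have hNP : P.normalCore ≤ P := Subgroup.normalCore_le P
    have hs : Group.IsSolvable φ.range := by
      have hM : ∀ p ∈ π, ∃ M : Subgroup φ.range, M.Normal ∧ ¬ p ∣ Nat.card M ∧
          ∃ k : ℕ, derivedSeries φ.range k ≤ M := by
        intro p hp
        obtain ⟨K, hKn, hNK, hKN0, hrel, hpow⟩ := hK p hp P.normalCore inferInstance inferInstance
          (((hNP.trans hP1).trans hle0).trans (hNNle p hp))
        refine RedPiAux.range_step G1 φ p (hπ p hp) P.normalCore K hKn hNK (hNP.trans hP1) ?_ hrel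
          (fun x hx => hpow x (hNNle p hp (hle0 hx)))
        intro x hx
        have h1 : (x : G) ∈ P := hNP hx
        obtain ⟨y, hy, hyx⟩ := h1
        have : y = x := Subtype.ext hyx
        rw [← this]
        exact hy
      choose! M hMn hMc hMk using hM
      refine RedPiAux.solvable_of_family π M hMn hMc hMk fun H hH => ?_
      have hinj : Function.Injective φ.range.subtype := Subtype.val_injective
      let e := H.equivMapOfInjective φ.range.subtype hinj
      have hHs : Group.IsSolvable (H.map φ.range.subtype) := by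
        refine hodd _ fun p hp => ?_
        rw [← Nat.card_congr e.toEquiv]
        exact hH p hp
      exact Group.isSolvable_of_isSolvable_injective (f := e.toMonoidHom) e.injective
    exact Group.isSolvable_of_isSolvable_injective
      (f := (QuotientGroup.quotientKerEquivRange φ).toMonoidHom)
      (QuotientGroup.quotientKerEquivRange φ).injective
  · intro h
    apply hgN'
    have h1 : (QuotientGroup.mk' N') (Subgroup.inclusion hle g) = 1 := h
    rw [QuotientGroup.mk'_apply, QuotientGroup.eq_one_iff] at h1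
    exact h1

end P9700t
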