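import Mathlib
import Pool.Agent.Lib.P9700r.Defs
import Pool.Agent.Lib.P9700r.Expo
import Pool.Agent.Lib.P9700r.Filtr
import Pool.Agent.Lib.P9700r.WnB
import Pool.Agent.Lib.P9700r.Key
import Pool.Agent.Lib.P9700t.Defs

/-!
# A filtration of `Wn / N` for a single `N`

`W = Wn (p ^ (2 c + 1)) K N`; `L 0 = W`, `L (i + 1) = PW p (L i) ⊔ N`.
* normal, `N ≤ L (i + 1) ≤ L i ≤ W ≤ K` (`PW_normal`, `PW_le`, `le_Wn`).
* `comm`: `P9700r.key` with `M = L i`: `⁅L i, W⁆ ≤ PW (p ^ 2) (L i) ⊔ N ≤ PW p (L (i + 1)) ⊔ N = L (i + 2)` (`PW_sq_le`).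
* `card`: `L i / L (i + 1)` is elementary abelian, so `EB` gives `relIndex ≤ p ^ c`.
* `stop`: if `L i ≠ N` then `L (i + 1) ≠ L i`: otherwise `L i = PW p (L i) ⊔ N`; `L i / N` is a finite `p`-group ≠ 1; `⁅L i, L i⁆ ≤ L (i + 2) = L i` is no contradiction, so argue: `L (i + 1) = L i` gives `L j = L i` for all `j ≥ i`, and `⁅L i, W⁆ ≤ PW (p ^ 2) (L i) ⊔ N`. In the finite `p`-group `Y = L i / N` the subgroup generated by `p`-th powers lies in every subgroup of index `p` (a maximal subgroup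
  of a finite `p`-group is normal of index `p`), so it is a proper subgroup. So the relative indices `N.relIndex (L i)` decrease strictly until `L i = N`, and `L n = N` for some `n`.
-/

set_option autoImplicit false

namespace P9700t

open P9700a P9700r

namespace UGaAux

/-- in a nontrivial finite `p`-group the `p`-th powers generate a proper subgroup -/
theorem pw_ne {Q : Type*} [Group Q] [Finite Q] {p : ℕ} (hp : p.Prime) (hQ : IsPGroup p Q)
    [Nontrivial Q] (h : ∀ x : Q, x ∈ PW p (⊤ : Subgroup Q)) : False := by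
  have : Fact p.Prime := ⟨hp⟩
  have hnil : Group.IsNilpotent Q := hQ.isNilpotent
  have hlt : commutator Q < ⊤ := Group.IsSolvable.commutator_lt_top_of_nontrivial Q
  have hnt : Nontrivial (Abelianization Q) := by
    by_contra hcon
    rw [not_nontrivial_iff_subsingleton] at hcon
    apply hlt.ne
    rw [eq_top_iff]
    intro x _
    have h1 : Abelianization.of x = 1 := Subsingleton.elim _ _
    rw [← MonoidHom.mem_ker, Abelianization.ker_of] at h1
    exact h1
  have hfinA : Finite (Abelianization Q) := Finite.of_surjective _ QuotientGroup.mk_surjective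
  have hs : Function.Surjective (powMonoidHom p : Abelianization Q →* Abelianization Q) := by
    intro y
    obtain ⟨x, rfl⟩ : ∃ x, Abelianization.of x = y := QuotientGroup.mk_surjective y
    have h1 : PW p (⊤ : Subgroup Q) ≤
        (powMonoidHom p : Abelianization Q →* Abelianization Q).range.comap
          Abelianization.of := by
      unfold PW
      rw [Subgroup.closure_le]
      rintro _ ⟨z, -, rfl⟩
      exact ⟨Abelianization.of z, by simp [powMonoidHom_apply]⟩
    obtain ⟨w, hw⟩ := h1 (h x)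
    exact ⟨w, hw⟩
  have hinj := Finite.injective_iff_surjective.2 hs
  obtain ⟨y, hy⟩ := exists_ne (1 : Abelianization Q)
  obtain ⟨x, rfl⟩ : ∃ x, Abelianization.of x = y := QuotientGroup.mk_surjective y
  obtain ⟨k, hk⟩ := hQ x
  have h2 : ∀ k : ℕ, ∀ a : Abelianization Q, a ^ (p ^ k) = 1 → a = 1 := by
    intro k
    induction k with
    | zero =>
      intro a ha
      rwa [pow_zero, pow_one] at ha
    | succ k ih =>
      intro a ha
      rw [pow_succ, mul_comm, pow_mul] at ha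
      have h3 := ih _ ha
      apply hinj
      rw [powMonoidHom_apply, powMonoidHom_apply, one_pow]
      exact h3
  exact hy (h2 k _ (by rw [← map_pow, hk, map_one]))

theorem stop {G : Type*} [Group G] {p : ℕ} (hp : p.Prime) {K N X : Subgroup G} (hN : NP p K N)
    (hNX : N ≤ X) (hXK : X ≤ K) (h : PW p X ⊔ N = X) : X = N := by
  have hNn : N.Normal := hN.1
  by_contra hne
  have hnt : ∃ x ∈ X, x ∉ N := by
    by_contra hcon
    push Not at hcon
    exact hne (le_antisymm hcon hNX)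
  obtain ⟨x0, hx0, hx0N⟩ := hnt
  obtain ⟨j, hj⟩ := hN.relIndex hp le_rfl hNX hXK
  have hfin : Finite (X ⧸ N.subgroupOf X) := by
    apply Nat.finite_of_card_ne_zero
    change N.relIndex X ≠ 0
    rw [hj]
    exact (pow_pos hp.pos j).ne'
  have hnontriv : Nontrivial (X ⧸ N.subgroupOf X) := by
    refine ⟨QuotientGroup.mk ⟨x0, hx0⟩, 1, ?_⟩
    intro h1
    rw [QuotientGroup.eq_one_iff, Subgroup.mem_subgroupOf] at h1
    exact hx0N h1
  have hpg : IsPGroup p (X ⧸ N.subgroupOf X) := by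
    intro y
    obtain ⟨⟨x, hx⟩, rfl⟩ := QuotientGroup.mk_surjective y
    obtain ⟨j, hj⟩ := hN.pow_mem (hXK hx)
    refine ⟨j, ?_⟩
    change (QuotientGroup.mk ((⟨x, hx⟩ : X) ^ (p ^ j)) : X ⧸ N.subgroupOf X) = 1
    rw [QuotientGroup.eq_one_iff, Subgroup.mem_subgroupOf]
    exact hj
  let S : Subgroup X := (PW p (⊤ : Subgroup (X ⧸ N.subgroupOf X))).comap
    (QuotientGroup.mk' (N.subgroupOf X))
  have h1 : X ≤ S.map X.subtype := by
    conv_lhs => rw [← h]
    refine sup_le ?_ ?_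
    · unfold PW
      rw [Subgroup.closure_le]
      rintro _ ⟨y, hy, rfl⟩
      refine ⟨(⟨y, hy⟩ : X) ^ p, ?_, rfl⟩
      rw [SetLike.mem_coe, Subgroup.mem_comap, map_pow]
      exact FiltrAux.pow_mem_PW p (Subgroup.mem_top _)
    · intro n hn
      refine ⟨⟨n, hNX hn⟩, ?_, rfl⟩
      rw [SetLike.mem_coe, Subgroup.mem_comap]
      have h2 : QuotientGroup.mk' (N.subgroupOf X) ⟨n, hNX hn⟩ = 1 := by
        rw [QuotientGroup.mk'_apply, QuotientGroup.eq_one_iff, Subgroup.mem_subgroupOf]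
        exact hn
      rw [h2]
      exact Subgroup.one_mem _
  refine pw_ne hp hpg ?_
  intro y
  obtain ⟨⟨x, hx⟩, rfl⟩ := QuotientGroup.mk_surjective y
  obtain ⟨z, hz, hzx⟩ := h1 hx
  have h3 : z = ⟨x, hx⟩ := Subtype.ext hzx
  subst h3
  exact hz

end UGaAux

theorem exists_ser {G : Type*} [Group G] {p : ℕ} (hp : p.Prime) (K : Subgroup G) (hK : K.Normal)
    {c : ℕ} (hc : EB p K c) {N : Subgroup G} (hN : NP p K N) :
    ∃ (L : ℕ → Subgroup G) (n : ℕ), L 0 = Wn (p ^ (2 * c + 1)) K N ∧ L n = N ∧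
      (∀ i, (L i).Normal) ∧ (∀ i, N ≤ L i) ∧ (∀ i, L (i + 1) = PW p (L i) ⊔ N) ∧
      (∀ i, L (i + 1) ≤ L i) ∧
      (∀ i, ∀ x ∈ L i, ∀ y ∈ L 0, x * y * x⁻¹ * y⁻¹ ∈ L (i + 2)) ∧
      (∀ i, (L (i + 1)).relIndex (L i) ≤ p ^ c) ∧ ∀ i, (L (i + 1)).relIndex (L i) ≠ 0 := by
  have hNn : N.Normal := hN.1
  obtain ⟨L, hL0, hLs⟩ : ∃ L : ℕ → Subgroup G, L 0 = Wn (p ^ (2 * c + 1)) K N ∧
      ∀ i, L (i + 1) = PW p (L i) ⊔ N :=
    ⟨fun i => Nat.rec (motive := fun _ => Subgroup G) (Wn (p ^ (2 * c + 1)) K N)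
      (fun _ X => PW p X ⊔ N) i, rfl, fun _ => rfl⟩
  have hnorm : ∀ i, (L i).Normal := by
    intro i
    induction i with
    | zero => rw [hL0]; exact Wn_normal hK hNn
    | succ i ih =>
      rw [hLs]
      have := FiltrAux.PW_normal p ih
      infer_instance
  have hNL : ∀ i, N ≤ L i := by
    intro i
    cases i with
    | zero => rw [hL0]; exact le_Wn hNn hN.2.1
    | succ i => rw [hLs]; exact le_sup_right
  have hdec : ∀ i, L (i + 1) ≤ L i := by
    intro i
    rw [hLs]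
    exact sup_le (FiltrAux.PW_le p _) (hNL i)
  have hW : ∀ i, L i ≤ Wn (p ^ (2 * c + 1)) K N := by
    intro i
    induction i with
    | zero => rw [hL0]
    | succ i ih => exact (hdec i).trans ih
  have hLK : ∀ i, L i ≤ K := fun i => (hW i).trans (Wn_le _ _ _)
  have hpow : ∀ i, ∀ x ∈ L i, x ^ p ∈ L (i + 1) := by
    intro i x hx
    rw [hLs]
    exact Subgroup.mem_sup_left (FiltrAux.pow_mem_PW p hx)
  have hcomm : ∀ i, ∀ x ∈ L i, ∀ y ∈ L 0, x * y * x⁻¹ * y⁻¹ ∈ L (i + 2) := by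
    intro i x hx y hy
    rw [hL0] at hy
    have h1 := key hp hK hc hN (hnorm i) (hW i) x hx y hy
    have h2 : PW (p ^ 2) (L i) ⊔ N ≤ L (i + 2) := by
      rw [hLs (i + 1)]
      exact sup_le_sup_right (FiltrAux.PW_sq_le p (hpow i)) N
    exact h2 h1
  have hidx : ∀ i, (L (i + 1)).relIndex (L i) ≠ 0 := by
    intro i
    obtain ⟨j, hj⟩ := hN.relIndex hp (hNL (i + 1)) (hdec i) (hLK i)
    rw [hj]
    exact (pow_pos hp.pos j).ne'
  have hL0le : ∀ i, L i ≤ L 0 := by
    intro i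
    rw [hL0]
    exact hW i
  have hcard : ∀ i, (L (i + 1)).relIndex (L i) ≤ p ^ c := by
    intro i
    refine hc N (L i) (L (i + 1)) hN (hnorm i) (hnorm (i + 1)) (hNL (i + 1)) (hdec i) (hLK i)
      ?_ (hpow i)
    intro x hx y hy
    exact hdec (i + 1) (hcomm i x hx y (hL0le i hy))
  have hstop : ∃ n, L n = N := by
    by_contra hcon
    push Not at hcon
    obtain ⟨i, hi⟩ : ∃ i, ∀ j, N.relIndex (L i) ≤ N.relIndex (L j) := by
      have hne : (Set.range fun i => N.relIndex (L i)).Nonempty := ⟨_, 0, rfl⟩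
      obtain ⟨i, hi⟩ := Nat.sInf_mem hne
      refine ⟨i, fun j => ?_⟩
      change (fun i => N.relIndex (L i)) i ≤ _
      rw [hi]
      exact Nat.sInf_le ⟨j, rfl⟩
    have h1 := Subgroup.relIndex_mul_relIndex N (L (i + 1)) (L i) (hNL (i + 1)) (hdec i)
    have h2 := hi (i + 1)
    obtain ⟨j, hj⟩ := hN.relIndex hp le_rfl (hNL (i + 1)) (hLK (i + 1))
    have h3 : 0 < N.relIndex (L (i + 1)) := by
      rw [hj]
      exact pow_pos hp.pos j
    have h4 : (L (i + 1)).relIndex (L i) ≠ 1 := by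
      intro h4
      rw [Subgroup.relIndex_eq_one] at h4
      refine hcon i (UGaAux.stop hp hN (hNL i) (hLK i) ?_)
      rw [← hLs]
      exact le_antisymm (hdec i) h4
    have h5 : 2 ≤ (L (i + 1)).relIndex (L i) := by
      have := hidx i
      omega
    have h6 : N.relIndex (L (i + 1)) * 2 ≤ N.relIndex (L (i + 1)) :=
      calc N.relIndex (L (i + 1)) * 2 ≤ N.relIndex (L (i + 1)) * (L (i + 1)).relIndex (L i) :=
            Nat.mul_le_mul_left _ h5
        _ = N.relIndex (L i) := h1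
        _ ≤ _ := h2
    omega
  obtain ⟨n, hn⟩ := hstop
  exact ⟨L, n, hL0, hn, hnorm, hNL, hLs, hdec, hcomm, hcard, hidx⟩

end P9700t
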