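import Mathlib
import Pool.Agent.Lib.P9700r.Defs
import Pool.Agent.Lib.P9700r.RankElem
import Pool.Agent.Lib.P9700r.Filtr
import Pool.Agent.Lib.P9700t.Defs

/-!
# The number of generators of a subgroup of a filtered group

`L` as produced by `exists_ser` (`UGa.lean`): `L (i + 1) = PW p (L i) ⊔ N`, `L n = N`, commutators of `L i` with `L 0` lie in `L (i + 2)`, all factors finite. `N ≤ H ≤ L 0`; `Φ = Fr p H ⊔ N`. Claim: `Φ.relIndex H ≤ (L 1).relIndex (L 0)`.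

The factor `L i / L (i + 2)` is commutative, so `x ↦ x ^ p` induces a homomorphism `π i : L i / L (i + 1) → L (i + 1) / L (i + 2)` (`(x z) ^ p ≡ x ^ p z ^ p`, `z ^ p ∈ L (i + 2)` for `z ∈ L (i + 1)`), which is surjective because `L (i + 1) = PW p (L i) ⊔ N`.
Let `U i = (H ⊓ L i) L (i + 1) / L (i + 1)`, `u i` its order, `V i` the same for `Φ`, of order `v i`; `l i = |L i / L (i + 1)|`. `π i` maps `U i` into `V (i + 1)` (`x ∈ H ⊓ L i` gives `x ^ p ∈ Φ ⊓ L (i + 1)`), so `u i / v (i + 1) ≤ |U i| / |π i (U i)| ≤ |ker π i| = l i / l (i + 1)`, i.e. `u i * l (i + 1) ≤ v (i + 1) * l i`.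
Multiply over `i < n`: `|H / N| = u 0 u 1 ... u (n-1)`, `|Φ / N| = v 0 v 1 ... v (n-1)`, `v n = u n = 1`, `l n = 1` (as `L (n + 1) = N = L n`): `(u 0 ... u (n-1)) (l 1 ... l n) ≤ (v 1 ... v n) (l 0 ... l (n-1))`, so `|H / N| ≤ |Φ / N| l 0`.
(Products: `(H ⊓ L (i+1)).relIndex (H ⊓ L i) = u i` and `N.relIndex H = ∏ u i` by induction with `Subgroup.relIndex_mul_relIndex`.)
-/

set_option autoImplicit false

namespace P9700t

open P9700a P9700r

namespace UGbAux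

variable {G : Type*} [Group G]

theorem tele (L : ℕ → Subgroup G) (ha : ∀ i, L (i + 1) ≤ L i) (K : Subgroup G) (hK : K ≤ L 0)
    (m : ℕ) : (L m).relIndex K = ∏ i ∈ Finset.range m, (L (i + 1)).relIndex (K ⊓ L i) := by
  induction m with
  | zero => rw [Finset.prod_range_zero, Subgroup.relIndex_eq_one]; exact hK
  | succ m ih =>
    rw [Finset.prod_range_succ, ← ih]
    have h1 : (L (m + 1) ⊓ K).relIndex (K ⊓ L m) * (K ⊓ L m).relIndex K =
        (L (m + 1) ⊓ K).relIndex K :=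
      Subgroup.relIndex_mul_relIndex _ _ _
        (le_inf inf_le_right (inf_le_left.trans (ha m))) inf_le_left
    rw [Subgroup.inf_relIndex_right, Subgroup.inf_relIndex_left] at h1
    rw [← h1, mul_comm]
    congr 1
    rw [← Subgroup.inf_relIndex_right (L (m + 1)) (K ⊓ L m),
      ← Subgroup.inf_relIndex_right (L (m + 1) ⊓ K) (K ⊓ L m)]
    congr 1
    rw [inf_assoc, ← inf_assoc K K (L m), inf_idem]

/-- the elements of `A` with `p`-th power in `A2` -/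
def KK (p : ℕ) (A A2 : Subgroup G) [A2.Normal]
    (hc : ∀ x ∈ A, ∀ y ∈ A, x * y * x⁻¹ * y⁻¹ ∈ A2) : A →* G ⧸ A2 where
  toFun x := QuotientGroup.mk' A2 ((x : G) ^ p)
  map_one' := by
    show QuotientGroup.mk' A2 (((1 : A) : G) ^ p) = 1
    rw [Subgroup.coe_one, one_pow, map_one]
  map_mul' x y := by
    show QuotientGroup.mk' A2 (((x * y : A) : G) ^ p) =
      QuotientGroup.mk' A2 ((x : G) ^ p) * QuotientGroup.mk' A2 ((y : G) ^ p)
    have h1 : QuotientGroup.mk' A2 ((x : G) * (y : G) * (x : G)⁻¹ * (y : G)⁻¹) = 1 :=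
      (QuotientGroup.eq_one_iff _).2 (hc x x.2 y y.2)
    have h2 : Commute (QuotientGroup.mk' A2 (x : G)) (QuotientGroup.mk' A2 (y : G)) := by
      rw [map_mul, map_mul, map_mul, map_inv, map_inv] at h1
      have h6 := mul_inv_eq_one.1 h1
      exact mul_inv_eq_iff_eq_mul.1 h6
    rw [Subgroup.coe_mul, map_pow, map_mul, h2.mul_pow, map_pow, map_pow]

theorem step (p : ℕ) (A A1 A2 H Φ : Subgroup G) (h2n : A2.Normal) (h1 : A1 ≤ A)
    (hc : ∀ x ∈ A, ∀ y ∈ A, x * y * x⁻¹ * y⁻¹ ∈ A2) (hp1 : ∀ x ∈ A, x ^ p ∈ A1)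
    (hp2 : ∀ x ∈ A1, x ^ p ∈ A2) (hgen : A1 ≤ PW p A ⊔ A2)
    (hΦ : ∀ x ∈ H ⊓ A, x ^ p ∈ Φ) (hf1 : A1.relIndex A ≠ 0) (hf2 : A2.relIndex A1 ≠ 0) :
    A1.relIndex (H ⊓ A) * A2.relIndex A1 ≤ A2.relIndex (Φ ⊓ A1) * A1.relIndex A := by
  have hker : (QuotientGroup.mk' A2).ker = A2 := QuotientGroup.ker_mk' A2
  set f := KK p A A2 hc with hf
  have hfv : ∀ x : A, f x = QuotientGroup.mk' A2 ((x : G) ^ p) := fun _ => rfl
  let K : Subgroup G := f.ker.map A.subtype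
  have hKmem : ∀ x, x ∈ K ↔ x ∈ A ∧ x ^ p ∈ A2 := by
    intro x
    constructor
    · rintro ⟨y, hy, rfl⟩
      refine ⟨y.2, ?_⟩
      exact (QuotientGroup.eq_one_iff _).1 hy
    · rintro ⟨hx, hx2⟩
      exact ⟨⟨x, hx⟩, (QuotientGroup.eq_one_iff _).2 hx2, rfl⟩
  have hKA : K ≤ A := fun x hx => ((hKmem x).1 hx).1
  have hA1K : A1 ≤ K := fun x hx => (hKmem x).2 ⟨h1 hx, hp2 x hx⟩
  -- (a)
  have hrange : f.range = A1.map (QuotientGroup.mk' A2) := by
    refine le_antisymm ?_ ?_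
    · rintro _ ⟨x, rfl⟩
      exact ⟨(x : G) ^ p, hp1 x x.2, rfl⟩
    · refine (Subgroup.map_mono hgen).trans ?_
      rw [Subgroup.map_sup]
      refine sup_le ?_ ?_
      · unfold PW
        rw [MonoidHom.map_closure, Subgroup.closure_le]
        rintro _ ⟨y, ⟨x, hx, rfl⟩, rfl⟩
        exact ⟨⟨x, hx⟩, rfl⟩
      · have h3 : A2.map (QuotientGroup.mk' A2) = ⊥ := by
          rw [Subgroup.map_eq_bot_iff, hker]
        rw [h3]
        exact bot_le
  have ha : K.relIndex A = A2.relIndex A1 := by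
    have h3 : K.subgroupOf A = f.ker := by
      ext x
      rw [Subgroup.mem_subgroupOf, hKmem]
      constructor
      · intro h
        exact (QuotientGroup.eq_one_iff _).2 h.2
      · intro h
        exact ⟨x.2, (QuotientGroup.eq_one_iff _).1 h⟩
    have h4 : K.relIndex A = f.ker.index := by
      rw [← h3]
      rfl
    rw [h4, Subgroup.index_ker, hrange, ← Subgroup.relIndex_ker, hker]
  -- (b)
  have hfin : A2.relIndex (Φ ⊓ A1) ≠ 0 := fun h =>
    hf2 (Subgroup.relIndex_eq_zero_of_le_right inf_le_right h)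
  have hb : K.relIndex (H ⊓ A) ≤ A2.relIndex (Φ ⊓ A1) := by
    let g : (H ⊓ A : Subgroup G) →* G ⧸ A2 := f.comp (Subgroup.inclusion inf_le_right)
    have hgv : ∀ x : (H ⊓ A : Subgroup G), g x = QuotientGroup.mk' A2 ((x : G) ^ p) := fun _ => rfl
    have h3 : K.subgroupOf (H ⊓ A) = g.ker := by
      ext x
      rw [Subgroup.mem_subgroupOf, hKmem]
      constructor
      · intro h
        exact (QuotientGroup.eq_one_iff _).2 h.2
      · intro h
        exact ⟨x.2.2, (QuotientGroup.eq_one_iff _).1 h⟩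
    have h4 : K.relIndex (H ⊓ A) = g.ker.index := by
      rw [← h3]
      rfl
    have h5 : A2.relIndex (Φ ⊓ A1) = Nat.card ((Φ ⊓ A1).map (QuotientGroup.mk' A2)) := by
      rw [← Subgroup.relIndex_ker, hker]
    have h6 : Finite ((Φ ⊓ A1).map (QuotientGroup.mk' A2)) :=
      Nat.finite_of_card_ne_zero (by rw [← h5]; exact hfin)
    rw [h4, Subgroup.index_ker, h5]
    refine Subgroup.card_le_of_le ?_
    rintro _ ⟨x, rfl⟩
    exact ⟨(x : G) ^ p, ⟨hΦ x x.2, hp1 x x.2.2⟩, rfl⟩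
  -- (e)
  have he : A1.relIndex K * K.relIndex A = A1.relIndex A :=
    Subgroup.relIndex_mul_relIndex _ _ _ hA1K hKA
  have hf3 : A1.relIndex K ≠ 0 := by
    intro h
    rw [h, Nat.zero_mul] at he
    exact hf1 he.symm
  -- (c)
  have hcc : A1.relIndex (K ⊓ (H ⊓ A)) ≤ A1.relIndex K :=
    Subgroup.relIndex_le_of_le_right inf_le_left hf3
  -- (d)
  have hd : A1.relIndex (K ⊓ (H ⊓ A)) * K.relIndex (H ⊓ A) = A1.relIndex (H ⊓ A) := by
    have h3 : (A1 ⊓ (H ⊓ A)).relIndex (K ⊓ (H ⊓ A)) * (K ⊓ (H ⊓ A)).relIndex (H ⊓ A) =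
        (A1 ⊓ (H ⊓ A)).relIndex (H ⊓ A) :=
      Subgroup.relIndex_mul_relIndex _ _ _ (inf_le_inf_right _ hA1K) inf_le_right
    rw [Subgroup.inf_relIndex_right, Subgroup.inf_relIndex_right] at h3
    rw [← h3]
    congr 1
    rw [← Subgroup.inf_relIndex_right A1 (K ⊓ (H ⊓ A)),
      ← Subgroup.inf_relIndex_right (A1 ⊓ (H ⊓ A)) (K ⊓ (H ⊓ A))]
    congr 1
    rw [inf_assoc, inf_left_comm (H ⊓ A) K (H ⊓ A), inf_idem]
  calc A1.relIndex (H ⊓ A) * A2.relIndex A1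
      = A1.relIndex (K ⊓ (H ⊓ A)) * K.relIndex (H ⊓ A) * K.relIndex A := by rw [hd, ha]
    _ ≤ A1.relIndex K * A2.relIndex (Φ ⊓ A1) * K.relIndex A :=
        Nat.mul_le_mul_right _ (Nat.mul_le_mul hcc hb)
    _ = A2.relIndex (Φ ⊓ A1) * (A1.relIndex K * K.relIndex A) := by ring
    _ = A2.relIndex (Φ ⊓ A1) * A1.relIndex A := by rw [he]

end UGbAux

open UGbAux

theorem fr_index {G : Type*} [Group G] {p : ℕ} (hp : p.Prime) {N : Subgroup G} (hN : N.Normal)
    (L : ℕ → Subgroup G) (n : ℕ) (hn : L n = N) (hL : ∀ i, (L i).Normal)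
    (hg : ∀ i, L (i + 1) = PW p (L i) ⊔ N) (ha : ∀ i, L (i + 1) ≤ L i)
    (hc : ∀ i, ∀ x ∈ L i, ∀ y ∈ L 0, x * y * x⁻¹ * y⁻¹ ∈ L (i + 2))
    (hf : ∀ i, (L (i + 1)).relIndex (L i) ≠ 0) (H : Subgroup G) (hNH : N ≤ H) (hH : H ≤ L 0) :
    (Fr p H ⊔ N).relIndex H ≤ (L 1).relIndex (L 0) := by
  classical
  have hanti : ∀ i j, i ≤ j → L j ≤ L i := by
    intro i j hij
    induction hij with
    | refl => exact le_rfl
    | step _ ih => exact (ha _).trans ih
  have hNL : ∀ i, N ≤ L i := by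
    intro i
    have h1 : N ≤ L (i + 1) := by rw [hg i]; exact le_sup_right
    exact h1.trans (ha i)
  set Φ := Fr p H ⊔ N with hΦ
  have hFrH : Fr p H ≤ H := by
    unfold Fr
    rw [Subgroup.closure_le]
    rintro y (⟨x, hx, rfl⟩ | ⟨a, ha', b, hb', rfl⟩)
    · exact pow_mem hx p
    · exact mul_mem (mul_mem (mul_mem ha' hb') (inv_mem ha')) (inv_mem hb')
  have hΦH : Φ ≤ H := sup_le hFrH hNH
  have hNΦ : N ≤ Φ := le_sup_right
  have hLn1 : L (n + 1) = N := le_antisymm (hn ▸ ha n) (hNL _)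
  have hpw : ∀ i, ∀ x ∈ L i, x ^ p ∈ L (i + 1) := by
    intro i x hx
    rw [hg i]
    exact Subgroup.mem_sup_left (Subgroup.subset_closure ⟨x, hx, rfl⟩)
  have hstep : ∀ i, (L (i + 1)).relIndex (H ⊓ L i) * (L (i + 2)).relIndex (L (i + 1)) ≤
      (L (i + 2)).relIndex (Φ ⊓ L (i + 1)) * (L (i + 1)).relIndex (L i) := by
    intro i
    refine step p (L i) (L (i + 1)) (L (i + 2)) H Φ (hL _) (ha i)
      (fun x hx y hy => hc i x hx y (hanti 0 i (Nat.zero_le _) hy)) (hpw i) (hpw (i + 1)) ?_ ?_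
      (hf i) (hf (i + 1))
    · rw [hg i]
      exact sup_le_sup_left (hNL _) _
    · intro x hx
      exact Subgroup.mem_sup_left (Subgroup.subset_closure (Or.inl ⟨x, hx.1, rfl⟩))
  have tH := tele L ha H hH n
  have tΦ := tele L ha Φ (hΦH.trans hH) (n + 1)
  have tL : ∏ i ∈ Finset.range n, (L (i + 1)).relIndex (L i) ≠ 0 :=
    Finset.prod_ne_zero_iff.2 fun i _ => hf i
  have tL1 : ∏ i ∈ Finset.range n, (L (i + 2)).relIndex (L (i + 1)) ≠ 0 :=
    Finset.prod_ne_zero_iff.2 fun i _ => hf (i + 1)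
  have tL0 : (N).relIndex (L 0) ≠ 0 := by
    have h1 := tele L ha (L 0) le_rfl n
    rw [hn] at h1
    rw [h1]
    refine Finset.prod_ne_zero_iff.2 fun i _ => ?_
    rw [inf_eq_right.2 (hanti 0 i (Nat.zero_le _))]
    exact hf i
  have hNΦ0 : N.relIndex Φ ≠ 0 := fun h =>
    tL0 (Subgroup.relIndex_eq_zero_of_le_right (hΦH.trans hH) h)
  rw [hn] at tH
  rw [hLn1, Finset.prod_range_succ'] at tΦ
  have hl : (∏ i ∈ Finset.range n, (L (i + 2)).relIndex (L (i + 1))) * (L 1).relIndex (L 0) =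
      ∏ i ∈ Finset.range n, (L (i + 1)).relIndex (L i) := by
    have h1 := Finset.prod_range_succ' (fun i => (L (i + 1)).relIndex (L i)) n
    have h2 := Finset.prod_range_succ (fun i => (L (i + 1)).relIndex (L i)) n
    have h3 : (L (n + 1)).relIndex (L n) = 1 := by
      rw [Subgroup.relIndex_eq_one, hLn1, hn]
    rw [h3, mul_one] at h2
    rw [← h2, h1]
  have hprod : (∏ i ∈ Finset.range n, (L (i + 1)).relIndex (H ⊓ L i)) *
      (∏ i ∈ Finset.range n, (L (i + 2)).relIndex (L (i + 1))) ≤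
      (∏ i ∈ Finset.range n, (L (i + 2)).relIndex (Φ ⊓ L (i + 1))) *
      (∏ i ∈ Finset.range n, (L (i + 1)).relIndex (L i)) := by
    rw [← Finset.prod_mul_distrib, ← Finset.prod_mul_distrib]
    exact Finset.prod_le_prod' fun i _ => hstep i
  rw [← tH, ← hl] at hprod
  have h1 : N.relIndex H ≤ (∏ i ∈ Finset.range n, (L (i + 2)).relIndex (Φ ⊓ L (i + 1))) *
      (L 1).relIndex (L 0) := by
    refine Nat.le_of_mul_le_mul_right (c := ∏ i ∈ Finset.range n, (L (i + 2)).relIndex (L (i + 1)))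
      ?_ (Nat.pos_of_ne_zero tL1)
    calc N.relIndex H * ∏ i ∈ Finset.range n, (L (i + 2)).relIndex (L (i + 1))
        ≤ _ := hprod
      _ = _ := by ring
  have h2 : (∏ i ∈ Finset.range n, (L (i + 2)).relIndex (Φ ⊓ L (i + 1))) ≤ N.relIndex Φ := by
    rw [tΦ]
    refine Nat.le_mul_of_pos_right _ (Nat.pos_of_ne_zero ?_)
    intro h
    have h3 : N.relIndex Φ = 0 := by
      rw [tΦ, h, Nat.mul_zero]
    exact hNΦ0 h3
  have h3 : N.relIndex Φ * Φ.relIndex H = N.relIndex H :=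
    Subgroup.relIndex_mul_relIndex _ _ _ hNΦ hΦH
  refine Nat.le_of_mul_le_mul_left (c := N.relIndex Φ) ?_ (Nat.pos_of_ne_zero hNΦ0)
  rw [h3]
  exact h1.trans (Nat.mul_le_mul_right _ h2)

end P9700t
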