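import Mathlib
import Pool.Agent.Lib.P9700r.Defs
import Pool.Agent.Lib.P9700r.Expo
import Pool.Agent.Lib.P9700r.WnB
import Pool.Agent.Lib.P9700t.Defs
import Pool.Agent.Lib.P9700t.UGa
import Pool.Agent.Lib.P9700t.UGb

/-!
# Uniform bound for the number of generators of subgroups of `K / N`

* `gen_of_fr`: `H / N` is a finite `p`-group (`N ≤ H`, `N.relIndex H = p ^ k`) with `|H : Fr p H ⊔ N| ≤ p ^ d`: then `H = closure s ⊔ N` with `s ⊆ H`, `s.card ≤ d`: the quotient `H / (Fr p H ⊔ N)` is elementary abelian of order `p ^ j`, `j ≤ d`, generated by `j` elements (vector space over `ZMod p`); lift them to `s ⊆ H`; if `T = closure s ⊔ N` were a proper subgroup of `H` it would be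
  contained in a maximal subgroup of the finite `p`-group `H / N`, normal of index `p`, containing the image of `Fr p H`; but `T ⊔ Fr p H = H`.
* `uniform_gen`: replace `H` by `H ⊔ N`. `W = Wn (p ^ (2 c + 1)) K N`, `W.relIndex K ≤ p ^ (c (2c+1) (2c+1))` (`Wn_relIndex` with `e = 2 c + 1`). `exists_ser`, `fr_index` for `H ⊓ W` (`(L 1).relIndex (L 0) ≤ p ^ c`) and `gen_of_fr` give `s1`, `s1.card ≤ c`, `closure s1 ⊔ N = H ⊓ W`. The group `H / (H ⊓ W)` embeds in `K / W`, a finite `p`-group of order `≤ p ^ (c (2c+1)^2)`;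
  it is generated by at most `c (2c+1)^2` elements (a finite `p`-group of order `p ^ j` is generated by `j` elements: a chain of subgroups has length at most `j`; in general `H` is generated over `H ⊓ W` by `s2`, adding one element at a time multiplies the index by at least `p`, or use `Fr`).
-/

set_option autoImplicit false

namespace P9700t

open P9700a P9700r

namespace UGenAux

/-- the subgroup generated by `p`-th powers and commutators. -/
def FrP (p : ℕ) (P : Type*) [Group P] : Subgroup P :=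
  Subgroup.closure ({y | ∃ x : P, x ^ p = y} ∪ {y | ∃ a b : P, a * b * a⁻¹ * b⁻¹ = y})

theorem pow_mem_FrP {P : Type*} [Group P] {p : ℕ} (x : P) : x ^ p ∈ FrP p P :=
  Subgroup.subset_closure (Or.inl ⟨x, rfl⟩)

theorem comm_mem_FrP {P : Type*} [Group P] {p : ℕ} (a b : P) : a * b * a⁻¹ * b⁻¹ ∈ FrP p P :=
  Subgroup.subset_closure (Or.inr ⟨a, b, rfl⟩)

/-- a maximal subgroup of a finite `p`-group contains all `p`-th powers and commutators. -/
theorem coatom {P : Type*} [Group P] [Finite P] {p : ℕ} (hp : p.Prime) (hP : IsPGroup p P)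
    {M : Subgroup P} (hM : IsCoatom M) : FrP p P ≤ M := by
  haveI := Fact.mk hp
  haveI hnil : Group.IsNilpotent P := hP.isNilpotent
  have hnc : NormalizerCondition P := Group.normalizerCondition_of_isNilpotent
  haveI hn : M.Normal := Subgroup.NormalizerCondition.normal_of_coatom M hnc hM
  have hQ : IsPGroup p (P ⧸ M) := hP.to_quotient M
  haveI : Nontrivial (P ⧸ M) := (QuotientGroup.nontrivial_iff).2 hM.1
  haveI : Nontrivial (Subgroup.center (P ⧸ M)) := hQ.center_nontrivial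
  have hC : IsPGroup p (Subgroup.center (P ⧸ M)) := hQ.to_subgroup _
  obtain ⟨n, hn0, hcard⟩ := (hC.nontrivial_iff_card).1 inferInstance
  obtain ⟨z, hz⟩ := exists_prime_orderOf_dvd_card' (G := Subgroup.center (P ⧸ M)) p
    (by rw [hcard]; exact dvd_pow_self p (by omega))
  have hzp : (z : P ⧸ M) ^ p = 1 := by
    rw [← Subgroup.coe_pow, ← hz, pow_orderOf_eq_one, Subgroup.coe_one]
  have hz1 : (z : P ⧸ M) ≠ 1 := by
    intro h
    have h2 : z = 1 := by ext; exact h
    rw [h2, orderOf_one] at hz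
    exact hp.one_lt.ne hz
  have hT : (Subgroup.zpowers (z : P ⧸ M)).comap (QuotientGroup.mk' M) = ⊤ := by
    apply hM.2
    rw [lt_iff_le_and_ne]
    constructor
    · intro x hx
      rw [Subgroup.mem_comap]
      have h1 : (QuotientGroup.mk' M) x = 1 := (QuotientGroup.eq_one_iff x).2 hx
      rw [h1]
      exact Subgroup.one_mem _
    · intro h
      obtain ⟨x, hx⟩ := QuotientGroup.mk'_surjective M (z : P ⧸ M)
      have h1 : x ∈ M := by
        rw [h, Subgroup.mem_comap, hx]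
        exact Subgroup.mem_zpowers _
      apply hz1
      rw [← hx]
      exact (QuotientGroup.eq_one_iff x).2 h1
  have hall : ∀ x : P, ∃ k : ℤ, (z : P ⧸ M) ^ k = (QuotientGroup.mk' M) x := by
    intro x
    have h1 : x ∈ (Subgroup.zpowers (z : P ⧸ M)).comap (QuotientGroup.mk' M) := by
      rw [hT]
      exact Subgroup.mem_top x
    rw [Subgroup.mem_comap] at h1
    exact Subgroup.mem_zpowers_iff.1 h1
  rw [FrP, Subgroup.closure_le]
  rintro y (⟨x, rfl⟩ | ⟨a, b, rfl⟩)
  · obtain ⟨k, hk⟩ := hall x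
    have h1 : (QuotientGroup.mk' M) (x ^ p) = 1 := by
      rw [map_pow, ← hk, ← zpow_natCast, ← zpow_mul, mul_comm, zpow_mul, zpow_natCast, hzp,
        one_zpow]
    exact (QuotientGroup.eq_one_iff _).1 h1
  · obtain ⟨i, hi⟩ := hall a
    obtain ⟨j, hj⟩ := hall b
    have h1 : (QuotientGroup.mk' M) (a * b * a⁻¹ * b⁻¹) = 1 := by
      rw [map_mul, map_mul, map_mul, map_inv, map_inv, ← hi, ← hj, ← zpow_add, ← zpow_neg,
        ← zpow_neg, ← zpow_add, ← zpow_add]
      have e : i + j + -i + -j = 0 := by ring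
      rw [e, zpow_zero]
    exact (QuotientGroup.eq_one_iff _).1 h1

/-- a subgroup `Y` of index `p ^ j` in `H`: `H` is generated by `Y` and `j` elements. -/
theorem gen_aux {G : Type*} [Group G] {p : ℕ} (hp : p.Prime) (H : Subgroup G) :
    ∀ (j : ℕ) (Y : Subgroup G), Y ≤ H → Y.relIndex H = p ^ j →
      ∃ s : Finset G, s.card ≤ j ∧ (∀ x ∈ s, x ∈ H) ∧ Subgroup.closure (s : Set G) ⊔ Y = H := by
  classical
  intro j
  induction j using Nat.strong_induction_on with
  | h j ih =>
    intro Y hY hj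
    by_cases hYH : H ≤ Y
    · refine ⟨∅, by simp, by simp, ?_⟩
      rw [Finset.coe_empty, Subgroup.closure_empty, bot_sup_eq]
      exact le_antisymm hY hYH
    · obtain ⟨h, hhH, hhY⟩ := SetLike.not_le_iff_exists.1 hYH
      have h1 : Subgroup.closure {h} ⊔ Y ≤ H :=
        sup_le ((Subgroup.closure_le H).2 (by simpa using hhH)) hY
      have hh : h ∈ Subgroup.closure {h} ⊔ Y :=
        (le_sup_left : Subgroup.closure {h} ≤ _) (Subgroup.subset_closure rfl)
      have e := Subgroup.relIndex_mul_relIndex Y (Subgroup.closure {h} ⊔ Y) H le_sup_right h1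
      rw [hj] at e
      obtain ⟨i, hij, hi⟩ := (Nat.dvd_prime_pow hp).1 (Dvd.intro_left _ e)
      have hne : i ≠ j := by
        intro hij'
        rw [hi, hij'] at e
        have h2 : Y.relIndex (Subgroup.closure {h} ⊔ Y) = 1 := by
          have h3 : 0 < p ^ j := pow_pos hp.pos j
          exact Nat.eq_of_mul_eq_mul_right h3 (by rw [e, one_mul])
        exact hhY (Subgroup.relIndex_eq_one.1 h2 hh)
      obtain ⟨s, hs, hsH, hcl⟩ := ih i (by omega) _ h1 hi
      refine ⟨insert h s, ?_, ?_, ?_⟩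
      · have := Finset.card_insert_le h s
        omega
      · intro x hx
        rcases Finset.mem_insert.1 hx with rfl | hx
        · exact hhH
        · exact hsH x hx
      · apply le_antisymm
        · refine sup_le ((Subgroup.closure_le H).2 ?_) hY
          intro x hx
          rw [Finset.coe_insert] at hx
          rcases hx with rfl | hx
          · exact hhH
          · exact hsH x hx
        · rw [← hcl]
          refine sup_le ?_ (sup_le ?_ le_sup_right)
          · refine le_trans (Subgroup.closure_mono ?_) le_sup_left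
            rw [Finset.coe_insert]
            exact Set.subset_insert _ _
          · refine le_trans (Subgroup.closure_mono ?_) le_sup_left
            rw [Finset.coe_insert]
            exact Set.singleton_subset_iff.2 (Set.mem_insert _ _)

end UGenAux

open UGenAux

theorem gen_of_fr {G : Type*} [Group G] {p : ℕ} (hp : p.Prime) {N : Subgroup G} (hN : N.Normal)
    (H : Subgroup G) (hNH : N ≤ H) (hk : ∃ k : ℕ, N.relIndex H = p ^ k) (d : ℕ)
    (hd : (Fr p H ⊔ N).relIndex H ≤ p ^ d) :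
    ∃ s : Finset G, s.card ≤ d ∧ (∀ x ∈ s, x ∈ H) ∧ Subgroup.closure (s : Set G) ⊔ N = H := by
  classical
  haveI := hN
  haveI := Fact.mk hp
  obtain ⟨k, hk⟩ := hk
  have hX : Fr p H ⊔ N ≤ H := sup_le (fr_le p H) hNH
  have hXj : ∃ j : ℕ, (Fr p H ⊔ N).relIndex H = p ^ j := by
    have e := Subgroup.relIndex_mul_relIndex N (Fr p H ⊔ N) H le_sup_right hX
    rw [hk] at e
    obtain ⟨j, _, hj⟩ := (Nat.dvd_prime_pow hp).1 (Dvd.intro_left _ e)
    exact ⟨j, hj⟩
  obtain ⟨j, hj⟩ := hXj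
  obtain ⟨s, hs, hsH, hcl⟩ := gen_aux hp H j _ hX hj
  have hjd : j ≤ d := by
    rw [hj] at hd
    exact (Nat.pow_le_pow_iff_right hp.one_lt).1 hd
  refine ⟨s, hs.trans hjd, hsH, ?_⟩
  have hcard : Nat.card (H ⧸ N.subgroupOf H) = p ^ k := hk
  haveI : Finite (H ⧸ N.subgroupOf H) :=
    Nat.finite_of_card_ne_zero (by rw [hcard]; exact (pow_pos hp.pos k).ne')
  have hP : IsPGroup p (H ⧸ N.subgroupOf H) := IsPGroup.of_card hcard
  have hTH : Subgroup.closure (s : Set G) ⊔ N ≤ H :=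
    sup_le ((Subgroup.closure_le H).2 hsH) hNH
  apply le_antisymm hTH
  have htop : ((Subgroup.closure (s : Set G) ⊔ N).subgroupOf H).map
      (QuotientGroup.mk' (N.subgroupOf H)) = ⊤ := by
    rcases eq_top_or_exists_le_coatom (((Subgroup.closure (s : Set G) ⊔ N).subgroupOf H).map
      (QuotientGroup.mk' (N.subgroupOf H))) with h1 | ⟨M, hM, hTM⟩
    · exact h1
    · exfalso
      have hF := coatom hp hP hM
      have h2 : H ≤ (M.comap (QuotientGroup.mk' (N.subgroupOf H))).map H.subtype := by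
        conv_lhs => rw [← hcl]
        refine sup_le ?_ (sup_le ?_ ?_)
        · rw [Subgroup.closure_le]
          intro x hx
          refine ⟨⟨x, hsH x hx⟩, ?_, rfl⟩
          apply hTM
          refine ⟨⟨x, hsH x hx⟩, ?_, rfl⟩
          exact (le_sup_left : Subgroup.closure (s : Set G) ≤ _) (Subgroup.subset_closure hx)
        · rw [Fr, Subgroup.closure_le]
          rintro y (⟨x, hx, rfl⟩ | ⟨a, ha, b, hb, rfl⟩)
          · refine ⟨⟨x, hx⟩ ^ p, ?_, rfl⟩
            apply hF
            rw [map_pow]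
            exact pow_mem_FrP _
          · refine ⟨⟨a, ha⟩ * ⟨b, hb⟩ * ⟨a, ha⟩⁻¹ * ⟨b, hb⟩⁻¹, ?_, rfl⟩
            apply hF
            rw [map_mul, map_mul, map_mul, map_inv, map_inv]
            exact comm_mem_FrP _ _
        · intro x hx
          refine ⟨⟨x, hNH hx⟩, ?_, rfl⟩
          have h3 : (QuotientGroup.mk' (N.subgroupOf H)) ⟨x, hNH hx⟩ = 1 :=
            (QuotientGroup.eq_one_iff _).2 hx
          change (QuotientGroup.mk' (N.subgroupOf H)) ⟨x, hNH hx⟩ ∈ M
          rw [h3]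
          exact M.one_mem
      apply hM.1
      rw [eq_top_iff]
      intro z _
      obtain ⟨w, rfl⟩ := QuotientGroup.mk'_surjective (N.subgroupOf H) z
      obtain ⟨v, hv, hvw⟩ := h2 w.2
      have h4 : v = w := Subtype.ext hvw
      rw [← h4]
      exact hv
  intro x hx
  have h5 : (QuotientGroup.mk' (N.subgroupOf H)) ⟨x, hx⟩ ∈
      ((Subgroup.closure (s : Set G) ⊔ N).subgroupOf H).map
        (QuotientGroup.mk' (N.subgroupOf H)) := by
    rw [htop]
    exact Subgroup.mem_top _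
  obtain ⟨t, ht, htx⟩ := h5
  have h6 : t⁻¹ * ⟨x, hx⟩ ∈ N.subgroupOf H := QuotientGroup.eq.1 htx
  have h7 : (t : G)⁻¹ * x ∈ N := h6
  have e : x = (t : G) * ((t : G)⁻¹ * x) := by group
  rw [e]
  exact Subgroup.mul_mem _ ht ((le_sup_right : N ≤ _) h7)

theorem gen_of_index {G : Type*} [Group G] {p : ℕ} (hp : p.Prime) (H X : Subgroup G)
    (hXH : X ≤ H) (hk : ∃ k : ℕ, X.relIndex H = p ^ k) (hn : ∀ h ∈ H, ∀ x ∈ X, h * x * h⁻¹ ∈ X)
    (d : ℕ) (hd : X.relIndex H ≤ p ^ d) :
    ∃ s : Finset G, s.card ≤ d ∧ (∀ x ∈ s, x ∈ H) ∧ Subgroup.closure (s : Set G) ⊔ X = H := by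
  obtain ⟨k, hk⟩ := hk
  obtain ⟨s, hs, hsH, hcl⟩ := gen_aux hp H k X hXH hk
  refine ⟨s, hs.trans ?_, hsH, hcl⟩
  rw [hk] at hd
  exact (Nat.pow_le_pow_iff_right hp.one_lt).1 hd

theorem uniform_gen {G : Type*} [Group G] {p : ℕ} (hp : p.Prime) (K : Subgroup G) (hK : K.Normal)
    {c : ℕ} (hc : EB p K c) {N : Subgroup G} (hN : NP p K N) (H : Subgroup G) (hH : H ≤ K) :
    ∃ s : Finset G, s.card ≤ c + c * (2 * c + 1) ^ 2 ∧ (∀ x ∈ s, x ∈ H ⊔ N) ∧
      Subgroup.closure (s : Set G) ⊔ N = H ⊔ N := by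
  classical
  obtain ⟨L, n, hL0, hLn, hLnorm, hNL, hLg, hLa, hLc, hLi, hLf⟩ := exists_ser hp K hK hc hN
  have hNK : N ≤ K := hN.2.1
  have hHK : H ⊔ N ≤ K := sup_le hH hNK
  have hWK : L 0 ≤ K := by
    rw [hL0]
    intro x hx
    exact hx.1
  have hNHW : N ≤ (H ⊔ N) ⊓ L 0 := le_inf le_sup_right (hNL 0)
  have hHWK : (H ⊔ N) ⊓ L 0 ≤ K := inf_le_left.trans hHK
  have h1 := fr_index hp hN.1 L n hLn hLnorm hLg hLa hLc hLf ((H ⊔ N) ⊓ L 0) hNHW inf_le_right
  obtain ⟨s1, hs1, hs1H, hcl1⟩ := gen_of_fr hp hN.1 ((H ⊔ N) ⊓ L 0) hNHW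
    (hN.relIndex hp le_rfl hNHW hHWK) c (h1.trans (hLi 0))
  obtain ⟨j, hj⟩ := hN.relIndex hp (hNL 0) le_rfl hWK
  obtain ⟨j, hj⟩ := hN.relIndex hp hNHW inf_le_left hHK
  obtain ⟨i, hi⟩ := hN.relIndex hp (hNL 0) hWK le_rfl
  have hle : ((H ⊔ N) ⊓ L 0).relIndex (H ⊔ N) ≤ p ^ (c * (2 * c + 1) ^ 2) := by
    rw [Subgroup.inf_relIndex_left]
    have h2 : (L 0).relIndex (H ⊔ N) ≤ (L 0).relIndex K :=
      Subgroup.relIndex_le_of_le_right hHK (by rw [hi]; exact (pow_pos hp.pos i).ne')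
    have h3 := Wn_relIndex hp (2 * c + 1) hK hc hN
    rw [← hL0] at h3
    refine h2.trans (h3.trans (le_of_eq ?_))
    congr 1
    ring
  obtain ⟨s2, hs2, hs2H, hcl2⟩ := gen_aux hp (H ⊔ N) j _ inf_le_left hj
  have hjd : j ≤ c * (2 * c + 1) ^ 2 := by
    rw [hj] at hle
    exact (Nat.pow_le_pow_iff_right hp.one_lt).1 hle
  refine ⟨s1 ∪ s2, ?_, ?_, ?_⟩
  · have := Finset.card_union_le s1 s2
    omega
  · intro x hx
    rcases Finset.mem_union.1 hx with hx | hx
    · exact (hs1H x hx).1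
    · exact hs2H x hx
  · rw [Finset.coe_union, Subgroup.closure_union, sup_comm (Subgroup.closure (s1 : Set G)),
      sup_assoc, hcl1, hcl2]

end P9700t
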